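import Pool.Agent.GEN42.Unif

/-!
# Module GEN42/Abs

Polynomial time relative to a polynomial-time oracle.

PROOF. `answers A q x m = (fun a => a ++ [A (q (x, a))])^[m] []` (induction); `PolyTime.iterate'` with the
bound `sz_answers_le`; `m = p.eval (sz x)` (`polyEval_polyTime`).
-/

set_option autoImplicit false

namespace Pool.Agent.GEN42

open Pool.Agent.PT Pool.Agent.TMB67 Pool.Agent.POpt67 Pool.Agent.POpt70 Pool.Agent.ROr14
open Pool.Agent.TO42
open N68a2faeb N793a5b8e N487b59b3

private theorem abs27_answers {α : Type} (A : List Bool → Bool)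
    (q : α × List Bool → List Bool) (x : α) (m : ℕ) :
    (fun a : List Bool => a ++ [A (q (x, a))])^[m] [] = answers A q x m := by
  induction m with
  | zero => rfl
  | succ m ih => rw [Function.iterate_succ_apply', ih]; rfl

theorem UT_polyTime {α β : Type} [Enc α] [Enc β] {F : (List Bool → Bool) → α → β} (hF : UT F)
    {A : List Bool → Bool} (hA : PolyTime A) : PolyTime (F A) := by
  obtain ⟨p, q, g, hq, hg, h⟩ := hF
  have hm : PolyTime (fun x : α => p.eval (sz x)) := polyEval_polyTime (PolyTime.size PolyTime.id) p
  have hf : PolyTime (fun z : α × List Bool => z.2 ++ [A (q (z.1, z.2))]) :=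
    PolyTime.append PolyTime.snd' (PolyTime.cons (hA.comp (hq.comp
      (PolyTime.pair PolyTime.fst' PolyTime.snd'))) (PolyTime.const []))
  have hit : PolyTime (fun x : α => (fun a : List Bool => a ++ [A (q (x, a))])^[p.eval (sz x)] []) := by
    refine PolyTime.iterate' (f := fun x (a : List Bool) => a ++ [A (q (x, a))])
      (n := fun x => p.eval (sz x)) (g := fun _ => []) hf hm (PolyTime.const [])
      (s := fun x => 4 * p.eval (sz x) + 1) ?_ ?_
    · exact (PBdd.mul (PBdd.const 4) (PBdd.size.eval p)).add (PBdd.const 1)
    · intro x i hi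
      rw [abs27_answers]
      have := sz_answers_le A q x i
      omega
  have h2 : PolyTime (fun x : α => g (x, answers A q x (p.eval (sz x)))) := by
    refine hg.comp (PolyTime.pair PolyTime.id ?_)
    exact hit.congr fun x => (abs27_answers A q x _).symm
  exact h2.congr fun x => h A x _ le_rfl

end Pool.Agent.GEN42
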