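import Pool.Agent.GEN42.Word

/-!
# Module GEN42/Aug

The interpreter on stacks whose elements carry names.

PROOF. `arun_fgt`: induction, `fgt (astep …) = stepC …` by cases. `length_top_le`: all names in
`(arun W r s i).2 k` are `false :: ones j` with `j ≤ s.length` or `true :: wd W j` (invariant).
`look_spec`: INVARIANT for every `i`, `k` and every suffix `e :: t` of `(arun W r s i).2 k`: either (virtual)
`e :: t = vst s'` for some suffix `s'` of `s`, or (real) there is `j < i` with `e.1 = true :: wd W j`,
`(arun W r s j).1 = .push k e.2 :: r'` for some `r'`, and `(arun W r s j).2 k = t`. Induction on `i`: a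
push adds the suffix with `j = i`; a pop removes one. Virtual case: `s' = b :: s''`,
`e = (false :: List.replicate (s''.length + 1) true, b)`, and `look` gives the bit number
`s.length - s'.length` of `s`, which is `b`, and the name of the top of `vst s''`. Real case: `h`.
`nextR_R`: by cases on the label; the name of an element is never `[]`, so `(tops S).get k = []` iff the
stack is empty.
-/

set_option autoImplicit false

namespace Pool.Agent.GEN42

open Pool.Agent.PT Pool.Agent.TMB67

/-- Four stacks whose elements carry names. -/
abbrev AS := Stk → List (List Bool × Bool)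

/-- Names for the initial stack. -/
def vst : List Bool → List (List Bool × Bool)
  | [] => []
  | b :: s => (false :: List.replicate (s.length + 1) true, b) :: vst s

/-- One step; a new element gets the name `true :: w`. -/
def astep (w : List Bool) (c : List Cmd × AS) : List Cmd × AS :=
  match c.1 with
  | [] => ([], c.2)
  | .skip :: r => (r, c.2)
  | .push k b :: r => (r, Function.update c.2 k ((true :: w, b) :: c.2 k))
  | .seq u v :: r => (u :: v :: r, c.2)
  | .case k u v z :: r =>
      match c.2 k with
      | [] => (u :: r, c.2)
      | e :: t => (bif e.2 then z :: r else v :: r, Function.update c.2 k t)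
  | .loop k u :: r =>
      match c.2 k with
      | [] => (r, c.2)
      | e :: t => (bif e.2 then u :: .loop k u :: r else r, Function.update c.2 k t)

/-- The run with input `s` on the first stack. -/
def arun (W : ℕ) (r : Cmd) (s : List Bool) : ℕ → List Cmd × AS
  | 0 => ([r], fun k => if k = Stk.A then vst s else [])
  | i + 1 => astep (wd W i) (arun W r s i)

/-- Forget the names. -/
def fgt (S : AS) : St :=
  ⟨(S .A).map Prod.snd, (S .B).map Prod.snd, (S .C).map Prod.snd, (S .D).map Prod.snd⟩

private theorem aug_fgt_get (S : AS) (k : Stk) : (fgt S).get k = (S k).map Prod.snd := by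
  cases k <;> rfl

private theorem aug_fgt_update (S : AS) (k : Stk) (l : List (List Bool × Bool)) :
    fgt (Function.update S k l) = (fgt S).set k (l.map Prod.snd) := by
  cases k <;> simp [fgt, St.set, Function.update]

private theorem aug_vst_snd (s : List Bool) : (vst s).map Prod.snd = s := by
  induction s with
  | nil => rfl
  | cons b s ih => simp [vst, ih]

private theorem aug_astep_fgt (w : List Bool) (c : List Cmd × AS) :
    ((astep w c).1, fgt (astep w c).2) = stepC (c.1, fgt c.2) := by
  obtain ⟨l, S⟩ := c
  rcases l with _ | ⟨c, r⟩
  · rfl
  · cases c with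
    | skip => rfl
    | push k b =>
      simp only [astep, stepC, unfoldC, aug_fgt_update, aug_fgt_get, List.map_cons]
    | seq u v => rfl
    | case k u v z =>
      rcases hk : S k with _ | ⟨e, t⟩
      · simp only [astep, stepC, unfoldC, aug_fgt_get, hk, List.map_nil]
      · simp only [astep, stepC, unfoldC, aug_fgt_get, hk, List.map_cons, aug_fgt_update]
    | loop k u =>
      rcases hk : S k with _ | ⟨e, t⟩
      · simp only [astep, stepC, unfoldC, aug_fgt_get, hk, List.map_nil]
      · simp only [astep, stepC, unfoldC, aug_fgt_get, hk, List.map_cons, aug_fgt_update]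

theorem arun_fgt (W : ℕ) (r : Cmd) (s : List Bool) (i : ℕ) :
    ((arun W r s i).1, fgt (arun W r s i).2) = stepC^[i] ([r], ⟨s, [], [], []⟩) := by
  induction i with
  | zero =>
    simp only [arun, Function.iterate_zero, id_eq, Prod.mk.injEq, true_and]
    simp [fgt, aug_vst_snd]
  | succ i ih =>
    rw [Function.iterate_succ_apply', ← ih, ← aug_astep_fgt (wd W i) (arun W r s i)]
    rfl

/-- The name of the top element. -/
def top (l : List (List Bool × Bool)) : List Bool := (l.head?.map Prod.fst).getD []

/-- The names of the four top elements. -/
def tops (S : AS) : St := ⟨top (S .A), top (S .B), top (S .C), top (S .D)⟩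

/-- The record at time `i`: the label and the names of the top elements. -/
def rec4 (W : ℕ) (r : Cmd) (s : List Bool) (i : ℕ) : List Cmd × St :=
  ((arun W r s i).1, tops (arun W r s i).2)

/-- The origin of an element. -/
private def AugInv (W : ℕ) (r : Cmd) (s : List Bool) (i : ℕ) (k : Stk) (e : List Bool × Bool)
    (t : List (List Bool × Bool)) : Prop :=
  (∃ s', s' <:+ s ∧ e :: t = vst s') ∨
    ∃ j < i, e.1 = true :: wd W j ∧ (∃ r', (arun W r s j).1 = .push k e.2 :: r') ∧
      (arun W r s j).2 k = t

private theorem aug_suffix_vst {s : List Bool} {e : List Bool × Bool}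
    {t : List (List Bool × Bool)} (h : (e :: t) <:+ vst s) : ∃ s', s' <:+ s ∧ e :: t = vst s' := by
  induction s with
  | nil => simp [vst] at h
  | cons b s ih =>
    rw [vst, List.suffix_cons_iff] at h
    rcases h with h | h
    · exact ⟨b :: s, List.suffix_refl _, h⟩
    · obtain ⟨s', h1, h2⟩ := ih h
      exact ⟨s', h1.trans (List.suffix_cons b s), h2⟩

private theorem aug_inv_mono {W : ℕ} {r : Cmd} {s : List Bool} {i : ℕ} {k : Stk}
    {e : List Bool × Bool} {t : List (List Bool × Bool)} (h : AugInv W r s i k e t) :
    AugInv W r s (i + 1) k e t := by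
  rcases h with h | ⟨j, hj, h⟩
  · exact Or.inl h
  · exact Or.inr ⟨j, by omega, h⟩

private theorem aug_inv (W : ℕ) (r : Cmd) (s : List Bool) (i : ℕ) :
    ∀ (k : Stk) (e : List Bool × Bool) (t : List (List Bool × Bool)),
      (e :: t) <:+ (arun W r s i).2 k → AugInv W r s i k e t := by
  induction i with
  | zero =>
    intro k e t h
    simp only [arun] at h
    by_cases hk : k = Stk.A
    · rw [if_pos hk] at h
      exact Or.inl (aug_suffix_vst h)
    · rw [if_neg hk] at h
      simp at h
  | succ i ih =>
    intro k e t h
    have hstep : (arun W r s (i + 1)) = astep (wd W i) (arun W r s i) := rfl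
    rw [hstep] at h
    rcases hc : (arun W r s i) with ⟨l, S⟩
    rw [hc] at h
    rcases l with _ | ⟨c, r'⟩
    · exact aug_inv_mono (ih k e t (by rw [hc]; exact h))
    · cases c with
      | skip => exact aug_inv_mono (ih k e t (by rw [hc]; exact h))
      | seq u v => exact aug_inv_mono (ih k e t (by rw [hc]; exact h))
      | push k' b =>
        simp only [astep] at h
        by_cases hk : k = k'
        · subst hk
          rw [Function.update_self, List.suffix_cons_iff] at h
          rcases h with h | h
          · rw [List.cons.injEq] at h
            obtain ⟨rfl, rfl⟩ := h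
            exact Or.inr ⟨i, by omega, rfl, ⟨r', by rw [hc]⟩, by rw [hc]⟩
          · exact aug_inv_mono (ih k e t (by rw [hc]; exact h))
        · rw [Function.update_of_ne hk] at h
          exact aug_inv_mono (ih k e t (by rw [hc]; exact h))
      | case k' u v z =>
        rcases hk' : S k' with _ | ⟨e', t'⟩
        · simp only [astep, hk'] at h
          exact aug_inv_mono (ih k e t (by rw [hc]; exact h))
        · simp only [astep, hk'] at h
          by_cases hk : k = k'
          · subst hk
            rw [Function.update_self] at h
            refine aug_inv_mono (ih k e t ?_)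
            rw [hc]
            change _ <:+ S k
            rw [hk']
            exact h.trans (List.suffix_cons _ _)
          · rw [Function.update_of_ne hk] at h
            exact aug_inv_mono (ih k e t (by rw [hc]; exact h))
      | loop k' u =>
        rcases hk' : S k' with _ | ⟨e', t'⟩
        · simp only [astep, hk'] at h
          exact aug_inv_mono (ih k e t (by rw [hc]; exact h))
        · simp only [astep, hk'] at h
          by_cases hk : k = k'
          · subst hk
            rw [Function.update_self] at h
            refine aug_inv_mono (ih k e t ?_)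
            rw [hc]
            change _ <:+ S k
            rw [hk']
            exact h.trans (List.suffix_cons _ _)
          · rw [Function.update_of_ne hk] at h
            exact aug_inv_mono (ih k e t (by rw [hc]; exact h))

private theorem aug_tops_get (S : AS) (k : Stk) : (tops S).get k = top (S k) := by
  cases k <;> rfl

private theorem aug_wd_length (n i : ℕ) : (wd n i).length = n := by
  induction n generalizing i with
  | zero => rfl
  | succ n ih => simp [wd, ih]

private theorem aug_name (W : ℕ) (r : Cmd) (s : List Bool) (i : ℕ) {k : Stk}
    {e : List Bool × Bool} {t : List (List Bool × Bool)} (h : (arun W r s i).2 k = e :: t) :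
    e.1.length ≤ s.length + W + 1 ∧ e.1 ≠ [] := by
  rcases aug_inv W r s i k e t (by rw [h]) with ⟨s', hs, he⟩ | ⟨j, hj, he, -⟩
  · rcases s' with _ | ⟨b, s'⟩
    · simp [vst] at he
    · rw [vst, List.cons.injEq] at he
      obtain ⟨rfl, -⟩ := he
      have := hs.length_le
      simp only [List.length_cons] at this
      simp only [List.length_cons, List.length_replicate, ne_eq, reduceCtorEq, not_false_eq_true,
        and_true]
      omega
  · rw [he, List.length_cons, aug_wd_length]
    simp

theorem length_top_le (W : ℕ) (r : Cmd) (s : List Bool) (i : ℕ) (k : Stk) :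
    ((rec4 W r s i).2.get k).length ≤ s.length + W + 1 := by
  rw [rec4, aug_tops_get]
  rcases h : (arun W r s i).2 k with _ | ⟨e, t⟩
  · simp [top]
  · exact (aug_name W r s i h).1

/-- The bit and the name of the next element, for the element with a given name on stack `k`. -/
def look (s : List Bool) (Rf : List Bool → List Cmd × St) (k : Stk) :
    List Bool → Bool × List Bool
  | [] => (false, [])
  | false :: v => (s.getD (s.length - v.length) false,
      if v.length ≤ 1 then [] else false :: List.replicate (v.length - 1) true)
  | true :: w => ((match (Rf w).1 with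
      | .push _ b :: _ => b
      | _ => false), (Rf w).2.get k)

theorem look_spec {W : ℕ} {r : Cmd} {s : List Bool} {i : ℕ}
    {Rf : List Bool → List Cmd × St} (h : ∀ j < i, Rf (wd W j) = rec4 W r s j) (k : Stk)
    {e : List Bool × Bool} {t : List (List Bool × Bool)} (he : (arun W r s i).2 k = e :: t) :
    look s Rf k e.1 = (e.2, top t) := by
  rcases aug_inv W r s i k e t (by rw [he]) with ⟨s', hs, h2⟩ | ⟨j, hj, h2, ⟨r', h3⟩, h4⟩
  · rcases s' with _ | ⟨b, s'⟩
    · simp [vst] at h2
    · rw [vst, List.cons.injEq] at h2
      obtain ⟨rfl, rfl⟩ := h2
      obtain ⟨q, hq⟩ := hs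
      simp only [look, List.length_replicate]
      have hl : s.length = q.length + (s'.length + 1) := by rw [← hq]; simp
      have h5 : s.length - (s'.length + 1) = q.length := by omega
      have h6 : s.getD (s.length - (s'.length + 1)) false = b := by
        rw [h5, ← hq]
        simp
      rw [h6]
      rcases s' with _ | ⟨b', s'⟩
      · simp [vst, top]
      · simp [vst, top]
  · obtain ⟨n, b⟩ := e
    simp only at h2 h3 ⊢
    subst h2
    simp only [look, h j hj, rec4, h3, aug_tops_get, h4]

/-- The next record. -/
def nextR (w : List Bool) (l : List Cmd) (S Bt Nx : St) : List Cmd × St :=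
  match l with
  | [] => ([], S)
  | .skip :: r => (r, S)
  | .push k _ :: r => (r, S.set k (true :: w))
  | .seq u v :: r => (u :: v :: r, S)
  | .case k u v z :: r => if S.get k = [] then (u :: r, S) else
      (bif (Bt.get k).headD false then z :: r else v :: r, S.set k (Nx.get k))
  | .loop k u :: r => if S.get k = [] then (r, S) else
      (bif (Bt.get k).headD false then u :: .loop k u :: r else r, S.set k (Nx.get k))

/-- The bits of the four top elements. -/
def bts (s : List Bool) (Rf : List Bool → List Cmd × St) (S : St) : St :=
  ⟨[(look s Rf .A S.a).1], [(look s Rf .B S.b).1], [(look s Rf .C S.c).1], [(look s Rf .D S.d).1]⟩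

/-- The names of the next elements. -/
def nxs (s : List Bool) (Rf : List Bool → List Cmd × St) (S : St) : St :=
  ⟨(look s Rf .A S.a).2, (look s Rf .B S.b).2, (look s Rf .C S.c).2, (look s Rf .D S.d).2⟩

theorem nextR_rec4 {W : ℕ} {r : Cmd} {s : List Bool} {i : ℕ}
    {Rf : List Bool → List Cmd × St} (h : ∀ j < i, Rf (wd W j) = rec4 W r s j) :
    nextR (wd W i) (rec4 W r s i).1 (rec4 W r s i).2 (bts s Rf (rec4 W r s i).2)
      (nxs s Rf (rec4 W r s i).2) = rec4 W r s (i + 1) := by
  have hup : ∀ (S : AS) (k : Stk) (l : List (List Bool × Bool)),
      tops (Function.update S k l) = (tops S).set k (top l) := by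
    intro S k l
    cases k <;> simp [tops, St.set, Function.update]
  have hb : ∀ (S : St) (k : Stk), (bts s Rf S).get k = [(look s Rf k (S.get k)).1] := by
    intro S k
    cases k <;> rfl
  have hn : ∀ (S : St) (k : Stk), (nxs s Rf S).get k = (look s Rf k (S.get k)).2 := by
    intro S k
    cases k <;> rfl
  have key : ∀ (k : Stk) (e : List Bool × Bool) (t : List (List Bool × Bool)),
      (arun W r s i).2 k = e :: t → (tops (arun W r s i).2).get k = e.1 ∧ e.1 ≠ [] ∧
        look s Rf k e.1 = (e.2, top t) := by
    intro k e t hk
    refine ⟨?_, (aug_name W r s i hk).2, look_spec h k hk⟩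
    rw [aug_tops_get, hk]
    rfl
  have hrec : rec4 W r s (i + 1) =
      ((astep (wd W i) (arun W r s i)).1, tops (astep (wd W i) (arun W r s i)).2) := rfl
  rw [hrec]
  simp only [rec4]
  rcases hc : (arun W r s i) with ⟨l, S⟩
  rw [hc] at key
  simp only at key ⊢
  rcases l with _ | ⟨c, r'⟩
  · rfl
  · cases c with
    | skip => rfl
    | seq u v => rfl
    | push k b =>
      simp only [nextR, astep, hup]
      rfl
    | case k u v z =>
      rcases hk : S k with _ | ⟨e, t⟩
      · have h0 : (tops S).get k = [] := by rw [aug_tops_get, hk]; rfl
        simp only [nextR, astep, hk, h0, if_true]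
      · obtain ⟨h1, h2, h3⟩ := key k e t hk
        simp only [nextR, astep, hk, h1, if_neg h2, hb, hn, h3, hup, List.headD_cons]
    | loop k u =>
      rcases hk : S k with _ | ⟨e, t⟩
      · have h0 : (tops S).get k = [] := by rw [aug_tops_get, hk]; rfl
        simp only [nextR, astep, hk, h0, if_true]
      · obtain ⟨h1, h2, h3⟩ := key k e t hk
        simp only [nextR, astep, hk, h1, if_neg h2, hb, hn, h3, hup, List.headD_cons]

end Pool.Agent.GEN42
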