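import Pool.Agent.GEN42.Aug

/-!
# Module GEN42/AugPT

The step on records is polynomial time.

PROOF. Write `nextR` as a nested `List.casesOn`/`Sum.casesOn` on `unfoldC c`, exactly as `stepC` and
`stepC_polyTime` in TMBridge67/Univ.lean (`PolyTime.listCases`, `PolyTime.sumCases`, `PolyTime.ite`,
`PolyTime.cond`, `St_get_polyTime`, `St_set_polyTime`, `PolyTime.headD`); `PolyTime.congr` at the end.
-/

set_option autoImplicit false

namespace Pool.Agent.GEN42

open Pool.Agent.PT Pool.Agent.TMB67

/-- The step on records by nested case distinctions. -/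
def nextR' (q : (List Bool × (List Cmd × St)) × (St × St)) : List Cmd × St :=
  List.casesOn (motive := fun _ => List Cmd × St) q.1.2.1 ([], q.1.2.2) fun c r =>
    Sum.casesOn (motive := fun _ => List Cmd × St) (unfoldC c) (fun _ => (r, q.1.2.2)) fun z =>
      Sum.casesOn (motive := fun _ => List Cmd × St) z
        (fun kx => (r, q.1.2.2.set kx.1 (true :: q.1.1))) fun z =>
          Sum.casesOn (motive := fun _ => List Cmd × St) z
            (fun pq => (pq.1 :: pq.2 :: r, q.1.2.2)) fun z =>
              Sum.casesOn (motive := fun _ => List Cmd × St) z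
                (fun y => List.casesOn (motive := fun _ => List Cmd × St) (q.1.2.2.get y.1)
                  (y.2.1 :: r, q.1.2.2)
                  fun _ _ => (bif (q.2.1.get y.1).headD false then y.2.2.2 :: r else y.2.2.1 :: r,
                    q.1.2.2.set y.1 (q.2.2.get y.1)))
                (fun y => List.casesOn (motive := fun _ => List Cmd × St) (q.1.2.2.get y.1)
                  (r, q.1.2.2)
                  fun _ _ => (bif (q.2.1.get y.1).headD false then y.2 :: c :: r else r,
                    q.1.2.2.set y.1 (q.2.2.get y.1)))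

theorem nextR'_polyTime : PolyTime nextR' := by
  unfold nextR'
  refine PolyTime.listCases (l := fun q : (List Bool × (List Cmd × St)) × (St × St) => q.1.2.1)
    (by fun_prop) (by fun_prop) ?_
  refine PolyTime.sumCases (unfoldC_polyTime.comp (by fun_prop)) (by fun_prop) ?_
  refine PolyTime.sumCases (by fun_prop) ?_ ?_
  · exact PolyTime.pair (by fun_prop) (St_set_polyTime (by fun_prop) (by fun_prop)
      (by fun_prop))
  refine PolyTime.sumCases (by fun_prop) (by fun_prop) ?_
  refine PolyTime.sumCases (by fun_prop) ?_ ?_
  · refine PolyTime.listCases (St_get_polyTime (by fun_prop) (by fun_prop)) (by fun_prop) ?_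
    exact PolyTime.pair (PolyTime.cond (PolyTime.headD (St_get_polyTime (by fun_prop)
      (by fun_prop)) (by fun_prop)) (by fun_prop) (by fun_prop))
      (St_set_polyTime (by fun_prop) (by fun_prop) (St_get_polyTime (by fun_prop) (by fun_prop)))
  · refine PolyTime.listCases (St_get_polyTime (by fun_prop) (by fun_prop)) (by fun_prop) ?_
    exact PolyTime.pair (PolyTime.cond (PolyTime.headD (St_get_polyTime (by fun_prop)
      (by fun_prop)) (by fun_prop)) (by fun_prop) (by fun_prop))
      (St_set_polyTime (by fun_prop) (by fun_prop) (St_get_polyTime (by fun_prop) (by fun_prop)))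

theorem nextR'_eq (q : (List Bool × (List Cmd × St)) × (St × St)) :
    nextR q.1.1 q.1.2.1 q.1.2.2 q.2.1 q.2.2 = nextR' q := by
  obtain ⟨⟨w, l, S⟩, B, N⟩ := q
  cases l with
  | nil => rfl
  | cons c r =>
    cases c with
    | skip => rfl
    | push k x => rfl
    | seq u v => rfl
    | case k u v z =>
      cases hg : S.get k with
      | nil => simp only [nextR, nextR', unfoldC, hg, if_true]
      | cons b l => simp only [nextR, nextR', unfoldC, hg, reduceCtorEq, if_false]
    | loop k u =>
      cases hg : S.get k with
      | nil => simp only [nextR, nextR', unfoldC, hg, if_true]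
      | cons b l => simp only [nextR, nextR', unfoldC, hg, reduceCtorEq, if_false]

theorem nextR_polyTime : PolyTime (fun q : (List Bool × (List Cmd × St)) × (St × St) =>
    nextR q.1.1 q.1.2.1 q.1.2.2 q.2.1 q.2.2) := by
  have h : (fun q : (List Bool × (List Cmd × St)) × (St × St) =>
    nextR q.1.1 q.1.2.1 q.1.2.2 q.2.1 q.2.2) = nextR' := funext nextR'_eq
  rw [h]
  exact nextR'_polyTime

end Pool.Agent.GEN42
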