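import Pool.Agent.TMBridge67.Univ2

/-!
# Module GEN42/Pad

Padding of strings.

PROOF. `unpad_pad`: the last `true` in `pad n s` is at position `s.length`; so the filtered list of
positions reversed begins with `s.length` (all positions `j` of `pad n s` with value `true` are
`≤ s.length`; e.g. split `List.range (pad n s).length` as `List.range (s.length + 1) ++ ...`, or prove it
via `List.reverse`/`dropWhile`; you may change the definition of `unpad` if that is easier, only the
four facts below are used). `unpad_polyTime`: `PolyTime.take`, `PolyTime.filter`, `PolyTime.reverse`,
`PolyTime.headD`, `PolyTime.getD`. `pad_inj` from `unpad_pad`.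
-/

set_option autoImplicit false

namespace Pool.Agent.GEN42

open Pool.Agent.PT

/-- Padding to length `n + 1`. -/
def pad (n : ℕ) (s : List Bool) : List Bool := s ++ true :: List.replicate (n - s.length) false

/-- Remove the padding. -/
def unpad (s : List Bool) : List Bool :=
  s.take ((((List.range s.length).filter fun j => s.getD j false).reverse).headD 0)

private theorem headD_filter_range (p : ℕ → Bool) (a : ℕ) (ha : p a = true) :
    ∀ k : ℕ, (∀ j, a < j → j < a + 1 + k → p j = false) →
      (((List.range (a + 1 + k)).filter p).reverse).headD 0 = a
  | 0, _ => by
    rw [Nat.add_zero, List.range_succ, List.filter_append]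
    simp [ha]
  | k + 1, h => by
    have hp : p (a + 1 + k) = false := h _ (by omega) (by omega)
    rw [show a + 1 + (k + 1) = (a + 1 + k) + 1 from rfl, List.range_succ, List.filter_append]
    rw [List.filter_cons_of_neg (by simp [hp]), List.filter_nil, List.append_nil]
    exact headD_filter_range p a ha k fun j h1 h2 => h j h1 (by omega)

theorem unpad_pad (n : ℕ) (s : List Bool) : unpad (pad n s) = s := by
  have hl : (pad n s).length = s.length + 1 + (n - s.length) := by
    simp only [pad, List.length_append, List.length_cons, List.length_replicate]
    omega
  have h := headD_filter_range (fun j => (pad n s).getD j false) s.length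
    (by simp [pad]) (n - s.length) (by
      intro j h1 h2
      obtain ⟨i, rfl⟩ : ∃ i, j = s.length + (i + 1) := ⟨j - s.length - 1, by omega⟩
      have : i < n - s.length := by omega
      simp [pad, this])
  unfold unpad
  rw [hl, h]
  simp [pad]

theorem pad_inj {n : ℕ} {s s' : List Bool} (h : pad n s = pad n s') : s = s' := by
  rw [← unpad_pad n s, h, unpad_pad]

theorem length_pad {n : ℕ} {s : List Bool} (h : s.length ≤ n) : (pad n s).length = n + 1 := by
  simp only [pad, List.length_append, List.length_cons, List.length_replicate]
  omega

theorem pad_polyTime {α : Type} [Enc α] {n : α → ℕ} {s : α → List Bool} (hn : PolyTime n)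
    (hs : PolyTime s) : PolyTime (fun x => pad (n x) (s x)) :=
  PolyTime.append hs (PolyTime.cons (PolyTime.const true)
    (PolyTime.replicate (PolyTime.natSub hn (PolyTime.length hs)) (PolyTime.const false)))

theorem unpad_polyTime : PolyTime unpad :=
  PolyTime.take (PolyTime.headD (PolyTime.reverse (PolyTime.filter
    (g := fun (s : List Bool) (j : ℕ) => s.getD j false)
    (PolyTime.range (PolyTime.length PolyTime.id))
    (PolyTime.getD PolyTime.fst' PolyTime.snd' (PolyTime.const false)))) (PolyTime.const 0))
    PolyTime.id

end Pool.Agent.GEN42
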