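import Pool.Agent.TMBridge67.Univ2

/-!
# Module GEN42/Word

Binary words.

PROOF. By induction on the length, except `inc_polyTime` (`PolyTime.foldl` or `foldl_add` for the
accumulator `(reversed output, carry)`; you may replace the definition of `inc` by
`fun w => (w.foldl (fun s b => (Bool.xor b s.2 :: s.1, b && s.2)) ([], true)).1.reverse`, or use any other
way) and `wd_polyTime` (`wd n i = (List.range n).map fun j => decide (i / 2 ^ j % 2 = 1)`; as `i` is
unary, iterate the map `(i, w) ↦ (i / 2, w ++ [i % 2 = 1])` with `PolyTime.iterate'`).
-/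

set_option autoImplicit false

namespace Pool.Agent.GEN42

open Pool.Agent.PT

/-- The binary word of length `n` of the number `i`, least significant bit first. -/
def wd : ℕ → ℕ → List Bool
  | 0, _ => []
  | n + 1, i => decide (i % 2 = 1) :: wd n (i / 2)

/-- Binary successor. -/
def inc : List Bool → List Bool
  | [] => []
  | false :: w => true :: w
  | true :: w => false :: inc w

theorem length_wd (n i : ℕ) : (wd n i).length = n := by
  induction n generalizing i with
  | zero => rfl
  | succ n ih => simp [wd, ih]

theorem wd_inj {n i j : ℕ} (hi : i < 2 ^ n) (hj : j < 2 ^ n) (h : wd n i = wd n j) : i = j := by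
  induction n generalizing i j with
  | zero =>
    rw [pow_zero] at hi hj
    omega
  | succ n ih =>
    rw [pow_succ] at hi hj
    simp only [wd, List.cons.injEq, decide_eq_decide] at h
    have h1 := ih (i := i / 2) (j := j / 2) (by omega) (by omega) h.2
    have h2 := h.1
    omega

theorem exists_wd (w : List Bool) : ∃ i < 2 ^ w.length, w = wd w.length i := by
  induction w with
  | nil => exact ⟨0, by simp, rfl⟩
  | cons b w ih =>
    obtain ⟨i, hi, hw⟩ := ih
    cases b with
    | false =>
      refine ⟨2 * i, ?_, ?_⟩
      · rw [List.length_cons, pow_succ]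
        omega
      · rw [List.length_cons, wd, show 2 * i / 2 = i by omega, ← hw]
        simp
    | true =>
      refine ⟨2 * i + 1, ?_, ?_⟩
      · rw [List.length_cons, pow_succ]
        omega
      · rw [List.length_cons, wd, show (2 * i + 1) / 2 = i by omega, ← hw,
          show (2 * i + 1) % 2 = 1 by omega]
        simp

theorem wd_zero (n : ℕ) : wd n 0 = List.replicate n false := by
  induction n with
  | zero => rfl
  | succ n ih => simp [wd, ih, List.replicate_succ]

theorem wd_last (n : ℕ) : wd n (2 ^ n - 1) = List.replicate n true := by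
  induction n with
  | zero => rfl
  | succ n ih =>
    have h0 : 0 < 2 ^ n := by positivity
    rw [wd, pow_succ, show (2 ^ n * 2 - 1) / 2 = 2 ^ n - 1 by omega, ih,
      show (2 ^ n * 2 - 1) % 2 = 1 by omega, List.replicate_succ]
    simp

theorem length_inc (w : List Bool) : (inc w).length = w.length := by
  induction w with
  | nil => rfl
  | cons b w ih => cases b <;> simp [inc, ih]

theorem inc_wd {n i : ℕ} (hi : i + 1 < 2 ^ n) : inc (wd n i) = wd n (i + 1) := by
  induction n generalizing i with
  | zero =>
    rw [pow_zero] at hi
    omega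
  | succ n ih =>
    rw [pow_succ] at hi
    rw [wd, wd]
    rcases Nat.mod_two_eq_zero_or_one i with h | h
    · rw [h, show (i + 1) / 2 = i / 2 by omega, show (i + 1) % 2 = 1 by omega]
      simp [inc]
    · rw [h, show (i + 1) / 2 = i / 2 + 1 by omega, show (i + 1) % 2 = 0 by omega]
      simp [inc, ih (i := i / 2) (by omega)]

/-- One step of the computation of the successor. -/
def incStep (s : List Bool × Bool) (b : Bool) : List Bool × Bool :=
  (Bool.xor b s.2 :: s.1, b && s.2)

theorem incFold_false (w acc : List Bool) :
    w.foldl incStep (acc, false) = (w.reverse ++ acc, false) := by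
  induction w generalizing acc with
  | nil => rfl
  | cons b w ih => rw [List.foldl_cons, incStep]; simp [ih]

theorem incFold_true (w acc : List Bool) :
    (w.foldl incStep (acc, true)).1 = (inc w).reverse ++ acc := by
  induction w generalizing acc with
  | nil => rfl
  | cons b w ih =>
    rw [List.foldl_cons, incStep]
    cases b with
    | false => simp [inc, incFold_false]
    | true => simp [inc, ih]

theorem inc_polyTime : PolyTime inc := by
  obtain ⟨B, hB⟩ := Pool.Agent.TMB67.exists_sz_le (β := Bool)
  have h := PolyTime.foldl_add (α := List Bool) (l := fun l => l) (g := fun _ => incStep)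
    (y := fun _ => (([], true) : List Bool × Bool)) PolyTime.id (by unfold incStep; fun_prop)
    (by fun_prop) (s := fun _ => 2 * B + 4) (by fun_prop) (by
      intro _ b _ c
      obtain ⟨c, d⟩ := c
      have h1 := hB (Bool.xor b d)
      have h2 := hB (b && d)
      unfold incStep
      rw [sz_prod, sz_prod]
      simp only [sz_cons]
      omega)
  refine (PolyTime.reverse (PolyTime.fst h)).congr fun w => ?_
  rw [incFold_true]
  simp

/-- One step of the computation of the binary word. -/
def wdStep (s : ℕ × List Bool) : ℕ × List Bool := (s.1 / 2, s.2 ++ [decide (s.1 % 2 = 1)])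

theorem wdStep_iterate (n i : ℕ) (acc : List Bool) :
    (wdStep^[n] (i, acc)).2 = acc ++ wd n i := by
  induction n generalizing i acc with
  | zero => simp [wd]
  | succ n ih =>
    rw [Function.iterate_succ_apply, wdStep]
    simp only
    rw [ih]
    simp [wd]

theorem wdStep_iterate_le (n i : ℕ) (acc : List Bool) :
    (wdStep^[n] (i, acc)).1 ≤ i := by
  induction n generalizing i acc with
  | zero => simp
  | succ n ih =>
    rw [Function.iterate_succ_apply, wdStep]
    exact (ih _ _).trans (Nat.div_le_self _ _)

theorem wdStep_polyTime : PolyTime wdStep := by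
  unfold wdStep
  refine PolyTime.pair (PolyTime.natDiv (by fun_prop) (by fun_prop)) (PolyTime.append (by fun_prop)
    (PolyTime.cons (PolyTime.decide_eq (PolyTime.natMod (by fun_prop) (by fun_prop))
      (by fun_prop)) (by fun_prop)))

theorem wd_polyTime {α : Type} [Enc α] {n i : α → ℕ} (hn : PolyTime n) (hi : PolyTime i) :
    PolyTime (fun x => wd (n x) (i x)) := by
  obtain ⟨B, hB⟩ := Pool.Agent.TMB67.exists_sz_le (β := Bool)
  have h1 := hn.pbdd
  have h2 := hi.pbdd
  have h := PolyTime.iterate (f := wdStep) (n := n) (g := fun x => (i x, ([] : List Bool)))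
    wdStep_polyTime hn (by fun_prop) (s := fun x => sz (i x) + (sz (n x) * (B + 1) + 1) + 1)
    (by fun_prop) (fun x k hk => by
      have h3 := wdStep_iterate_le k (i x) []
      have h4 := wdStep_iterate k (i x) []
      have h5 : sz (wdStep^[k] (i x, [])) = sz (wdStep^[k] (i x, [])).1 +
        sz (wdStep^[k] (i x, [])).2 + 1 := sz_prod _
      have h6 : sz (wdStep^[k] (i x, [])).1 ≤ sz (i x) := by rw [sz_nat, sz_nat]; omega
      have h7 := sz_le_of_forall (l := (wdStep^[k] (i x, [])).2) (B := B) (fun b _ => hB b)
      have h8 : (wdStep^[k] (i x, [])).2.length = k := by rw [h4]; simp [length_wd]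
      have h9 : k ≤ sz (n x) := by rw [sz_nat]; omega
      have h10 := Nat.mul_le_mul_right (B + 1) h9
      rw [h8] at h7
      omega)
  refine (PolyTime.snd h).congr fun x => ?_
  rw [wdStep_iterate]
  rfl

end Pool.Agent.GEN42
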