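import Pool.Agent.GEN42.Look
import Pool.Agent.GEN42.Pad
import Pool.Agent.GEN42.Word

/-!
# Module GEN42/Cells

Regions, cells, and injective encodings of oracles.

PROOF. `cs_inj`: apply the decoder (`dc_enc`). `length_cs`: `bitEncode` of a pair is `delimit
(bitEncode a) ++ bitEncode b`, of a list the concatenation of delimited codes; every symbol gives at
least one symbol (`exists`/`length_bitEncode` lemmas in `TFR21/Pairs.lean` may help). `emb_inj` from
`pad_inj`. `cell_eq_some_iff` from `dc_enc`. `orc_*`: unfold, with `cell_eq_some_iff`, `dc_enc`.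
`orc_polyTime`: `PolyTime.ite`, `lk_polyTime`, `wd_polyTime`, `PolyTime.getD`, `idxOf` through
`find?`/`findIdx` (e.g. `τ.idxOf c` = number of elements before: length of `takeWhile`, or
`((List.range τ.length).find? fun j => τ.getD j [] = c).getD τ.length`).
-/

set_option autoImplicit false

namespace Pool.Agent.GEN42

open Pool.Agent.PT Pool.Agent.TMB67 Pool.Agent.POpt67 Pool.Agent.POpt70 Pool.Agent.ROr14
open Pool.Agent.TO42
open N68a2faeb N793a5b8e N487b59b3

/-- The decoder of `α`. -/
noncomputable def dc (α : Type) [N487b59b3 α] [Enc α] [Compat α] : List Bool → α :=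
  Classical.choose (Compat.dec (α := α))

theorem dc_polyTime (α : Type) [N487b59b3 α] [Enc α] [Compat α] : PolyTime (dc α) :=
  (Classical.choose_spec (Compat.dec (α := α))).1

@[simp] theorem dc_enc {α : Type} [N487b59b3 α] [Enc α] [Compat α] (x : α) :
    dc α (bitEncode x) = x :=
  (Classical.choose_spec (Compat.dec (α := α))).2 x

theorem bitEncode_inj {α : Type} [N487b59b3 α] [Enc α] [Compat α] {x y : α}
    (h : (bitEncode x : List Bool) = bitEncode y) : x = y := by
  rw [← dc_enc x, h, dc_enc]

private theorem le_length_bitEncode (l : List Bool) :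
    l.length ≤ (bitEncode l : List Bool).length := by
  change l.length ≤ (((l.map bitEncode).map delimit).flatten).length
  have := length_le_length_flatten_delimit (l.map bitEncode)
  simpa using this

/-- The string with number `κ` of the cell `c` in the region of `ξ`. -/
def cs (ξ : List Bool × List Bool) (c κ : List Bool) : List Bool := bitEncode (ξ, (c, κ))

theorem cs_inj {ξ ξ' : List Bool × List Bool} {c c' κ κ' : List Bool}
    (h : cs ξ c κ = cs ξ' c' κ') : ξ = ξ' ∧ c = c' ∧ κ = κ' := by
  have h1 := bitEncode_inj (α := (List Bool × List Bool) × (List Bool × List Bool)) h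
  simp only [Prod.mk.injEq] at h1
  exact ⟨h1.1, h1.2.1, h1.2.2⟩

theorem length_cs (ξ : List Bool × List Bool) (c κ : List Bool) :
    ξ.2.length ≤ (cs ξ c κ).length := by
  have h1 : (cs ξ c κ).length =
      2 * (bitEncode ξ : List Bool).length + 1 + (bitEncode (c, κ) : List Bool).length := by
    change (delimit (bitEncode ξ) ++ bitEncode (c, κ)).length = _
    rw [List.length_append, length_delimit]
  have h2 : (bitEncode ξ : List Bool).length =
      2 * (bitEncode ξ.1 : List Bool).length + 1 + (bitEncode ξ.2 : List Bool).length := by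
    change (delimit (bitEncode ξ.1) ++ bitEncode ξ.2).length = _
    rw [List.length_append, length_delimit]
  have h3 := le_length_bitEncode ξ.2
  omega

theorem cs_polyTime {α : Type} [Enc α] {ξ : α → List Bool × List Bool} {c κ : α → List Bool}
    (hξ : PolyTime ξ) (hc : PolyTime c) (hκ : PolyTime κ) :
    PolyTime (fun x => cs (ξ x) (c x) (κ x)) :=
  (Compat.enc (α := (List Bool × List Bool) × (List Bool × List Bool))).comp
    (PolyTime.pair hξ (PolyTime.pair hc hκ))

/-- The pointer of the cell `c`. -/
def ptr (Y : List Bool → Bool) (ξ : List Bool × List Bool) (M : ℕ) (c : List Bool) :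
    List Bool :=
  (List.range M).map fun j => Y (cs ξ c (List.replicate j true))

/-- The value of the cell `c`. -/
def shr (Y : List Bool → Bool) (ξ : List Bool × List Bool) (M : ℕ) (c : List Bool) : Bool :=
  Y (cs ξ c (List.replicate M true))

/-- The pointer that stands for the string `u`. -/
def emb (M : ℕ) (u : List Bool) : List Bool := true :: pad (M - 2) u

/-- The dummy pointers. -/
def dum (M i : ℕ) : List Bool := false :: wd (M - 1) i

theorem length_emb {M : ℕ} {u : List Bool} (h : u.length + 2 ≤ M) : (emb M u).length = M := by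
  rw [emb, List.length_cons, length_pad (by omega)]
  omega

theorem emb_inj {M : ℕ} {u u' : List Bool} (h : emb M u = emb M u') : u = u' :=
  pad_inj (List.cons_inj_right true |>.1 h)

theorem length_dum {M : ℕ} (hM : 0 < M) (i : ℕ) : (dum M i).length = M := by
  rw [dum, List.length_cons, length_wd]
  omega

theorem dum_inj {M i j : ℕ} (hi : i < 2 ^ (M - 1)) (hj : j < 2 ^ (M - 1))
    (h : dum M i = dum M j) : i = j :=
  wd_inj hi hj (List.cons_inj_right false |>.1 h)

theorem emb_ne_dum (M i : ℕ) (u : List Bool) : emb M u ≠ dum M i := by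
  simp [emb, dum]

/-- `Y` encodes `Z` injectively in the region of `ξ`. -/
def Encodes (Y : List Bool → Bool) (ξ : List Bool × List Bool) (M : ℕ)
    (Z : List Bool → Bool) : Prop :=
  (∀ c c' : List Bool, c.length = M → c'.length = M → ptr Y ξ M c = ptr Y ξ M c' → c = c') ∧
    ∀ c u : List Bool, c.length = M → ptr Y ξ M c = emb M u → shr Y ξ M c = Z u

/-- The code length of the region of `ξ`. -/
noncomputable def mx (N : Polynomial ℕ) (ξ : List Bool × List Bool) : ℕ :=
  N.eval ξ.1.length + ξ.2.length + 3

theorem mx_polyTime {α : Type} [Enc α] (N : Polynomial ℕ) {ξ : α → List Bool × List Bool}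
    (hξ : PolyTime ξ) : PolyTime (fun x => mx N (ξ x)) := by
  unfold mx
  exact ((polyEval_length N (PolyTime.fst hξ)).natAdd (PolyTime.snd hξ).length).natAdd
    (PolyTime.const 3)

/-- The parts of a string `cs ξ c κ`. -/
noncomputable abbrev parts (z : List Bool) : (List Bool × List Bool) × (List Bool × List Bool) :=
  dc ((List Bool × List Bool) × (List Bool × List Bool)) z

/-- The cell of the region of `ξ` to which the string `z` belongs. -/
noncomputable def cell (M : ℕ) (ξ : List Bool × List Bool) (z : List Bool) :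
    Option (List Bool) :=
  if bitEncode (parts z) = z ∧ (parts z).1 = ξ ∧ (parts z).2.1.length = M then
    some (parts z).2.1 else none

theorem cell_eq_some_iff {M : ℕ} {ξ : List Bool × List Bool} {z c : List Bool} :
    cell M ξ z = some c ↔ c.length = M ∧ ∃ κ, z = cs ξ c κ := by
  unfold cell
  constructor
  · intro h
    split_ifs at h with h1
    obtain ⟨h1, h2, h3⟩ := h1
    have hc : (parts z).2.1 = c := Option.some_inj.1 h
    refine ⟨hc ▸ h3, (parts z).2.2, ?_⟩
    have h4 : ((ξ, (c, (parts z).2.2)) : (List Bool × List Bool) × (List Bool × List Bool)) =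
        parts z := by
      rw [← h2, ← hc]
    rw [cs, h4, h1]
  · rintro ⟨hM, κ, rfl⟩
    have h1 : parts (cs ξ c κ) = (ξ, (c, κ)) := dc_enc _
    rw [h1]
    rw [if_pos ⟨rfl, rfl, hM⟩]

theorem cell_polyTime {α : Type} [Enc α] {M : α → ℕ} {ξ : α → List Bool × List Bool}
    {z : α → List Bool} (hM : PolyTime M) (hξ : PolyTime ξ) (hz : PolyTime z) :
    PolyTime (fun x => cell (M x) (ξ x) (z x)) := by
  unfold cell
  have hp : PolyTime (fun x => parts (z x)) := (dc_polyTime _).comp hz
  refine PolyTime.ite ?_ (PolyTime.some (PolyTime.fst (PolyTime.snd hp))) (PolyTime.const none)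
  exact PolyTime.decide_and (PolyTime.decide_eq ((Compat.enc
    (α := (List Bool × List Bool) × (List Bool × List Bool))).comp hp) hz)
    (PolyTime.decide_and (PolyTime.decide_eq (PolyTime.fst hp) hξ)
      (PolyTime.decide_eq (PolyTime.fst (PolyTime.snd hp)).length hM))

/-- The oracle with short part `s`, with dummy pointers in the cells `τ` of the region of `ξ`, and
with the table `σ` elsewhere. -/
noncomputable def orc (s : List (List Bool × Bool)) (m M : ℕ) (ξ : List Bool × List Bool)
    (σ : List (List Bool × Bool)) (τ : List (List Bool)) (z : List Bool) : Bool :=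
  if z.length ≤ m then lk s z
  else if (cell M ξ z).isSome = true ∧ (parts z).2.1 ∈ τ then
    (dum M (τ.idxOf (parts z).2.1)).getD (parts z).2.2.length false
  else lk σ z

section

variable {s σ : List (List Bool × Bool)} {m M : ℕ} {ξ : List Bool × List Bool}
  {τ τ' : List (List Bool)} {z c : List Bool}

theorem orc_short (h : z.length ≤ m) : orc s m M ξ σ τ z = lk s z := if_pos h

theorem orc_cell (h : m < (cs ξ c z).length) (hc : c.length = M) (hτ : c ∈ τ) :
    orc s m M ξ σ τ (cs ξ c z) = (dum M (τ.idxOf c)).getD z.length false := by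
  have h1 : parts (cs ξ c z) = (ξ, (c, z)) := dc_enc _
  have h2 : cell M ξ (cs ξ c z) = some c := cell_eq_some_iff.2 ⟨hc, z, rfl⟩
  unfold orc
  rw [if_neg (by omega), h1, h2, if_pos ⟨rfl, hτ⟩]

theorem orc_none (h : m < z.length) (hz : cell M ξ z = none) :
    orc s m M ξ σ τ z = lk σ z := by
  unfold orc
  rw [if_neg (by omega), hz, if_neg (by simp)]

theorem orc_indep (hz : cell M ξ z = none) : orc s m M ξ σ τ z = orc s m M ξ σ τ' z := by
  unfold orc
  rw [hz]
  simp

theorem orc_append (hz : cell M ξ z = some c) (hc : c ∈ τ) :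
    orc s m M ξ σ (τ ++ τ') z = orc s m M ξ σ τ z := by
  obtain ⟨-, κ, rfl⟩ := cell_eq_some_iff.1 hz
  have h1 : parts (cs ξ c κ) = (ξ, (c, κ)) := dc_enc _
  unfold orc
  rw [h1, hz, if_pos (c := (some c).isSome = true ∧ c ∈ τ ++ τ')
    ⟨rfl, List.mem_append_left _ hc⟩, if_pos (c := (some c).isSome = true ∧ c ∈ τ) ⟨rfl, hc⟩,
    List.idxOf_append_of_mem hc]

end

private theorem idxOf_polyTime {α : Type} [Enc α] {τ : α → List (List Bool)}
    {c : α → List Bool} (hτ : PolyTime τ) (hc : PolyTime c) :
    PolyTime (fun x => (τ x).idxOf (c x)) := by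
  have h := PolyTime.foldr_add (l := τ) (g := fun x b (r : ℕ) => if b = c x then 0 else r + 1)
    (y := fun _ => 0) hτ (by
      refine PolyTime.ite (PolyTime.decide_eq ?_ ?_) (PolyTime.const 0) (PolyTime.succ ?_)
      · exact PolyTime.fst PolyTime.snd'
      · exact hc.comp PolyTime.fst'
      · exact PolyTime.snd PolyTime.snd') (PolyTime.const 0) (s := fun _ => 2) (by fun_prop)
    (fun x b _ r => by
      split_ifs
      · simp only [sz_nat]; omega
      · simp only [sz_nat]; omega)
  refine h.congr fun x => ?_
  induction τ x with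
  | nil => rfl
  | cons b l ih =>
    rw [List.idxOf_cons, List.foldr_cons, ← ih]
    by_cases hb : b = c x
    · simp [hb]
    · rw [if_neg hb, beq_eq_false_iff_ne.2 hb, cond_false]

theorem orc_polyTime {α : Type} [Enc α] (s : List (List Bool × Bool)) (m : ℕ) {M : α → ℕ}
    {ξ : α → List Bool × List Bool} {σ : α → List (List Bool × Bool)}
    {τ : α → List (List Bool)} {z : α → List Bool} (hM : PolyTime M) (hξ : PolyTime ξ)
    (hσ : PolyTime σ) (hτ : PolyTime τ) (hz : PolyTime z) :
    PolyTime (fun x => orc s m (M x) (ξ x) (σ x) (τ x) (z x)) := by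
  unfold orc
  have hp : PolyTime (fun x => parts (z x)) := (dc_polyTime _).comp hz
  refine PolyTime.ite (PolyTime.decide_le hz.length (PolyTime.const m))
    (lk_polyTime (PolyTime.const s) hz) (PolyTime.ite ?_ ?_ (lk_polyTime hσ hz))
  · exact PolyTime.decide_and (PolyTime.decide_eq_true (cell_polyTime hM hξ hz).isSome)
      ((PolyTime.decide_mem (PolyTime.fst (PolyTime.snd hp)) hτ).congr fun x => by
        exact decide_eq_decide.2 Iff.rfl)
  · refine PolyTime.getD ?_ (PolyTime.snd (PolyTime.snd hp)).length (PolyTime.const false)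
    unfold dum
    exact PolyTime.cons (PolyTime.const false) (wd_polyTime (hM.natSub (PolyTime.const 1))
      (idxOf_polyTime hτ (PolyTime.fst (PolyTime.snd hp))))

end Pool.Agent.GEN42
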