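import Pool.Agent.GEN42.Aug

/-!
# Module GEN42/Labs

Only finitely many labels occur.

PROOF. `ls` = a list of the elements of the finite set `allLabs r = insert [] (labs r [])`
(PT/Compile, `labs_finite`). Closure under `astep`: by induction on `c`, for all `r`, if
`l ∈ labs c r` then `(astep w (l, S)).1 ∈ labs c r` or `= r` (use `self_mem_labs`); e.g. for `seq p q`:
`labs = {seq p q :: r} ∪ labs p (q :: r) ∪ labs q r`, and `q :: r ∈ labs q r`. The label `[]` is fixed.
-/

set_option autoImplicit false

namespace Pool.Agent.GEN42

open Pool.Agent.PT Pool.Agent.TMB67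

private theorem labs_astep (c : Cmd) : ∀ (r l : List Cmd), l ∈ labs c r → ∀ w S,
    (astep w (l, S)).1 ∈ labs c r ∨ (astep w (l, S)).1 = r := by
  induction c with
  | skip =>
    intro r l hl w S
    simp only [labs, Set.mem_singleton_iff] at hl
    subst hl
    exact Or.inr rfl
  | push k b =>
    intro r l hl w S
    simp only [labs, Set.mem_singleton_iff] at hl
    subst hl
    exact Or.inr rfl
  | seq p q ihp ihq =>
    intro r l hl w S
    simp only [labs, Set.mem_insert_iff, Set.mem_union] at hl ⊢
    rcases hl with rfl | hl | hl
    · exact Or.inl (Or.inr (Or.inl (self_mem_labs p (q :: r))))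
    · rcases ihp (q :: r) l hl w S with h | h
      · exact Or.inl (Or.inr (Or.inl h))
      · rw [h]
        exact Or.inl (Or.inr (Or.inr (self_mem_labs q r)))
    · rcases ihq r l hl w S with h | h
      · exact Or.inl (Or.inr (Or.inr h))
      · exact Or.inr h
  | case k p q s ihp ihq ihs =>
    intro r l hl w S
    simp only [labs, Set.mem_insert_iff, Set.mem_union] at hl ⊢
    rcases hl with rfl | hl | hl | hl
    · rcases hS : S k with _ | ⟨e, t⟩
      · simp only [astep, hS]
        exact Or.inl (Or.inr (Or.inl (self_mem_labs p r)))
      · simp only [astep, hS]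
        cases e.2
        · exact Or.inl (Or.inr (Or.inr (Or.inl (self_mem_labs q r))))
        · exact Or.inl (Or.inr (Or.inr (Or.inr (self_mem_labs s r))))
    · rcases ihp r l hl w S with h | h
      · exact Or.inl (Or.inr (Or.inl h))
      · exact Or.inr h
    · rcases ihq r l hl w S with h | h
      · exact Or.inl (Or.inr (Or.inr (Or.inl h)))
      · exact Or.inr h
    · rcases ihs r l hl w S with h | h
      · exact Or.inl (Or.inr (Or.inr (Or.inr h)))
      · exact Or.inr h
  | loop k p ihp =>
    intro r l hl w S
    simp only [labs, Set.mem_insert_iff] at hl ⊢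
    rcases hl with rfl | hl
    · rcases hS : S k with _ | ⟨e, t⟩
      · simp only [astep, hS]
        exact Or.inr trivial
      · simp only [astep, hS]
        cases e.2
        · exact Or.inr rfl
        · exact Or.inl (Or.inr (self_mem_labs p _))
    · rcases ihp _ l hl w S with h | h
      · exact Or.inl (Or.inr h)
      · exact Or.inl (Or.inl h)

theorem exists_labels (r : Cmd) : ∃ ls : List (List Cmd), [r] ∈ ls ∧
    ∀ W s i, (rec4 W r s i).1 ∈ ls := by
  have hfin : (allLabs r).Finite := (labs_finite r []).insert _
  refine ⟨hfin.toFinset.toList, ?_, ?_⟩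
  · rw [Finset.mem_toList, Set.Finite.mem_toFinset]
    exact Or.inr (self_mem_labs r [])
  · intro W s i
    rw [Finset.mem_toList, Set.Finite.mem_toFinset]
    show (arun W r s i).1 ∈ allLabs r
    induction i with
    | zero => exact Or.inr (self_mem_labs r [])
    | succ i ih =>
      show (astep (wd W i) (arun W r s i)).1 ∈ allLabs r
      generalize arun W r s i = c at ih
      obtain ⟨l, S⟩ := c
      rcases ih with h | h
      · replace h : l = [] := h
        subst h
        exact Or.inl rfl
      · rcases labs_astep r [] l h (wd W i) S with h' | h'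
        · exact Or.inr h'
        · exact Or.inl h'

end Pool.Agent.GEN42
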