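import Pool.Agent.GEN42.Rec
import Pool.Agent.GEN42.AugPT
import Pool.Agent.GEN42.Labs

/-!
# Module GEN42/Check

The local check of a transcript.

PROOF. Let `ls` be from `exists_labels`, `P` from `exists_recBound`, `B x := P.eval (sz x + W x + 1)`
(`(code x).length = sz x`), `R x i := rec4 (W x) r (code x) i`, `g x Y v := drec ls (rd Y (B x) v)`.
CHECK `C X (x, v)`, with `Y` the right half of `X`, `ρ := g x Y v`: (0) `rd Y (B x) (List.replicate (W x)
false) = erec ls (B x) (R x 0)` (a polynomial-time string: label `[r]`, names `top (vst (code x))`), and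
(1) if `v.length = W x` and `v ≠ List.replicate (W x) true` then `rd Y (B x) (inc v) = erec ls (B x) (nextR v
ρ.1 ρ.2 (bts (code x) (g x Y) ρ.2) (nxs (code x) (g x Y) ρ.2))`. The functional is `UT`: `look (code x)
(g x Y) k s` needs one record `g x Y s.tail` (for the real case), the rest is polynomial time
(`codeLB_polyTime`, `PolyTime.ite`, `PolyTime.listCases`, label head by `unfoldC_polyTime`); four
such look-ups in parallel (`UT.pair`), then `nextR_polyTime`, `erec_polyTime`.
VALUE `a X x := (look (code x) (g x Y) .A (g x Y (List.replicate (W x) true)).2.a).1`.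
DETERMINATION: if all checks with `|v| ≤ W(x)` (`p` any polynomial with `W x ≤ p.eval |x|`) succeed then
`rd Y (B x) (wd (W x) i) = erec ls (B x) (R x i)` for all `i < 2 ^ W x`: strong induction, `i = 0` by (0)
(`wd_zero`), `i + 1` by (1) at `v = wd (W x) i` (`inc_wd`, `wd_last`, `wd_inj`) and `nextR_rec4` with
`Rf = g x Y` (`drec_erec`, `exists_labels`). Then `a` is computed from `R x (2 ^ W x - 1)` and
`look_spec`: it is the first bit of the first stack of `arun … (2 ^ W x - 1)`, `false` if that stack is
empty; use `arun_fgt`.
EXISTENCE: let `f v := erec ls (B x) (R x i)` if `v = wd (W x) i`, `i < 2 ^ W x` (well defined by `wd_inj`), and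
`List.replicate (B x + 1) false` otherwise; all have length `B x + 1` (`length_top_le`,
`exists_recBound`); `exists_oracle`. All checks hold by `nextR_rec4` (every `v` of length `W x` is
`wd (W x) i`, `exists_wd`).
-/

set_option autoImplicit false

namespace Pool.Agent.GEN42

open Pool.Agent.PT Pool.Agent.TMB67 Pool.Agent.POpt67 Pool.Agent.POpt70 Pool.Agent.ROr14
open Pool.Agent.TO42
open N68a2faeb N793a5b8e N487b59b3

/-- The bit of a push label. -/
private def chk_pb (l : List Cmd) : Bool :=
  List.casesOn (motive := fun _ => Bool) l false fun c _ =>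
    Sum.casesOn (motive := fun _ => Bool) (unfoldC c) (fun _ => false) fun z =>
      Sum.casesOn (motive := fun _ => Bool) z (fun kx => kx.2) fun _ => false

private theorem chk_pb_polyTime : PolyTime chk_pb := by
  unfold chk_pb
  refine PolyTime.listCases (l := fun s : List Cmd => s) (by fun_prop) (by fun_prop) ?_
  refine PolyTime.sumCases (unfoldC_polyTime.comp (by fun_prop)) (by fun_prop) ?_
  exact PolyTime.sumCases (by fun_prop) (by fun_prop) (by fun_prop)

private theorem chk_pb_eq (l : List Cmd) : chk_pb l = (match l with
      | .push _ b :: _ => b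
      | _ => false) := by
  rcases l with _ | ⟨c, l⟩
  · rfl
  · cases c <;> rfl

/-- `look` as a function of the record that is needed. -/
private def chk_lk (k : Stk) (q : (List Bool × List Bool) × (List Cmd × St)) :
    Bool × List Bool :=
  List.casesOn (motive := fun _ => Bool × List Bool) q.1.2 (false, []) fun b v =>
    bif b then (chk_pb q.2.1, q.2.2.get k) else
      ((code q.1.1).getD ((code q.1.1).length - v.length) false,
        if v.length ≤ 1 then [] else false :: List.replicate (v.length - 1) true)

private theorem chk_lk_polyTime (k : Stk) : PolyTime (chk_lk k) := by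
  unfold chk_lk
  refine PolyTime.listCases (l := fun q : (List Bool × List Bool) × (List Cmd × St) => q.1.2)
    (by fun_prop) (by fun_prop) ?_
  refine PolyTime.cond (by fun_prop) ?_ ?_
  · refine PolyTime.pair (chk_pb_polyTime.comp (by fun_prop)) ?_
    exact St_get_polyTime (PolyTime.snd (PolyTime.snd PolyTime.fst')) (PolyTime.const k)
  · have hc : PolyTime (fun p : ((List Bool × List Bool) × (List Cmd × St)) ×
        (Bool × List Bool) => code p.1.1.1) :=
      codeLB_polyTime.comp (PolyTime.fst (PolyTime.fst PolyTime.fst'))
    have hv : PolyTime (fun p : ((List Bool × List Bool) × (List Cmd × St)) ×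
        (Bool × List Bool) => p.2.2.length) := PolyTime.length (PolyTime.snd PolyTime.snd')
    refine PolyTime.pair (PolyTime.getD hc (hc.length.natSub hv) (PolyTime.const false)) ?_
    refine PolyTime.ite (PolyTime.decide_le hv (PolyTime.const 1)) (PolyTime.const []) ?_
    exact PolyTime.cons (PolyTime.const false)
      (PolyTime.replicate (hv.natSub (PolyTime.const 1)) (PolyTime.const true))

private theorem chk_lk_eq (k : Stk) (x s : List Bool) (Rf : List Bool → List Cmd × St) :
    look (code x) Rf k s = chk_lk k ((x, s), Rf s.tail) := by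
  rcases s with _ | ⟨b, s⟩
  · rfl
  · cases b
    · rfl
    · change ((match (Rf s).1 with
        | .push _ b :: _ => b
        | _ => false), (Rf s).2.get k) = (chk_pb (Rf s).1, (Rf s).2.get k)
      rw [chk_pb_eq]

private theorem chk_top_vst (s : List Bool) :
    top (vst s) = if s = [] then [] else false :: List.replicate s.length true := by
  cases s <;> rfl

section

variable (ls : List (List Cmd)) (B : List Bool → ℕ)

/-- The record with name `z.2` in the transcript for `z.1`. -/
private noncomputable def chk_g (X : List Bool → Bool) (z : List Bool × List Bool) :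
    List Cmd × St := drec ls (rd (fun u => X (true :: u)) (B z.1) z.2)

/-- The look-up. -/
private noncomputable def chk_look (k : Stk) (X : List Bool → Bool)
    (z : List Bool × List Bool) : Bool × List Bool :=
  look (code z.1) (fun v => chk_g ls B X (z.1, v)) k z.2

/-- Four look-ups. -/
private noncomputable def chk_four (X : List Bool → Bool) (z : List Bool × St) :
    ((Bool × List Bool) × (Bool × List Bool)) × ((Bool × List Bool) × (Bool × List Bool)) :=
  ((chk_look ls B .A X (z.1, z.2.a), chk_look ls B .B X (z.1, z.2.b)),
    (chk_look ls B .C X (z.1, z.2.c), chk_look ls B .D X (z.1, z.2.d)))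

/-- The next record. -/
private noncomputable def chk_next (X : List Bool → Bool) (z : List Bool × List Bool) :
    List Cmd × St :=
  nextR z.2 (chk_g ls B X z).1 (chk_g ls B X z).2
    (bts (code z.1) (fun v => chk_g ls B X (z.1, v)) (chk_g ls B X z).2)
    (nxs (code z.1) (fun v => chk_g ls B X (z.1, v)) (chk_g ls B X z).2)

variable {ls B}

private theorem chk_g_UT (hB : PolyTime B) : UT (chk_g ls B) := by
  have h1 : UT (fun X (z : List Bool × List Bool) => rd (fun u => X (true :: u)) (B z.1) z.2) :=
    rd_UT.pre (g := fun z : List Bool × List Bool => (B z.1, z.2))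
      (PolyTime.pair (hB.comp PolyTime.fst') PolyTime.snd')
  exact h1.post (g := drec ls) (drec_polyTime ls)

private theorem chk_look_UT (hB : PolyTime B) (k : Stk) : UT (chk_look ls B k) := by
  have h1 : UT (fun X (z : List Bool × List Bool) => (z, chk_g ls B X (z.1, z.2.tail))) :=
    (UT.of (PolyTime.id (α := List Bool × List Bool))).pair
      ((chk_g_UT hB).pre (g := fun z : List Bool × List Bool => (z.1, z.2.tail))
        (PolyTime.pair PolyTime.fst' (PolyTime.tail PolyTime.snd')))
  refine (h1.post (g := chk_lk k) (chk_lk_polyTime k)).congr fun X z => ?_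
  exact chk_lk_eq k z.1 z.2 _

private theorem chk_four_UT (hB : PolyTime B) : UT (chk_four ls B) := by
  refine UT.pair (UT.pair ?_ ?_) (UT.pair ?_ ?_)
  · exact (chk_look_UT hB .A).pre (g := fun z : List Bool × St => (z.1, z.2.a))
      (PolyTime.pair PolyTime.fst' (St_a_polyTime PolyTime.snd'))
  · exact (chk_look_UT hB .B).pre (g := fun z : List Bool × St => (z.1, z.2.b))
      (PolyTime.pair PolyTime.fst' (St_b_polyTime PolyTime.snd'))
  · exact (chk_look_UT hB .C).pre (g := fun z : List Bool × St => (z.1, z.2.c))
      (PolyTime.pair PolyTime.fst' (St_c_polyTime PolyTime.snd'))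
  · exact (chk_look_UT hB .D).pre (g := fun z : List Bool × St => (z.1, z.2.d))
      (PolyTime.pair PolyTime.fst' (St_d_polyTime PolyTime.snd'))

/-- The arguments of `nextR`. -/
private def chk_arg (y : (List Bool × List Bool) × ((List Cmd × St) ×
    (((Bool × List Bool) × (Bool × List Bool)) × ((Bool × List Bool) × (Bool × List Bool))))) :
    (List Bool × (List Cmd × St)) × (St × St) :=
  ((y.1.2, y.2.1), (⟨[y.2.2.1.1.1], [y.2.2.1.2.1], [y.2.2.2.1.1], [y.2.2.2.2.1]⟩,
    ⟨y.2.2.1.1.2, y.2.2.1.2.2, y.2.2.2.1.2, y.2.2.2.2.2⟩))

private theorem chk_arg_polyTime : PolyTime chk_arg := by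
  unfold chk_arg
  refine PolyTime.pair (by fun_prop) (PolyTime.pair (St_mk_polyTime ?_ ?_ ?_ ?_)
    (St_mk_polyTime ?_ ?_ ?_ ?_)) <;> fun_prop

private theorem chk_next_UT (hB : PolyTime B) : UT (chk_next ls B) := by
  have h1 : UT (fun X (z : List Bool × List Bool) =>
      chk_four ls B X (z.1, (chk_g ls B X z).2)) :=
    (chk_four_UT hB).comp ((UT.of (PolyTime.fst' (α := List Bool) (β := List Bool))).pair
      ((chk_g_UT hB).post (g := fun ρ : List Cmd × St => ρ.2) PolyTime.snd'))
  have h2 : UT (fun X (z : List Bool × List Bool) =>
      (z, (chk_g ls B X z, chk_four ls B X (z.1, (chk_g ls B X z).2)))) :=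
    (UT.of (PolyTime.id (α := List Bool × List Bool))).pair ((chk_g_UT hB).pair h1)
  exact ((h2.post (g := chk_arg) chk_arg_polyTime).post
    (g := fun q : (List Bool × (List Cmd × St)) × (St × St) =>
      nextR q.1.1 q.1.2.1 q.1.2.2 q.2.1 q.2.2) nextR_polyTime).congr fun X z => rfl

end

private theorem chk_next_eq {ls : List (List Cmd)} {B : List Bool → ℕ} {r : Cmd}
    (hls : ∀ W s i, (rec4 W r s i).1 ∈ ls) {W : ℕ} {x : List Bool} {A Y : List Bool → Bool}
    {i : ℕ} (h : ∀ j ≤ i, rd Y (B x) (wd W j) = erec ls (B x) (rec4 W r (code x) j)) :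
    (∀ j ≤ i, chk_g ls B (join A Y) (x, wd W j) = rec4 W r (code x) j) ∧
    chk_next ls B (join A Y) (x, wd W i) = rec4 W r (code x) (i + 1) := by
  have h1 : ∀ j ≤ i, chk_g ls B (join A Y) (x, wd W j) = rec4 W r (code x) j := by
    intro j hj
    change drec ls (rd Y (B x) (wd W j)) = _
    rw [h j hj, drec_erec (hls _ _ _)]
  refine ⟨h1, ?_⟩
  have h2 := nextR_rec4 (W := W) (r := r) (s := code x) (i := i)
    (Rf := fun v => chk_g ls B (join A Y) (x, v)) (fun j hj => h1 j hj.le)
  unfold chk_next
  rw [h1 i le_rfl]
  exact h2

theorem exists_check (r : Cmd) {W : List Bool → ℕ} (hW : PolyTime W) :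
    ∃ (p : Polynomial ℕ) (C : (List Bool → Bool) → List Bool × List Bool → Bool)
      (a : (List Bool → Bool) → List Bool → Bool), UT C ∧ UT a ∧ ∀ x : List Bool,
        (∃ Y : List Bool → Bool, ∀ A v, C (join A Y) (x, v) = true) ∧
        ∀ A Y : List Bool → Bool,
          (∀ v : List Bool, v.length ≤ p.eval x.length → C (join A Y) (x, v) = true) →
          a (join A Y) x =
            (stepC^[2 ^ W x - 1] ([r], ⟨code x, [], [], []⟩)).2.a.headD false := by
  classical
  obtain ⟨ls, -, hls⟩ := exists_labels r
  obtain ⟨P, hP⟩ := exists_recBound ls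
  set B : List Bool → ℕ := fun x => P.eval (sz x + W x + 1) with hBdef
  have hB : PolyTime B := by
    rw [hBdef]
    exact polyEval_polyTime (((PolyTime.size PolyTime.id).natAdd hW).succ) P
  obtain ⟨p, hp⟩ := exists_length_bound (s := W) (hW.pbdd.of_le fun x => by rw [sz_nat]; omega)
  have hlen : ∀ x i, (erec ls (B x) (rec4 (W x) r (code x) i)).length = B x + 1 := by
    intro x i
    refine hP (sz x + W x + 1) (B x) _ (fun k => ?_) le_rfl
    exact length_top_le (W x) r (code x) i k
  -- the functionals
  set c0 : (List Bool → Bool) → List Bool × List Bool → Bool := fun X z =>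
    decide (rd (fun u => X (true :: u)) (B z.1) (List.replicate (W z.1) false) =
      erec ls (B z.1) (rec4 (W z.1) r (code z.1) 0)) with hc0
  set c1 : (List Bool → Bool) → List Bool × List Bool → Bool := fun X z =>
    if z.2.length = W z.1 ∧ z.2 ≠ List.replicate (W z.1) true then
      decide (rd (fun u => X (true :: u)) (B z.1) (inc z.2) =
        erec ls (B z.1) (chk_next ls B X z)) else true with hc1
  have hWz : PolyTime (fun z : List Bool × List Bool => W z.1) := hW.comp PolyTime.fst'
  have hBz : PolyTime (fun z : List Bool × List Bool => B z.1) := hB.comp PolyTime.fst'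
  have hR0 : PolyTime (fun x : List Bool => rec4 (W x) r (code x) 0) := by
    have h1 : PolyTime (fun x : List Bool => (([r] : List Cmd), (⟨if code x = [] then [] else
        false :: List.replicate (code x).length true, [], [], []⟩ : St))) := by
      refine PolyTime.pair (PolyTime.const _) (St_mk_polyTime ?_ (PolyTime.const _)
        (PolyTime.const _) (PolyTime.const _))
      refine PolyTime.ite (PolyTime.decide_eq codeLB_polyTime (PolyTime.const _))
        (PolyTime.const _) ?_
      exact PolyTime.cons (PolyTime.const false)
        (PolyTime.replicate codeLB_polyTime.length (PolyTime.const true))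
    refine h1.congr fun x => ?_
    rw [← chk_top_vst]
    rfl
  have hc0U : UT c0 := by
    have h1 : UT (fun X (z : List Bool × List Bool) =>
        rd (fun u => X (true :: u)) (B z.1) (List.replicate (W z.1) false)) :=
      rd_UT.pre (g := fun z : List Bool × List Bool => (B z.1, List.replicate (W z.1) false))
        (PolyTime.pair hBz (PolyTime.replicate hWz (PolyTime.const false)))
    have h2 : UT (fun (_ : List Bool → Bool) (z : List Bool × List Bool) =>
        erec ls (B z.1) (rec4 (W z.1) r (code z.1) 0)) :=
      UT.of (erec_polyTime ls hBz (hR0.comp PolyTime.fst'))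
    exact (h1.pair h2).post (g := fun y : List Bool × List Bool => decide (y.1 = y.2))
      (PolyTime.decide_eq PolyTime.fst' PolyTime.snd')
  have hc1U : UT c1 := by
    have h1 : UT (fun X (z : List Bool × List Bool) =>
        rd (fun u => X (true :: u)) (B z.1) (inc z.2)) :=
      rd_UT.pre (g := fun z : List Bool × List Bool => (B z.1, inc z.2))
        (PolyTime.pair hBz (inc_polyTime.comp PolyTime.snd'))
    have h2 : UT (fun X (z : List Bool × List Bool) => erec ls (B z.1) (chk_next ls B X z)) :=
      ((UT.of hBz).pair (chk_next_UT hB)).post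
        (g := fun y : ℕ × (List Cmd × St) => erec ls y.1 y.2)
        (erec_polyTime ls PolyTime.fst' PolyTime.snd')
    have h3 : UT (fun X (z : List Bool × List Bool) =>
        decide (rd (fun u => X (true :: u)) (B z.1) (inc z.2) =
          erec ls (B z.1) (chk_next ls B X z))) :=
      (h1.pair h2).post (g := fun y : List Bool × List Bool => decide (y.1 = y.2))
        (PolyTime.decide_eq PolyTime.fst' PolyTime.snd')
    refine UT.ite (P := fun z : List Bool × List Bool =>
      z.2.length = W z.1 ∧ z.2 ≠ List.replicate (W z.1) true) ?_ h3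
      (UT.of (PolyTime.const true))
    exact PolyTime.decide_and (PolyTime.decide_eq (PolyTime.length PolyTime.snd') hWz)
      (PolyTime.decide_not (PolyTime.decide_eq PolyTime.snd'
        (PolyTime.replicate hWz (PolyTime.const true))))
  set a : (List Bool → Bool) → List Bool → Bool := fun X x =>
    (chk_look ls B .A X (x, (chk_g ls B X (x, List.replicate (W x) true)).2.a)).1 with ha
  have haU : UT a := by
    have h1 : UT (fun X (x : List Bool) => chk_g ls B X (x, List.replicate (W x) true)) :=
      (chk_g_UT hB).pre (g := fun x : List Bool => (x, List.replicate (W x) true))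
        (PolyTime.pair PolyTime.id (PolyTime.replicate hW (PolyTime.const true)))
    have h2 : UT (fun X (x : List Bool) =>
        (x, (chk_g ls B X (x, List.replicate (W x) true)).2.a)) :=
      (UT.of (PolyTime.id (α := List Bool))).pair
        (h1.post (g := fun ρ : List Cmd × St => ρ.2.a) (St_a_polyTime PolyTime.snd'))
    exact ((chk_look_UT hB .A).comp h2).post (g := fun y : Bool × List Bool => y.1)
      PolyTime.fst'
  refine ⟨p, fun X z => c0 X z && c1 X z, a, (hc0U.pair hc1U).post
    (g := fun t : Bool × Bool => t.1 && t.2) (PolyTime.and PolyTime.fst' PolyTime.snd'),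
    haU, fun x => ⟨?_, fun A Y h => ?_⟩⟩
  · -- existence
    set f : List Bool → List Bool := fun w =>
      if h : ∃ i, i < 2 ^ W x ∧ w = wd (W x) i then
        erec ls (B x) (rec4 (W x) r (code x) (Classical.choose h))
      else List.replicate (B x + 1) false with hf
    have hfl : ∀ w, (f w).length = B x + 1 := by
      intro w
      rw [hf]
      by_cases h : ∃ i, i < 2 ^ W x ∧ w = wd (W x) i
      · simp only [dif_pos h]
        exact hlen x _
      · simp only [dif_neg h, List.length_replicate]
    obtain ⟨Y, hY⟩ := exists_oracle (B x) f hfl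
    have hYi : ∀ i, i < 2 ^ W x → rd Y (B x) (wd (W x) i) =
        erec ls (B x) (rec4 (W x) r (code x) i) := by
      intro i hi
      have h : ∃ j, j < 2 ^ W x ∧ wd (W x) i = wd (W x) j := ⟨i, hi, rfl⟩
      rw [hY, hf]
      simp only [dif_pos h]
      have h1 := Classical.choose_spec h
      exact congrArg (fun j => erec ls (B x) (rec4 (W x) r (code x) j))
        (wd_inj hi h1.1 h1.2).symm
    refine ⟨Y, fun A v => ?_⟩
    rw [Bool.and_eq_true]
    constructor
    · rw [hc0]
      refine decide_eq_true ?_
      have h1 := hYi 0 (by positivity)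
      rw [wd_zero] at h1
      exact h1
    · rw [hc1]
      beta_reduce
      by_cases hv : v.length = W x ∧ v ≠ List.replicate (W x) true
      · rw [if_pos hv]
        refine decide_eq_true ?_
        obtain ⟨i, hi, hvi⟩ := exists_wd v
        rw [hv.1] at hi hvi
        have hi2 : i + 1 < 2 ^ W x := by
          by_contra hcon
          have : i = 2 ^ W x - 1 := by omega
          exact hv.2 (by rw [hvi, this, wd_last])
        have h1 := (chk_next_eq (A := A) hls (fun j hj => hYi j (by omega)) (i := i)).2
        change rd Y (B x) (inc v) = erec ls (B x) (chk_next ls B (join A Y) (x, v))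
        rw [hvi, h1, inc_wd hi2]
        exact hYi _ hi2
      · rw [if_neg hv]
  · -- determination
    have hC : ∀ v : List Bool, v.length ≤ p.eval x.length →
        c0 (join A Y) (x, v) = true ∧ c1 (join A Y) (x, v) = true := by
      intro v hv
      have := h v hv
      rwa [Bool.and_eq_true] at this
    have key : ∀ i, i < 2 ^ W x → ∀ j ≤ i, rd Y (B x) (wd (W x) j) =
        erec ls (B x) (rec4 (W x) r (code x) j) := by
      intro i
      induction i with
      | zero =>
        intro _ j hj
        have hj0 : j = 0 := by omega
        subst hj0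
        have h1 := (hC [] (Nat.zero_le _)).1
        rw [hc0] at h1
        have h2 := of_decide_eq_true h1
        rw [wd_zero]
        exact h2
      | succ i ih =>
        intro hi j hj
        have ih1 := ih (by omega)
        rcases Nat.lt_or_ge j (i + 1) with hj1 | hj1
        · exact ih1 j (by omega)
        · have hj2 : j = i + 1 := by omega
          subst hj2
          have h1 := (hC (wd (W x) i) (by rw [length_wd]; exact hp x)).2
          rw [hc1] at h1
          beta_reduce at h1
          rw [if_pos] at h1
          · have h2 := of_decide_eq_true h1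
            have h3 := (chk_next_eq (A := A) hls ih1).2
            change rd Y (B x) (inc (wd (W x) i)) =
              erec ls (B x) (chk_next ls B (join A Y) (x, wd (W x) i)) at h2
            rw [h3, inc_wd hi] at h2
            exact h2
          · refine ⟨length_wd _ _, fun h2 => ?_⟩
            change wd (W x) i = List.replicate (W x) true at h2
            rw [← wd_last] at h2
            have := wd_inj (by omega) (Nat.sub_lt (by positivity) one_pos) h2
            omega
    have hpos : 0 < 2 ^ W x := by positivity
    have h1 := key (2 ^ W x - 1) (by omega)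
    have h2 := (chk_next_eq (A := A) hls h1).1
    have h3 := h2 (2 ^ W x - 1) le_rfl
    rw [wd_last] at h3
    rw [← arun_fgt (W x) r (code x) (2 ^ W x - 1), ha]
    beta_reduce
    rw [h3]
    change (look (code x) (fun v => chk_g ls B (join A Y) (x, v)) .A
      (top ((arun (W x) r (code x) (2 ^ W x - 1)).2 .A))).1 =
      (((arun (W x) r (code x) (2 ^ W x - 1)).2 .A).map Prod.snd).headD false
    rcases hst : (arun (W x) r (code x) (2 ^ W x - 1)).2 .A with _ | ⟨e, t⟩
    · rfl
    · have h4 := look_spec (W := W x) (r := r) (s := code x) (i := 2 ^ W x - 1)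
        (Rf := fun v => chk_g ls B (join A Y) (x, v)) (fun j hj => h2 j hj.le) .A hst
      change (look (code x) (fun v => chk_g ls B (join A Y) (x, v)) .A e.1).1 = e.2
      rw [h4]

end Pool.Agent.GEN42
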