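import Pool.Agent.GEN42.Unif

/-!
# Module GEN42/Sys

Sound functions and proof systems.

PROOF. `sim_all`: `Q (true :: u) = S u`, `Q (b :: u) = P (u)` otherwise (`Q u = if u.headD false = true
then S u.tail else P u.tail`, with `UT.ite` and `exists_UT`; it is onto `L` because `P` is) is a proof
system; compose the simulation with `u ↦ true :: u` (`UT.pre`, `UT.isPolyTimeOracle`).
`hasPOptimal_of_sound`: every `y` with `L y` is `P (h [])` for a simulation `h` of the constant
function `y` (`UT.of (PolyTime.const y)`); every proof system is a sound function.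
`hasPOptimal_of_mem`: `P π = if L π then π else y`; apply `hasPOptimal_of_sound` with `h = S`.
-/

set_option autoImplicit false

namespace Pool.Agent.GEN42

open Pool.Agent.PT Pool.Agent.TMB67 Pool.Agent.POpt67 Pool.Agent.POpt70 Pool.Agent.ROr14
open Pool.Agent.TO42
open N68a2faeb N793a5b8e N487b59b3

/-- An optimal proof system simulates all sound functions. -/
theorem sim_all {X : List Bool → Bool} {L : DecisionProblem} {P : List Bool → List Bool}
    (hP : IsProofSystemOracle X L P)
    (hopt : ∀ Q, IsProofSystemOracle X L Q →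
      ∃ h : List Bool → List Bool, IsPolyTimeOracle X h ∧ ∀ π, P (h π) = Q π)
    {S : List Bool → List Bool} (hS : IsPolyTimeOracle X S) (hSL : ∀ π, L (S π) = true) :
    ∃ h : List Bool → List Bool, IsPolyTimeOracle X h ∧ ∀ π, P (h π) = S π := by
  obtain ⟨FP, hFP, eP⟩ := IsPolyTimeOracle.exists_UT hP.1
  obtain ⟨FS, hFS, eS⟩ := IsPolyTimeOracle.exists_UT hS
  have hQ : UT (fun X (u : List Bool) =>
      if u.headD false = true then FS X u.tail else FP X u.tail) :=
    UT.ite (P := fun u : List Bool => u.headD false = true)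
      (PolyTime.decide_eq (PolyTime.headD PolyTime.id (PolyTime.const false))
        (PolyTime.const true))
      (hFS.pre (PolyTime.tail PolyTime.id)) (hFP.pre (PolyTime.tail PolyTime.id))
  have hQX := UT.isPolyTimeOracle hQ X
  have hQsys : IsProofSystemOracle X L (fun u : List Bool =>
      if u.headD false = true then S u.tail else P u.tail) := by
    refine ⟨?_, fun y => ?_⟩
    · rw [← eS, ← eP]
      exact hQX
    · constructor
      · intro hy
        obtain ⟨π, hπ⟩ := (hP.2 y).1 hy
        exact ⟨false :: π, by simpa using hπ⟩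
      · rintro ⟨u, rfl⟩
        beta_reduce
        by_cases hu : u.headD false = true
        · rw [if_pos hu]
          exact hSL _
        · rw [if_neg hu]
          exact (hP.2 _).2 ⟨_, rfl⟩
  obtain ⟨h, hh, hhP⟩ := hopt _ hQsys
  obtain ⟨H, hH, eH⟩ := IsPolyTimeOracle.exists_UT hh
  refine ⟨fun π => h (true :: π), ?_, fun π => ?_⟩
  · rw [← eH]
    exact UT.isPolyTimeOracle (hH.pre (g := fun π : List Bool => true :: π)
      (PolyTime.cons (PolyTime.const true) PolyTime.id)) X
  · rw [hhP]
    simp

theorem hasPOptimal_of_sound {X : List Bool → Bool} {L : DecisionProblem}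
    {P : List Bool → List Bool} (hP : IsPolyTimeOracle X P) (hPL : ∀ π, L (P π) = true)
    (hsim : ∀ S : List Bool → List Bool, IsPolyTimeOracle X S → (∀ π, L (S π) = true) →
      ∃ h : List Bool → List Bool, IsPolyTimeOracle X h ∧ ∀ π, P (h π) = S π) :
    HasPOptimal X L := by
  refine ⟨P, ⟨hP, fun y => ⟨fun hy => ?_, ?_⟩⟩, fun Q hQ => hsim Q hQ.1 fun π =>
    (hQ.2 _).2 ⟨π, rfl⟩⟩
  · obtain ⟨h, _, hh⟩ := hsim (fun _ => y)
      (UT.isPolyTimeOracle (UT.of (PolyTime.const (α := List Bool) y)) X) (fun _ => hy)
    exact ⟨h [], hh []⟩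
  · rintro ⟨π, rfl⟩
    exact hPL π

theorem hasPOptimal_of_mem {X : List Bool → Bool} {L : DecisionProblem} (hL : L ∈ POracle X)
    (hne : ∃ y, L y = true) : HasPOptimal X L := by
  obtain ⟨y, hy⟩ := hne
  obtain ⟨FL, hFL, eL⟩ := IsPolyTimeOracle.exists_UT (α := List Bool) (β := Bool) (f := L) hL
  have h1 : UT (fun X (u : List Bool) => bif FL X u then u else y) :=
    (hFL.pair (UT.of (PolyTime.id (α := List Bool)))).post
      (g := fun z : Bool × List Bool => bif z.1 then z.2 else y)
      (PolyTime.cond PolyTime.fst' PolyTime.snd' (PolyTime.const y))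
  refine hasPOptimal_of_sound (P := fun u => bif L u then u else y) ?_ (fun π => ?_)
    fun S hS hSL => ⟨S, hS, fun π => ?_⟩
  · rw [← eL]
    exact UT.isPolyTimeOracle h1 X
  · cases h : L π
    · simpa using hy
    · simpa using h
  · rw [hSL π]
    rfl

end Pool.Agent.GEN42
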