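import Pool.Agent.GEN42.Look
import Pool.Agent.GEN42.Sys

/-!
# Module GEN42/Fix

Optimal proof systems of a fixed language transfer downwards from generic oracles.

PROOF. For `UT` functionals `PF`, `HF`, `SF` : `(List Bool → Bool) → List Bool → List Bool` the
statements `Ψ1 Y π := (L (PF (join A Y) π) = true)` and
`Ψ2 Y π := (PF (join A Y) (HF (join A Y) π) = SF A π)` are finitary (`use_join`, for `Ψ2` applied to the
composition). By `forced` and `countable_UT` for comeager many `G` both are forced or fail for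
some `π`, for all `PF`, `HF`, `SF`. Let `G` be such and let `P = PF (join A G)` be a p-optimal proof
system for `L` relative to `join A G`. As `P` is sound: `∃ m, ∀ Y, Agr m G Y → ∀ π, L (PF (join A Y) π)
= true`. Let `s` be the table of `exists_tb G m` and
`P'^A(u) := PF (join A (lk (s ++ σ))) w`, `(σ, w) = D u` (`D` from `Compat.dec` for
`List (List Bool × Bool) × List Bool`). It is polynomial time relative to `A` by `UT_sub` and sound
by `agr_lk_append`. Use `hasPOptimal_of_sound`: let `S = SF A` be sound. `S` is also polynomial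
time relative to `join A G` (`IsPolyTimeOracle.join_left`), so by `sim_all` there is `HF` with
`Ψ2 G π` for all `π`; so `∃ m1, ∀ Y, Agr m1 G Y → ∀ π, PF (join A Y) (HF (join A Y) π) = SF A π`. Let `s1`
be the table of `exists_tb G m1`; `Y1 := lk (s ++ s1)` has `Agr m1 G Y1` (both tables agree with `G`, use
`agr_lk` for `s ++ s1`). Put `h'(π) := bitEncode (s1, HF (join A Y1) π)`: `P'^A(h' π) = SF A π`.
-/

set_option autoImplicit false

namespace Pool.Agent.GEN42

open Pool.Agent.PT Pool.Agent.TMB67 Pool.Agent.POpt67 Pool.Agent.POpt70 Pool.Agent.ROr14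
open Pool.Agent.TO42
open N68a2faeb N793a5b8e N487b59b3

theorem fix_down (A : List Bool → Bool) (L : DecisionProblem) :
    ∀ᶠ G in residual (List Bool → Bool), HasPOptimal (join A G) L → HasPOptimal A L := by
  classical
  -- the finitary statements
  have key : ∀ {α β : Type} [Enc α] [Enc β] (Φ : (List Bool → Bool) → α → β) (_ : UT Φ)
      (R : α → β → Prop) (G : List Bool → Bool) (x : α), ∃ K, ∀ Y, Agr K G Y →
        (R x (Φ (join A Y) x) ↔ R x (Φ (join A G) x)) := by
    intro α β _ _ Φ hΦ R G x
    obtain ⟨K, hK⟩ := use_join hΦ A G x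
    exact ⟨K, fun Y hY => by rw [hK Y hY]⟩
  have h1 : ∀ᶠ G in residual (List Bool → Bool),
      ∀ F ∈ {F : (List Bool → Bool) → List Bool → List Bool | UT F},
      (∃ m, ∀ Y, Agr m G Y → ∀ x, L (F (join A Y) x) = true) ∨
        ∃ x, ¬ L (F (join A G) x) = true := by
    rw [eventually_countable_ball countable_UT]
    intro F hF
    exact forced (fun Y x => L (F (join A Y) x) = true) (key F hF (fun _ y => L y = true))
  have h2 : ∀ᶠ G in residual (List Bool → Bool),
      ∀ F ∈ {F : (List Bool → Bool) → List Bool → List Bool | UT F},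
      ∀ H ∈ {F : (List Bool → Bool) → List Bool → List Bool | UT F},
      ∀ S ∈ {F : (List Bool → Bool) → List Bool → List Bool | UT F},
      (∃ m, ∀ Y, Agr m G Y → ∀ x, F (join A Y) (H (join A Y) x) = S A x) ∨
        ∃ x, ¬ F (join A G) (H (join A G) x) = S A x := by
    rw [eventually_countable_ball countable_UT]
    intro F hF
    rw [eventually_countable_ball countable_UT]
    intro H hH
    rw [eventually_countable_ball countable_UT]
    intro S _
    exact forced (fun Y x => F (join A Y) (H (join A Y) x) = S A x)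
      (key (fun X x => F X (H X x)) (UT.comp hF hH) (fun x y => y = S A x))
  filter_upwards [h1, h2] with G hG1 hG2 hopt
  obtain ⟨P, hP, hPopt⟩ := hopt
  obtain ⟨F, hF, hFP⟩ := IsPolyTimeOracle.exists_UT hP.1
  subst hFP
  -- soundness is forced
  obtain ⟨m, hm⟩ : ∃ m, ∀ Y, Agr m G Y → ∀ x, L (F (join A Y) x) = true := by
    rcases hG1 F hF with h | ⟨x, hx⟩
    · exact h
    · exact absurd ((hP.2 _).2 ⟨x, rfl⟩) hx
  obtain ⟨s, hs1, hs2, _⟩ := exists_tb G m
  obtain ⟨D, hD, hDec⟩ := Compat.dec (α := List (List Bool × Bool) × List Bool)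
  have hsub : UT (fun A (z : List (List Bool × Bool) × List Bool) =>
      F (join A (fun w => lk z.1 w)) z.2) :=
    UT_sub hF (t := fun z : List (List Bool × Bool) × List Bool => lk z.1 z.2)
      (lk_polyTime PolyTime.fst' PolyTime.snd')
  have hFA : UT (fun A (π : List Bool) => F (join A (lk (s ++ (D π).1))) (D π).2) :=
    hsub.pre (g := fun π : List Bool => (s ++ (D π).1, (D π).2))
      (PolyTime.pair (PolyTime.append (PolyTime.const _) (PolyTime.fst hD)) (PolyTime.snd hD))
  refine hasPOptimal_of_sound (P := fun π => F (join A (lk (s ++ (D π).1))) (D π).2)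
    (hFA.isPolyTimeOracle A) (fun π => hm _ (agr_lk_append hs1 hs2) _) ?_
  intro S hS hSL
  obtain ⟨h, hh, hsim⟩ := sim_all hP hPopt (IsPolyTimeOracle.join_left hS G) hSL
  obtain ⟨H, hH, rfl⟩ := IsPolyTimeOracle.exists_UT hh
  obtain ⟨SF, hSF, hSFS⟩ := IsPolyTimeOracle.exists_UT hS
  obtain ⟨m1, hm1⟩ : ∃ m1, ∀ Y, Agr m1 G Y → ∀ x,
      F (join A Y) (H (join A Y) x) = SF A x := by
    rcases hG2 F hF H hH SF hSF with h | ⟨x, hx⟩
    · exact h
    · exact absurd (by rw [hSFS]; exact hsim x) hx
  obtain ⟨s1, ht1, ht2, _⟩ := exists_tb G m1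
  have hagr : Agr m1 G (lk (s ++ s1)) := by
    refine agr_lk (ag_append.2 ⟨hs1, ht1⟩) fun z hz => ?_
    rw [List.map_append, List.mem_append]
    exact Or.inr (ht2 z hz)
  have hsubH : UT (fun A (z : List (List Bool × Bool) × List Bool) =>
      H (join A (fun w => lk z.1 w)) z.2) :=
    UT_sub hH (t := fun z : List (List Bool × Bool) × List Bool => lk z.1 z.2)
      (lk_polyTime PolyTime.fst' PolyTime.snd')
  have hGA : UT (fun A (x : List Bool) =>
      (bitEncode (s1, H (join A (lk (s ++ s1))) x) : List Bool)) :=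
    UT.post (g := fun y : List Bool => (bitEncode (s1, y) : List Bool))
      ((Compat.enc (α := List (List Bool × Bool) × List Bool)).comp
        (PolyTime.pair (PolyTime.const _) PolyTime.id))
      (hsubH.pre (g := fun x : List Bool => (s ++ s1, x))
        (PolyTime.pair (PolyTime.const _) PolyTime.id))
  refine ⟨_, hGA.isPolyTimeOracle A, fun x => ?_⟩
  rw [hDec]
  simp only
  rw [hm1 _ hagr, hSFS]

end Pool.Agent.GEN42
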