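import Pool.Agent.GEN42.NPUp
import Pool.Agent.GEN42.Fix

/-!
# Module GEN42/CoNP

Third clause of the second part.

PROOF. If the right side holds use `coNP_up`; then both sides are true for comeager many `G`. If it
fails, some `L ∈ CoNPOracle A`, nonempty, has no optimal system relative to `A`; by `fix_down` for
comeager many `G` it has none relative to `join A G`; and `L ∈ CoNPOracle (join A G)` because
`(fun x => !L x) = npf p F A = npf p (fun X => F (fun w => X (false :: w))) (join A G)`
(`mem_NPOracle_iff`, `UT_left`, `join_left`).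
-/

set_option autoImplicit false

namespace Pool.Agent.GEN42

open Pool.Agent.PT Pool.Agent.TMB67 Pool.Agent.POpt67 Pool.Agent.POpt70 Pool.Agent.ROr14
open Pool.Agent.TO42
open N68a2faeb N793a5b8e N487b59b3

private theorem coNP_join27 {A : List Bool → Bool} (G : List Bool → Bool) {L : DecisionProblem}
    (hL : L ∈ CoNPOracle A) : L ∈ CoNPOracle (join A G) := by
  obtain ⟨p, F, hF, h⟩ := mem_NPOracle_iff.1 (show (fun x => !L x) ∈ NPOracle A from hL)
  refine (show (fun x => !L x) ∈ NPOracle (join A G) from
    mem_NPOracle_iff.2 ⟨p, fun X => F (fun w => X (false :: w)), UT_left hF, ?_⟩)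
  rw [h]
  rfl

theorem coNP_iff (A : List Bool → Bool) : ∀ᶠ G in residual (List Bool → Bool),
    (AllPOptimal (join A G) (CoNPOracle (join A G)) ↔ AllPOptimal A (CoNPOracle A)) := by
  by_cases h : AllPOptimal A (CoNPOracle A)
  · filter_upwards [coNP_up h] with G hG
    exact iff_of_true hG h
  · have h' := h
    unfold AllPOptimal at h'
    push Not at h'
    obtain ⟨L, hL, hy, hno⟩ := h'
    filter_upwards [fix_down A L] with G hG
    exact iff_of_false (fun hall => hno (hG (hall L (coNP_join27 G hL) hy))) h

end Pool.Agent.GEN42
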