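import Pool.Agent.GEN42.Cells

/-!
# Module GEN42/Compl

Completion of the dummy pointers to an injective encoding of a given oracle.
-/

set_option autoImplicit false

namespace Pool.Agent.GEN42

open Pool.Agent.PT Pool.Agent.TMB67 Pool.Agent.POpt67 Pool.Agent.POpt70 Pool.Agent.ROr14
open Pool.Agent.TO42
open N68a2faeb N793a5b8e N487b59b3

theorem exists_perm {M : ℕ} (hM : 0 < M) {τ : List (List Bool)} (hτ : τ.Nodup)
    (hl : ∀ c ∈ τ, c.length = M) (hn : τ.length ≤ 2 ^ (M - 1)) :
    ∃ f : List Bool → List Bool, (∀ c, c.length = M → (f c).length = M) ∧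
      (∀ c c', c.length = M → c'.length = M → f c = f c' → c = c') ∧
      ∀ c ∈ τ, f c = dum M (τ.idxOf c) := by
  classical
  let P : List.Vector Bool M → Prop := fun c => c.1 ∈ τ
  let Q : List.Vector Bool M → Prop := fun d => ∃ i, i < τ.length ∧ d.1 = dum M i
  let g : {c // P c} → {d // Q d} := fun x =>
    ⟨⟨dum M (τ.idxOf x.1.1), length_dum hM _⟩, ⟨τ.idxOf x.1.1, List.idxOf_lt_length_of_mem x.2, rfl⟩⟩
  have hg : Function.Bijective g := by
    constructor
    · rintro ⟨⟨a, ha⟩, hPa⟩ ⟨⟨b, hb⟩, hPb⟩ h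
      have h1 : dum M (τ.idxOf a) = dum M (τ.idxOf b) := congrArg (fun d => d.1.1) h
      have h2 : τ.idxOf a < τ.length := List.idxOf_lt_length_of_mem hPa
      have h3 : τ.idxOf b < τ.length := List.idxOf_lt_length_of_mem hPb
      have h4 : τ.idxOf a = τ.idxOf b := dum_inj (by omega) (by omega) h1
      have h5 : a = b := (List.idxOf_inj hPa).1 h4
      subst h5
      rfl
    · rintro ⟨⟨d, hd⟩, i, hi, hdi⟩
      have hmem : τ[i] ∈ τ := List.getElem_mem hi
      refine ⟨⟨⟨τ[i], hl _ hmem⟩, hmem⟩, ?_⟩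
      apply Subtype.ext
      apply Subtype.ext
      change dum M (τ.idxOf τ[i]) = d
      rw [hτ.idxOf_getElem i hi]
      exact hdi.symm
  let e : {c // P c} ≃ {d // Q d} := Equiv.ofBijective g hg
  let π : Equiv.Perm (List.Vector Bool M) := e.extendSubtype
  refine ⟨fun c => if h : c.length = M then (π ⟨c, h⟩).1 else [], ?_, ?_, ?_⟩
  · intro c hc
    simp only [hc, dif_pos]
    exact (π ⟨c, hc⟩).2
  · intro c c' hc hc' h
    simp only [hc, hc', dif_pos] at h
    have h1 : π ⟨c, hc⟩ = π ⟨c', hc'⟩ := Subtype.ext h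
    have h2 := π.injective h1
    exact congrArg Subtype.val h2
  · intro c hc
    have hcl := hl c hc
    simp only [hcl, dif_pos]
    have h1 : π ⟨c, hcl⟩ = e ⟨⟨c, hcl⟩, hc⟩ := Equiv.extendSubtype_apply_of_mem e ⟨c, hcl⟩ hc
    rw [h1]
    rfl

private theorem compl27_map_getD {l : List Bool} {M : ℕ} (h : l.length = M) :
    ((List.range M).map fun j => l.getD j false) = l := by
  apply List.ext_getElem
  · simp [h]
  · intro i h1 h2
    simp [List.getElem?_eq_getElem h2]

theorem exists_completion {M : ℕ} (hM : 0 < M) {ξ : List Bool × List Bool}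
    {τ : List (List Bool)} (hτ : τ.Nodup) (hl : ∀ c ∈ τ, c.length = M)
    (hn : τ.length ≤ 2 ^ (M - 1)) (Y0 Z : List Bool → Bool)
    (h0 : ∀ c ∈ τ, ∀ κ : List Bool, Y0 (cs ξ c κ) = (dum M (τ.idxOf c)).getD κ.length false) :
    ∃ Y : List Bool → Bool, Encodes Y ξ M Z ∧
      ∀ z, (∀ c, cell M ξ z = some c → c ∈ τ) → Y z = Y0 z := by
  classical
  obtain ⟨f, hf1, hf2, hf3⟩ := exists_perm hM hτ hl hn
  let Y : List Bool → Bool := fun z =>
    match cell M ξ z with
    | none => Y0 z
    | some c => if c ∈ τ then Y0 z else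
        if (parts z).2.2.length < M then (f c).getD (parts z).2.2.length false
        else decide (∃ u, emb M u = f c ∧ Z u = true)
  have hcell : ∀ c κ : List Bool, c.length = M → cell M ξ (cs ξ c κ) = some c :=
    fun c κ hc => cell_eq_some_iff.2 ⟨hc, κ, rfl⟩
  have hparts : ∀ c κ : List Bool, (parts (cs ξ c κ)).2.2 = κ := by
    intro c κ
    show (dc ((List Bool × List Bool) × (List Bool × List Bool)) (bitEncode (ξ, (c, κ)))).2.2 = κ
    rw [dc_enc]
  have hY : ∀ c κ : List Bool, c.length = M → Y (cs ξ c κ) =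
      if c ∈ τ then Y0 (cs ξ c κ) else if κ.length < M then (f c).getD κ.length false
        else decide (∃ u, emb M u = f c ∧ Z u = true) := by
    intro c κ hc
    simp only [Y, hcell c κ hc, hparts c κ]
  have hptr : ∀ c : List Bool, c.length = M → ptr Y ξ M c = f c := by
    intro c hc
    rw [← compl27_map_getD (hf1 c hc)]
    unfold ptr
    apply List.map_congr_left
    intro j hj
    rw [List.mem_range] at hj
    rw [hY c _ hc]
    by_cases hcτ : c ∈ τ
    · rw [if_pos hcτ, h0 c hcτ, hf3 c hcτ, List.length_replicate]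
    · rw [if_neg hcτ, List.length_replicate, if_pos hj]
  refine ⟨Y, ⟨?_, ?_⟩, ?_⟩
  · intro c c' hc hc' h
    rw [hptr c hc, hptr c' hc'] at h
    exact hf2 c c' hc hc' h
  · intro c u hc h
    rw [hptr c hc] at h
    have hcτ : c ∉ τ := by
      intro hcτ
      rw [hf3 c hcτ] at h
      exact emb_ne_dum M _ u h.symm
    unfold shr
    rw [hY c _ hc, if_neg hcτ, List.length_replicate, if_neg (lt_irrefl M), h]
    rw [Bool.eq_iff_iff, decide_eq_true_iff]
    constructor
    · rintro ⟨u', hu', hZ⟩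
      rw [← emb_inj hu']
      exact hZ
    · intro hZ
      exact ⟨u, rfl, hZ⟩
  · intro z hz
    cases hc : cell M ξ z with
    | none => simp only [Y, hc]
    | some c => simp only [Y, hc, if_pos (hz c hc)]

end Pool.Agent.GEN42
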