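import Pool.Agent.GEN42.Up

/-!
# Module GEN42/CondNP

The conditional versions of `NP` and `coNP` functionals.

PROOF. `cnd_npf_mem`: by `mem_TotalOracle_iff` with the verifier
`F' X (c, w) := !Ag (D c).2 (right half of X) || (decide (w.length ≤ p.eval (D c).1.length) && F X ((D c).1,
w))` and a polynomial `p'` with `p.eval (D c).1.length ≤ p'.eval c.length` (`PBdd` of `hD` and
`exists_length_bound` or `sz_listBool`); for `Y` violating the table take `w = []`.
`cnd_co_mem`: `!cnd … c = true` iff there are `Y` with `Ag σ Y` and `v`, `|v| ≤ p(|y|)`,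
`F (join A Y) (y, v) = true`, where `(y, σ) = D c`. Witness: `bitEncode (v, τ)` with `τ` a table, verifier
`|v| ≤ p(|y|) ∧ Ag σ (lk τ) ∧ F (join A (lk τ)) (y, v) = true` (with `D'` from `Compat.dec` for
`List Bool × List (List Bool × Bool)`; `UT` by `UT_sub`, `lk_polyTime`). From `Y`, `v` to a witness: `τ = σ ++
T (join A Y) (y, v)` with `T` from `exists_rtrace` for `F`; `Ag τ Y`, so `lk τ` agrees with `τ`
(`lk_of_ag`). Its length is polynomially bounded (`UT.bound` for `T`, `hD.pbdd`,
`Compat.enc` and `exists_enc_bound`). Conversely take `Y = lk τ`.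
-/

set_option autoImplicit false

namespace Pool.Agent.GEN42

open Pool.Agent.PT Pool.Agent.TMB67 Pool.Agent.POpt67 Pool.Agent.POpt70 Pool.Agent.ROr14
open Pool.Agent.TO42
open N68a2faeb N793a5b8e N487b59b3

theorem cnd_npf_mem (p : Polynomial ℕ) {F : (List Bool → Bool) → List Bool × List Bool → Bool}
    (hF : UT F) (A : List Bool → Bool) {D : List Bool → List Bool × List (List Bool × Bool)}
    (hD : PolyTime D) : cnd (npf p F) A D ∈ TotalOracle A := by
  obtain ⟨q, hq⟩ := exists_length_bound (s := fun c => p.eval (D c).1.length)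
    ((polyEval_length p (PolyTime.fst hD)).pbdd.of_le fun x => by rw [sz_nat]; omega)
  have hD1 : PolyTime (fun z : List Bool × List Bool => D z.1) := hD.comp PolyTime.fst'
  have hAG : UT (fun (X : List Bool → Bool) (z : List Bool × List Bool) =>
      decide (Ag (D z.1).2 (fun w => X (true :: w)))) :=
    (UT_right UT_ag).pre (g := fun z : List Bool × List Bool => (D z.1).2) (PolyTime.snd hD1)
  have hF1 : UT (fun (X : List Bool → Bool) (z : List Bool × List Bool) =>
      F X ((D z.1).1, z.2)) :=
    hF.pre (g := fun z : List Bool × List Bool => ((D z.1).1, z.2))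
      (PolyTime.pair (PolyTime.fst hD1) PolyTime.snd')
  have hdec : UT (fun (_ : List Bool → Bool) (z : List Bool × List Bool) =>
      decide (z.2.length ≤ p.eval (D z.1).1.length)) :=
    UT.of (PolyTime.decide_le (PolyTime.snd').length
      (polyEval_length p (PolyTime.fst hD1)))
  have hall : UT (fun (X : List Bool → Bool) (z : List Bool × List Bool) =>
      !(decide (Ag (D z.1).2 (fun w => X (true :: w)))) ||
        (decide (z.2.length ≤ p.eval (D z.1).1.length) && F X ((D z.1).1, z.2))) :=
    UT.post (g := fun t : Bool × (Bool × Bool) => !t.1 || (t.2.1 && t.2.2))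
      (PolyTime.or (PolyTime.not PolyTime.fst')
        (PolyTime.and (PolyTime.fst PolyTime.snd') (PolyTime.snd PolyTime.snd')))
      (UT.pair hAG (UT.pair hdec hF1))
  refine mem_TotalOracle_iff.2 ⟨q, _, hall, fun c => ?_⟩
  rw [cnd_iff]
  constructor
  · intro h Y
    by_cases hY : Ag (D c).2 Y
    · obtain ⟨w, hw, hw'⟩ := npf_iff.1 (h Y hY)
      refine ⟨w, hw.trans (hq c), ?_⟩
      change (!(decide (Ag (D c).2 (fun u => join A Y (true :: u)))) ||
        (decide (w.length ≤ p.eval (D c).1.length) && F (join A Y) ((D c).1, w))) = true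
      rw [hw', decide_eq_true hw]
      simp
    · refine ⟨[], Nat.zero_le _, ?_⟩
      change (!(decide (Ag (D c).2 Y)) || _) = true
      rw [decide_eq_false hY]
      rfl
  · intro h Y hY
    obtain ⟨w, _, hw'⟩ := h Y
    change (!(decide (Ag (D c).2 Y)) ||
      (decide (w.length ≤ p.eval (D c).1.length) && F (join A Y) ((D c).1, w))) = true at hw'
    rw [decide_eq_true hY] at hw'
    simp only [Bool.not_true, Bool.false_or, Bool.and_eq_true, decide_eq_true_iff] at hw'
    exact npf_iff.2 ⟨w, hw'.1, hw'.2⟩

theorem cnd_co_mem (p : Polynomial ℕ) {F : (List Bool → Bool) → List Bool × List Bool → Bool}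
    (hF : UT F) (A : List Bool → Bool) {D : List Bool → List Bool × List (List Bool × Bool)}
    (hD : PolyTime D) : cnd (fun X x => !npf p F X x) A D ∈ CoNPOracle A := by
  obtain ⟨D', hD', hDD'⟩ := Compat.dec (α := List Bool × List (List Bool × Bool))
  obtain ⟨T, hT, hTag, hTeq⟩ := exists_rtrace hF
  obtain ⟨r, hr⟩ := hT.bound
  obtain ⟨e, he⟩ := exists_enc_bound (α := List Bool × List (List Bool × Bool))
  -- the length of the witnesses
  have hp : PBdd (fun c : List Bool => p.eval (D c).1.length) :=
    (polyEval_length p (PolyTime.fst hD)).pbdd.of_le fun x => by rw [sz_nat]; omega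
  have hp4 : PBdd (fun c : List Bool => 4 * p.eval (D c).1.length + 1) :=
    ((PBdd.const 4).mul hp).add (PBdd.const 1)
  have hB : PBdd (fun c : List Bool => e.eval ((4 * p.eval (D c).1.length + 1) +
      (sz (D c).2 + r.eval (sz (D c).1 + (4 * p.eval (D c).1.length + 1) + 1)) + 1)) :=
    ((hp4.add ((PolyTime.snd hD).pbdd.add
      ((((PolyTime.fst hD).pbdd.add hp4).add (PBdd.const 1)).eval r))).add
        (PBdd.const 1)).eval e
  obtain ⟨q, hq⟩ := exists_length_bound hB
  have hD1 : PolyTime (fun z : List Bool × List Bool => D z.1) := hD.comp PolyTime.fst'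
  have hD2 : PolyTime (fun z : List Bool × List Bool => D' z.2) := hD'.comp PolyTime.snd'
  have ht : PolyTime (fun z : List (List Bool × Bool) × List Bool => lk z.1 z.2) :=
    lk_polyTime PolyTime.fst' PolyTime.snd'
  have hAG : UT (fun (_ : List Bool → Bool) (z : List Bool × List Bool) =>
      decide (Ag (D z.1).2 (lk (D' z.2).2))) :=
    ((UT_sub (UT_right UT_ag) ht).pre
      (g := fun z : List Bool × List Bool => ((D' z.2).2, (D z.1).2))
      (PolyTime.pair (PolyTime.snd hD2) (PolyTime.snd hD1))).congr fun X z => rfl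
  have hF1 : UT (fun (X : List Bool → Bool) (z : List Bool × List Bool) =>
      F (join X (lk (D' z.2).2)) ((D z.1).1, (D' z.2).1)) :=
    ((UT_sub hF ht).pre
      (g := fun z : List Bool × List Bool => ((D' z.2).2, ((D z.1).1, (D' z.2).1)))
      (PolyTime.pair (PolyTime.snd hD2)
        (PolyTime.pair (PolyTime.fst hD1) (PolyTime.fst hD2)))).congr fun X z => rfl
  have hdec : UT (fun (_ : List Bool → Bool) (z : List Bool × List Bool) =>
      decide ((D' z.2).1.length ≤ p.eval (D z.1).1.length)) :=
    UT.of (PolyTime.decide_le (PolyTime.fst hD2).length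
      (polyEval_length p (PolyTime.fst hD1)))
  have hall : UT (fun (X : List Bool → Bool) (z : List Bool × List Bool) =>
      decide ((D' z.2).1.length ≤ p.eval (D z.1).1.length) &&
        (decide (Ag (D z.1).2 (lk (D' z.2).2)) &&
          F (join X (lk (D' z.2).2)) ((D z.1).1, (D' z.2).1))) :=
    UT.post (g := fun t : Bool × (Bool × Bool) => t.1 && (t.2.1 && t.2.2))
      (PolyTime.and PolyTime.fst'
        (PolyTime.and (PolyTime.fst PolyTime.snd') (PolyTime.snd PolyTime.snd')))
      (UT.pair hdec (UT.pair hAG hF1))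
  refine (show (fun c => !cnd (fun X x => !npf p F X x) A D c) ∈ NPOracle A from
    mem_NPOracle_iff.2 ⟨q, _, hall, funext fun c => ?_⟩)
  rw [Bool.eq_iff_iff, npf_iff, Bool.not_eq_true', ← Bool.not_eq_true, cnd_iff]
  constructor
  · intro h
    push Not at h
    obtain ⟨Y, hY, h1⟩ := h
    have h2 : npf p F (join A Y) (D c).1 = true := by
      simpa using h1
    obtain ⟨v, hv, hv'⟩ := npf_iff.1 h2
    have hτY : Ag ((D c).2 ++ T (join A Y) ((D c).1, v)) Y :=
      ag_append.2 ⟨hY, hTag A Y _⟩
    have hag1 : Ag (D c).2 (lk ((D c).2 ++ T (join A Y) ((D c).1, v))) := by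
      intro x hx
      rw [lk_of_ag hτY (List.mem_map_of_mem (List.mem_append_left _ hx))]
      exact hY x hx
    have hag2 : Ag (T (join A Y) ((D c).1, v))
        (lk ((D c).2 ++ T (join A Y) ((D c).1, v))) := by
      intro x hx
      rw [lk_of_ag hτY (List.mem_map_of_mem (List.mem_append_right _ hx))]
      exact hTag A Y _ x hx
    refine ⟨bitEncode (v, (D c).2 ++ T (join A Y) ((D c).1, v)), ?_, ?_⟩
    · refine ((he _).trans (eval_mono e ?_)).trans (hq c)
      rw [sz_prod]
      have h3 := sz_listBool v
      have h4 : sz v ≤ 4 * p.eval (D c).1.length + 1 := by omega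
      have h5 : sz (T (join A Y) ((D c).1, v)) ≤
          r.eval (sz (D c).1 + (4 * p.eval (D c).1.length + 1) + 1) := by
        refine (hr _ _).trans (eval_mono r ?_)
        rw [sz_prod]
        change sz (D c).1 + sz v + 1 ≤ _
        omega
      have h6 : sz ((D c).2 ++ T (join A Y) ((D c).1, v)) ≤
          sz (D c).2 + sz (T (join A Y) ((D c).1, v)) := sz_append_le _ _
      change sz v + sz ((D c).2 ++ T (join A Y) ((D c).1, v)) + 1 ≤ _
      omega
    · rw [hDD']
      simp only [Bool.and_eq_true, decide_eq_true_iff]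
      refine ⟨hv, hag1, ?_⟩
      rw [(hTeq A Y _ _ hag2).1]
      exact hv'
  · rintro ⟨W, _, hW⟩ h
    simp only [Bool.and_eq_true, decide_eq_true_iff] at hW
    have h1 := h _ hW.2.1
    have h2 : npf p F (join A (lk (D' W).2)) (D c).1 = true :=
      npf_iff.2 ⟨(D' W).1, hW.1, hW.2.2⟩
    rw [h2] at h1
    exact absurd h1 (by decide)

end Pool.Agent.GEN42
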