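import Pool.Agent.GEN42.Compl

/-!
# Module GEN42/DSys

The accepted data of the derived proof system.

PROOF. `acc_UT`: all parts are polynomial time relative to `A` (`UT_sub` with parameter
`((ξ, w), (τ, σ))` and `orc_polyTime`, `rt_polyTime`, `cell_polyTime`, `PolyTime.decide_nodup`,
`PolyTime.natSize`, `PolyTime.decide_forall_mem`); for the last condition use a Boolean function on
lists, e.g. `(rt l).all fun e => ((cell M ξ e.1).toList.all fun c => decide (c ∈ τ))`.
`acc_spec`: `M = mx N ξ ≥ ξ.2.length + 3`, so `τ.length < 2 ^ (Nat.size τ.length) ≤ 2 ^ (M - 1)`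
(`Nat.lt_size_self`). `exists_completion` with `Y0 = orc s m M ξ σ τ` (`orc_cell`, the cells have
length `> m` by `length_cs`) gives `Y` with `Encodes Y ξ M Z`. `Agr m G Y`: a string of length `≤ m` is
not of the form `cs ξ c κ`, so `Y z = Y0 z = lk s z = G z` (`orc_short`, `agr_lk`). For
`e ∈ rt (TP (join A Y0) w)`: `Y e.1 = Y0 e.1 = e.2` (`ag_rt` with `hTP.sound`); so by `join_of_rt` and
`hd`: `PF (join A Y) w = PF (join A Y0) w`.
-/

set_option autoImplicit false

namespace Pool.Agent.GEN42

open Pool.Agent.PT Pool.Agent.TMB67 Pool.Agent.POpt67 Pool.Agent.POpt70 Pool.Agent.ROr14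
open Pool.Agent.TO42
open N68a2faeb N793a5b8e N487b59b3

/-- The data `ξ, w, τ, σ` are accepted. -/
def Acc (N : Polynomial ℕ) (s : List (List Bool × Bool)) (m : ℕ)
    (PF : (List Bool → Bool) → List Bool → List Bool)
    (TP : (List Bool → Bool) → List Bool → List (List Bool × Bool)) (A : List Bool → Bool)
    (ξ : List Bool × List Bool) (w : List Bool) (τ : List (List Bool))
    (σ : List (List Bool × Bool)) : Prop :=
  PF (join A (orc s m (mx N ξ) ξ σ τ)) w = bitEncode ξ ∧ m < ξ.2.length ∧ τ.Nodup ∧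
    (∀ c ∈ τ, c.length = mx N ξ) ∧ Nat.size τ.length ≤ ξ.2.length ∧
    ∀ e ∈ rt (TP (join A (orc s m (mx N ξ) ξ σ τ)) w), ∀ c,
      cell (mx N ξ) ξ e.1 = some c → c ∈ τ

/-- The data of the proof system. -/
private abbrev Gam94 : Type :=
  ((List Bool × List Bool) × List Bool) × (List (List Bool) × List (List Bool × Bool))

/-- The value, the trace and the data. -/
private abbrev Del94 : Type := (List Bool × List (List Bool × Bool)) × Gam94

/-- The last condition. -/
private noncomputable def last94 (N : Polynomial ℕ) (y : Del94) : Bool :=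
  (rt y.1.2).all fun e =>
    (Option.casesOn (motive := fun _ => Bool) (cell (mx N y.2.1.1) y.2.1.1 e.1) true
      fun c => decide (c ∈ y.2.2.1))

private theorem last94_iff (N : Polynomial ℕ) (y : Del94) :
    last94 N y = true ↔ ∀ e ∈ rt y.1.2, ∀ c, cell (mx N y.2.1.1) y.2.1.1 e.1 = some c →
      c ∈ y.2.2.1 := by
  unfold last94
  rw [List.all_eq_true]
  constructor
  · intro h e he c hc
    have h1 := h e he
    rw [hc] at h1
    exact of_decide_eq_true h1
  · intro h e he
    have h1 := h e he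
    cases hc : cell (mx N y.2.1.1) y.2.1.1 e.1 with
    | none => rfl
    | some c => exact decide_eq_true (h1 c hc)

private theorem last94_polyTime (N : Polynomial ℕ) : PolyTime (last94 N) := by
  have hξ : PolyTime (fun p : Del94 × (List Bool × Bool) => p.1.2.1.1) :=
    PolyTime.fst (PolyTime.fst (PolyTime.snd PolyTime.fst'))
  have hcell : PolyTime (fun p : Del94 × (List Bool × Bool) =>
      cell (mx N p.1.2.1.1) p.1.2.1.1 p.2.1) :=
    cell_polyTime (mx_polyTime N hξ) hξ (PolyTime.fst PolyTime.snd')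
  have hmem : PolyTime (fun q : (Del94 × (List Bool × Bool)) × List Bool =>
      decide (q.2 ∈ q.1.1.2.2.1)) :=
    (PolyTime.decide_exists_mem (l := fun q : (Del94 × (List Bool × Bool)) × List Bool =>
      q.1.1.2.2.1) (P := fun q b => b = q.2)
      (PolyTime.fst (PolyTime.snd (PolyTime.snd (PolyTime.fst PolyTime.fst'))))
      (PolyTime.decide_eq PolyTime.snd' (PolyTime.snd PolyTime.fst'))).congr fun q => by
        rw [Bool.eq_iff_iff]
        simp
  have h1 : PolyTime (fun p : Del94 × (List Bool × Bool) =>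
      (Option.casesOn (motive := fun _ => Bool) (cell (mx N p.1.2.1.1) p.1.2.1.1 p.2.1) true
        fun c => decide (c ∈ p.1.2.2.1))) :=
    PolyTime.optionCases (f := fun _ => true)
      (g := fun (p : Del94 × (List Bool × Bool)) c => decide (c ∈ p.1.2.2.1)) hcell
      (PolyTime.const true) hmem
  exact PolyTime.all (l := fun y : Del94 => rt y.1.2)
    (g := fun (y : Del94) e =>
      (Option.casesOn (motive := fun _ => Bool) (cell (mx N y.2.1.1) y.2.1.1 e.1) true
        fun c => decide (c ∈ y.2.2.1)))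
    (rt_polyTime (PolyTime.snd PolyTime.fst')) h1

/-- The test. -/
private noncomputable def tst94 (N : Polynomial ℕ) (m : ℕ) (y : Del94) : Bool :=
  decide (y.1.1 = bitEncode y.2.1.1) && (decide (m < y.2.1.1.2.length) &&
    (decide (y.2.2.1.Nodup) && (decide (∀ c ∈ y.2.2.1, c.length = mx N y.2.1.1) &&
      (decide (Nat.size y.2.2.1.length ≤ y.2.1.1.2.length) && last94 N y))))

private theorem tst94_polyTime (N : Polynomial ℕ) (m : ℕ) : PolyTime (tst94 N m) := by
  have hξ : PolyTime (fun y : Del94 => y.2.1.1) := PolyTime.fst (PolyTime.fst PolyTime.snd')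
  have hτ : PolyTime (fun y : Del94 => y.2.2.1) := PolyTime.fst (PolyTime.snd PolyTime.snd')
  have hlen : PolyTime (fun y : Del94 => y.2.1.1.2.length) := PolyTime.length (PolyTime.snd hξ)
  refine PolyTime.and ?_ (PolyTime.and ?_ (PolyTime.and ?_ (PolyTime.and ?_ (PolyTime.and ?_
    (last94_polyTime N)))))
  · exact PolyTime.decide_eq (PolyTime.fst PolyTime.fst')
      ((Compat.enc (α := List Bool × List Bool)).comp hξ)
  · exact PolyTime.decide_lt (PolyTime.const m) hlen
  · exact PolyTime.decide_nodup hτ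
  · exact PolyTime.decide_forall_mem (l := fun y : Del94 => y.2.2.1)
      (P := fun (y : Del94) c => c.length = mx N y.2.1.1) hτ
      (PolyTime.decide_eq (PolyTime.length PolyTime.snd')
        ((mx_polyTime N hξ).comp PolyTime.fst'))
  · exact PolyTime.decide_le (PolyTime.natSize (PolyTime.length hτ)) hlen

theorem acc_UT (N : Polynomial ℕ) (s : List (List Bool × Bool)) (m : ℕ)
    {PF : (List Bool → Bool) → List Bool → List Bool} (hPF : UT PF)
    {TP : (List Bool → Bool) → List Bool → List (List Bool × Bool)} (hTP : UT TP) :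
    ∃ K : (List Bool → Bool) → ((List Bool × List Bool) × List Bool) ×
        (List (List Bool) × List (List Bool × Bool)) → Bool, UT K ∧
      ∀ A ξ w τ σ, K A ((ξ, w), (τ, σ)) = true ↔ Acc N s m PF TP A ξ w τ σ := by
  have hξ : PolyTime (fun p : Gam94 × List Bool => p.1.1.1) :=
    PolyTime.fst (PolyTime.fst PolyTime.fst')
  have ht : PolyTime (fun p : Gam94 × List Bool =>
      orc s m (mx N p.1.1.1) p.1.1.1 p.1.2.2 p.1.2.1 p.2) :=
    orc_polyTime s m (mx_polyTime N hξ) hξ (PolyTime.snd (PolyTime.snd PolyTime.fst'))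
      (PolyTime.fst (PolyTime.snd PolyTime.fst')) PolyTime.snd'
  have hpre : PolyTime (fun z : Gam94 => (z, z.1.2)) :=
    PolyTime.pair PolyTime.id (PolyTime.snd PolyTime.fst')
  have h1 : UT (fun A (z : Gam94) => PF (join A
      (orc s m (mx N z.1.1) z.1.1 z.2.2 z.2.1)) z.1.2) :=
    (UT_sub hPF ht).pre (g := fun z : Gam94 => (z, z.1.2)) hpre
  have h2 : UT (fun A (z : Gam94) => TP (join A
      (orc s m (mx N z.1.1) z.1.1 z.2.2 z.2.1)) z.1.2) :=
    (UT_sub hTP ht).pre (g := fun z : Gam94 => (z, z.1.2)) hpre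
  have h3 := (h1.pair h2).pair (UT.of (PolyTime.id (α := Gam94)))
  refine ⟨_, UT.post (tst94_polyTime N m) h3, fun A ξ w τ σ => ?_⟩
  unfold Acc tst94
  rw [Bool.and_eq_true, Bool.and_eq_true, Bool.and_eq_true, Bool.and_eq_true, Bool.and_eq_true,
    last94_iff, decide_eq_true_iff, decide_eq_true_iff, decide_eq_true_iff, decide_eq_true_iff,
    decide_eq_true_iff]

theorem acc_spec {N : Polynomial ℕ} {s : List (List Bool × Bool)} {m : ℕ}
    {PF : (List Bool → Bool) → List Bool → List Bool}
    {TP : (List Bool → Bool) → List Bool → List (List Bool × Bool)} (hTP : IsTrace TP)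
    (hd : Determines TP PF) {A G : List Bool → Bool} (hs : Ag s G)
    (hs' : ∀ z : List Bool, z.length ≤ m → z ∈ s.map Prod.fst)
    {ξ : List Bool × List Bool} {w : List Bool} {τ : List (List Bool)}
    {σ : List (List Bool × Bool)} (h : Acc N s m PF TP A ξ w τ σ) (Z : List Bool → Bool) :
    ∃ Y, Agr m G Y ∧ Encodes Y ξ (mx N ξ) Z ∧ PF (join A Y) w = bitEncode ξ := by
  obtain ⟨ha, hm, hnd, hl, hsz, ht⟩ := h
  have hM : 0 < mx N ξ := by unfold mx; omega
  have hM2 : ξ.2.length ≤ mx N ξ - 1 := by unfold mx; omega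
  have hn : τ.length ≤ 2 ^ (mx N ξ - 1) :=
    (Nat.lt_size_self τ.length).le.trans (Nat.pow_le_pow_right (by norm_num) (hsz.trans hM2))
  have hlong : ∀ c κ : List Bool, m < (cs ξ c κ).length := fun c κ =>
    lt_of_lt_of_le hm (length_cs ξ c κ)
  obtain ⟨Y, hY1, hY2⟩ := exists_completion hM hnd hl hn (orc s m (mx N ξ) ξ σ τ) Z
    (fun c hc κ => orc_cell (hlong c κ) (hl c hc) hc)
  refine ⟨Y, ?_, hY1, ?_⟩
  · intro z hz
    have h1 : Y z = orc s m (mx N ξ) ξ σ τ z := by
      apply hY2
      intro c hc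
      obtain ⟨_, κ, hκ⟩ := cell_eq_some_iff.1 hc
      have h2 := hlong c κ
      rw [← hκ] at h2
      omega
    rw [h1, orc_short hz]
    exact lk_of_ag hs (hs' z hz)
  · have h1 : Ag (rt (TP (join A (orc s m (mx N ξ) ξ σ τ)) w)) Y := by
      intro e he
      rw [hY2 e.1 (ht e he)]
      exact ag_rt (hTP.sound _ _) e he
    rw [hd _ _ w (join_of_rt (hTP.sound _ _) h1)]
    exact ha

end Pool.Agent.GEN42
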