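import Pool.Agent.TO42.Defs

/-!
# Cohen generic oracles: definitions
-/

set_option autoImplicit false

namespace Pool.Agent.GEN42

open N68a2faeb N793a5b8e N487b59b3 Pool.Agent.ROr14 Pool.Agent.TO42

/-- `F X` is computed in polynomial time relative to the oracle `X`, by a procedure that does not
depend on `X`. -/
def IsUniform {α β : Type} [N487b59b3 α] [N487b59b3 β] (F : (List Bool → Bool) → α → β) : Prop :=
  ∃ (p : Polynomial ℕ) (q : α × List Bool → List Bool) (g : α × List Bool → β),
    IsPolyTime q ∧ IsPolyTime g ∧
      ∀ X x, F X x = g (x, answers X q x (p.eval (bitEncode x).length))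

/-- The languages `L` such that `x ∈ L` if and only if for all oracles `Y` some string `w` of
length at most `p(|x|)` is accepted together with `x` by a fixed polynomial-time verifier with
the oracle `A ⊕ Y`. -/
def TotalOracle (A : List Bool → Bool) : DecisionComplexityClass :=
  { L | ∃ (p : Polynomial ℕ) (F : (List Bool → Bool) → List Bool × List Bool → Bool),
      IsUniform F ∧ ∀ x, L x ↔ ∀ Y : List Bool → Bool, ∃ w : List Bool,
        w.length ≤ p.eval x.length ∧ F (join A Y) (x, w) }

/-- `coNP` relative to `X`. -/
def CoNPOracle (X : List Bool → Bool) : DecisionComplexityClass :=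
  { L | (fun x => !L x) ∈ NPOracle X }

/-- Every nonempty language of `C` has a p-optimal proof system relative to `X`. -/
def AllPOptimal (X : List Bool → Bool) (C : DecisionComplexityClass) : Prop :=
  ∀ L ∈ C, (∃ y, L y = true) → HasPOptimal X L

end Pool.Agent.GEN42
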