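import Pool.Agent.GEN42.Cells
import Pool.Agent.GEN42.CondNP

/-!
# Module GEN42/ELang

The gadget language.

PROOF. Let `T` be from `exists_rtrace` for `F`, `r` a bound of `sz (T X (x, w))` (`UT.bound`), and
`N := r.comp (4 * X + 4 * p + 3)`: for `|w| ≤ p(|x|)` the list `T X (x, w)` has at most `N(|x|)` elements,
whose first components have length at most `N(|x|)` (`sz_le_of_mem`, `sz_listBool`, `length_le_sz`).
VERIFIER `FE X (s, W)`: `ξ := dc _ s`, `M := mx N ξ`, `((c, c'), (w, cells)) := dc _ W`,
`Y u := X (true :: u)`, `A u := X (false :: u)`, `tb := cells.map fun c => (ptr Y ξ M c, shr Y ξ M c)`,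
`Zc u := lk tb (emb M u)`. Accept iff `bitEncode ξ = s` and (i) `|c| = |c'| = M`, `c ≠ c'`,
`ptr Y ξ M c = ptr Y ξ M c'` or (ii) `|w| ≤ p(|ξ.1|)`, all `cells` have length `M`,
`F (join A Zc) (ξ.1, w) = true`, and `emb M e.1 ∈ tb.map Prod.fst` for all `e ∈ T (join A Zc) (ξ.1, w)`.
`UT`: `ptr`, `shr` by `UT.map` and `UT.query`; the table by `UT.map` (the map over `cells` of the functional
that computes `(ptr, shr)`), then `UT_sub` (with parameter `(tb, M)` and `t ((tb, M), u) = lk tb (emb M
u)`) composed with `UT_left`. `pE`: bounds the length of `bitEncode ((c, c'), (w, cells))` for `|c|, |c'| ≤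
M`, `|w| ≤ p(|x|)`, at most `N(|x|)` cells of length `M`, in terms of the length of `s = bitEncode (x, ρ)`
(`exists_enc_bound`, `Compat.enc.pbdd`, and `|x|, |ρ| ≤ |s|` as in `length_cs`).
(1) Let `Y` be given. If (i) holds for some `c, c'`, take `((c, c'), ([], []))`. Otherwise
`c ↦ ptr Y ξ M c` is injective on the finite set of strings of length `M`, into this set, so onto
(`Finite.injective_iff_surjective` on `List.Vector Bool M` or on the subtype). Choose an inverse `g`.
Put `Z u := shr Y ξ M (g (emb M u))` if `(emb M u).length = M`, `false` otherwise; take `w` for this `Z`,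
`cells := (T (join A Z) (x, w)).map fun e => g (emb M e.1)`. All `|e.1| ≤ N(|x|)`, so `|emb M e.1| = M`
(`length_emb`). The table `tb` agrees with `v ↦ shr Y ξ M (g v)`, hence `Zc e.1 = Z e.1 = e.2` for these
`e` (`lk_of_ag`), so by `exists_rtrace` `F (join A Zc) (x, w) = F (join A Z) (x, w) = true` and the
traces agree; the last condition holds.
(2) Let `Encodes Y ξ M Z` and let `Z` be bad. (i) contradicts the first part of `Encodes`. (ii): for
`e ∈ T (join A Zc) (x, w)`: `e.2 = Zc e.1` is the value found in `tb` for `emb M e.1`, which is `shr Y ξ M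
c` for some `c ∈ cells` with `ptr Y ξ M c = emb M e.1` (a lemma: if `z ∈ σ.map Prod.fst` then `(z, lk σ z) ∈
σ`), so `= Z e.1` by `Encodes`. Hence `F (join A Z) (x, w) = F (join A Zc) (x, w) = true`, contradiction.
-/

set_option autoImplicit false

namespace Pool.Agent.GEN42

open Pool.Agent.PT Pool.Agent.TMB67 Pool.Agent.POpt67 Pool.Agent.POpt70 Pool.Agent.ROr14
open Pool.Agent.TO42
open N68a2faeb N793a5b8e N487b59b3

/-- The table of the cells. -/
noncomputable def etb (Y : List Bool → Bool) (ξ : List Bool × List Bool) (M : ℕ)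
    (cells : List (List Bool)) : List (List Bool × Bool) :=
  cells.map fun c => (ptr Y ξ M c, shr Y ξ M c)

/-- The oracle given by a table of cells. -/
noncomputable def ezc (tb : List (List Bool × Bool)) (M : ℕ) (u : List Bool) : Bool :=
  lk tb (emb M u)

/-- The decoded input of the verifier. -/
abbrev EI : Type := (List Bool × List Bool) × ((List Bool × List Bool) × (List Bool × List (List Bool)))

/-- The verifier. -/
noncomputable def evf (N p : Polynomial ℕ) (F : (List Bool → Bool) → List Bool × List Bool → Bool)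
    (T : (List Bool → Bool) → List Bool × List Bool → List (List Bool × Bool))
    (A Y : List Bool → Bool) (a : EI) : Bool :=
  ((decide (a.2.1.1.length = mx N a.1) && decide (a.2.1.2.length = mx N a.1)) &&
    (!decide (a.2.1.1 = a.2.1.2) &&
      decide (ptr Y a.1 (mx N a.1) a.2.1.1 = ptr Y a.1 (mx N a.1) a.2.1.2))) ||
  ((decide (a.2.2.1.length ≤ p.eval a.1.1.length) &&
      a.2.2.2.all fun c => decide (c.length = mx N a.1)) &&
    (F (join A fun u => ezc (etb Y a.1 (mx N a.1) a.2.2.2) (mx N a.1) u) (a.1.1, a.2.2.1) &&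
      (T (join A fun u => ezc (etb Y a.1 (mx N a.1) a.2.2.2) (mx N a.1) u)
        (a.1.1, a.2.2.1)).all fun e =>
          decide (emb (mx N a.1) e.1 ∈ (etb Y a.1 (mx N a.1) a.2.2.2).map Prod.fst)))

private theorem evf_iff {N p : Polynomial ℕ}
    {F : (List Bool → Bool) → List Bool × List Bool → Bool}
    {T : (List Bool → Bool) → List Bool × List Bool → List (List Bool × Bool)}
    {A Y : List Bool → Bool} {a : EI} : evf N p F T A Y a = true ↔
    ((a.2.1.1.length = mx N a.1 ∧ a.2.1.2.length = mx N a.1 ∧ a.2.1.1 ≠ a.2.1.2 ∧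
      ptr Y a.1 (mx N a.1) a.2.1.1 = ptr Y a.1 (mx N a.1) a.2.1.2) ∨
    (a.2.2.1.length ≤ p.eval a.1.1.length ∧ (∀ c ∈ a.2.2.2, c.length = mx N a.1) ∧
      F (join A fun u => ezc (etb Y a.1 (mx N a.1) a.2.2.2) (mx N a.1) u) (a.1.1, a.2.2.1) = true ∧
      ∀ e ∈ T (join A fun u => ezc (etb Y a.1 (mx N a.1) a.2.2.2) (mx N a.1) u)
        (a.1.1, a.2.2.1),
          emb (mx N a.1) e.1 ∈ (etb Y a.1 (mx N a.1) a.2.2.2).map Prod.fst)) := by
  unfold evf
  simp only [Bool.or_eq_true, Bool.and_eq_true, decide_eq_true_eq, Bool.not_eq_true',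
    decide_eq_false_iff_not, List.all_eq_true, ne_eq]
  tauto

private theorem ptr_ut {α : Type} [Enc α] {ξ : α → List Bool × List Bool} {M : α → ℕ}
    {c : α → List Bool} (hξ : PolyTime ξ) (hM : PolyTime M) (hc : PolyTime c) :
    UT (fun X (a : α) => ptr (fun u => X (true :: u)) (ξ a) (M a) (c a)) := by
  have h1 : PolyTime (fun z : α × ℕ => true :: cs (ξ z.1) (c z.1) (List.replicate z.2 true)) :=
    PolyTime.cons (PolyTime.const true) (cs_polyTime (hξ.comp PolyTime.fst')
      (hc.comp PolyTime.fst') (PolyTime.replicate PolyTime.snd' (PolyTime.const true)))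
  exact (UT.map (l := fun a => List.range (M a)) (PolyTime.range hM)
    (UT.query.pre (g := fun z : α × ℕ => true :: cs (ξ z.1) (c z.1) (List.replicate z.2 true))
      h1)).congr fun X a => rfl

private theorem shr_ut {α : Type} [Enc α] {ξ : α → List Bool × List Bool} {M : α → ℕ}
    {c : α → List Bool} (hξ : PolyTime ξ) (hM : PolyTime M) (hc : PolyTime c) :
    UT (fun X (a : α) => shr (fun u => X (true :: u)) (ξ a) (M a) (c a)) :=
  (UT.query.pre (g := fun a => true :: cs (ξ a) (c a) (List.replicate (M a) true))
    (PolyTime.cons (PolyTime.const true) (cs_polyTime hξ hc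
      (PolyTime.replicate hM (PolyTime.const true))))).congr fun X a => rfl

private theorem etb_ut {α : Type} [Enc α] {ξ : α → List Bool × List Bool} {M : α → ℕ}
    {l : α → List (List Bool)} (hξ : PolyTime ξ) (hM : PolyTime M) (hl : PolyTime l) :
    UT (fun X (a : α) => etb (fun u => X (true :: u)) (ξ a) (M a) (l a)) := by
  have h1 : UT (fun X (z : α × List Bool) =>
      (ptr (fun u => X (true :: u)) (ξ z.1) (M z.1) z.2,
        shr (fun u => X (true :: u)) (ξ z.1) (M z.1) z.2)) :=
    (ptr_ut (hξ.comp PolyTime.fst') (hM.comp PolyTime.fst') PolyTime.snd').pair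
      (shr_ut (hξ.comp PolyTime.fst') (hM.comp PolyTime.fst') PolyTime.snd')
  exact (UT.map hl h1).congr fun X a => rfl

private theorem sub_ut {β : Type} [Enc β] {F : (List Bool → Bool) → List Bool × List Bool → β}
    (hF : UT F) {α : Type} [Enc α] {ξ : α → List Bool × List Bool} {M : α → ℕ}
    {l : α → List (List Bool)} {w : α → List Bool × List Bool} (hξ : PolyTime ξ)
    (hM : PolyTime M) (hl : PolyTime l) (hw : PolyTime w) :
    UT (fun X (a : α) => F (join (fun u => X (false :: u)) fun u =>
      ezc (etb (fun u => X (true :: u)) (ξ a) (M a) (l a)) (M a) u) (w a)) := by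
  have ht : PolyTime (fun z : (List (List Bool × Bool) × ℕ) × List Bool =>
      ezc z.1.1 z.1.2 z.2) := by
    unfold ezc emb
    exact lk_polyTime (PolyTime.fst PolyTime.fst') (PolyTime.cons (PolyTime.const true)
      (pad_polyTime ((PolyTime.snd PolyTime.fst').natSub (PolyTime.const 2)) PolyTime.snd'))
  have h1 := UT_left (UT_sub hF ht)
  have h2 : UT (fun X (a : α) => ((etb (fun u => X (true :: u)) (ξ a) (M a) (l a), M a), w a)) :=
    ((etb_ut hξ hM hl).pair (UT.of hM)).pair (UT.of hw)
  exact (h1.comp h2).congr fun X a => rfl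

private theorem and_ut {α : Type} [Enc α] {F G : (List Bool → Bool) → α → Bool} (hF : UT F)
    (hG : UT G) : UT (fun X a => F X a && G X a) :=
  (hF.pair hG).post (g := fun z : Bool × Bool => z.1 && z.2)
    (PolyTime.and PolyTime.fst' PolyTime.snd')

private theorem or_ut {α : Type} [Enc α] {F G : (List Bool → Bool) → α → Bool} (hF : UT F)
    (hG : UT G) : UT (fun X a => F X a || G X a) :=
  (hF.pair hG).post (g := fun z : Bool × Bool => z.1 || z.2)
    (PolyTime.or PolyTime.fst' PolyTime.snd')

private theorem evf_ut (N p : Polynomial ℕ)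
    {F : (List Bool → Bool) → List Bool × List Bool → Bool}
    {T : (List Bool → Bool) → List Bool × List Bool → List (List Bool × Bool)}
    (hF : UT F) (hT : UT T) :
    UT (fun X (a : EI) => evf N p F T (fun u => X (false :: u)) (fun u => X (true :: u)) a) := by
  have hξ : PolyTime (fun a : EI => a.1) := PolyTime.fst'
  have hM : PolyTime (fun a : EI => mx N a.1) := mx_polyTime N hξ
  have hc : PolyTime (fun a : EI => a.2.1.1) := PolyTime.fst (PolyTime.fst PolyTime.snd')
  have hc' : PolyTime (fun a : EI => a.2.1.2) := PolyTime.snd (PolyTime.fst PolyTime.snd')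
  have hw : PolyTime (fun a : EI => a.2.2.1) := PolyTime.fst (PolyTime.snd PolyTime.snd')
  have hl : PolyTime (fun a : EI => a.2.2.2) := PolyTime.snd (PolyTime.snd PolyTime.snd')
  have hxw : PolyTime (fun a : EI => (a.1.1, a.2.2.1)) :=
    PolyTime.pair (PolyTime.fst PolyTime.fst') hw
  unfold evf
  refine or_ut (and_ut ?_ (and_ut ?_ ?_)) (and_ut ?_ (and_ut ?_ ?_))
  · exact UT.of ((PolyTime.decide_eq hc.length hM).and (PolyTime.decide_eq hc'.length hM))
  · exact UT.of (PolyTime.decide_eq hc hc').not
  · exact ((ptr_ut hξ hM hc).pair (ptr_ut hξ hM hc')).post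
      (g := fun z : List Bool × List Bool => decide (z.1 = z.2))
      (PolyTime.decide_eq PolyTime.fst' PolyTime.snd')
  · refine UT.of (PolyTime.and ?_ ?_)
    · exact PolyTime.decide_le hw.length (polyEval_length p (PolyTime.fst PolyTime.fst'))
    · exact PolyTime.all hl (PolyTime.decide_eq (PolyTime.length PolyTime.snd')
        (hM.comp PolyTime.fst'))
  · exact sub_ut hF hξ hM hl hxw
  · have h1 := ((sub_ut hT hξ hM hl hxw).pair (etb_ut hξ hM hl)).pair (UT.of hM)
    refine (h1.post (g := fun z : (List (List Bool × Bool) × List (List Bool × Bool)) × ℕ =>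
      z.1.1.all fun e => decide (emb z.2 e.1 ∈ z.1.2.map Prod.fst)) ?_).congr fun X a => rfl
    refine PolyTime.all (PolyTime.fst PolyTime.fst') ?_
    refine (PolyTime.decide_mem
      (f := fun z : ((List (List Bool × Bool) × List (List Bool × Bool)) × ℕ) ×
        (List Bool × Bool) => emb z.1.2 z.2.1)
      (l := fun z => z.1.1.2.map Prod.fst) ?_ ?_).congr fun x => ?_
    · unfold emb
      exact PolyTime.cons (PolyTime.const true) (pad_polyTime
        ((PolyTime.snd PolyTime.fst').natSub (PolyTime.const 2)) (PolyTime.fst PolyTime.snd'))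
    · exact PolyTime.map (PolyTime.snd (PolyTime.fst PolyTime.fst')) (PolyTime.fst PolyTime.snd')
    · exact decide_eq_decide.2 Iff.rfl

private theorem mem_lk {σ : List (List Bool × Bool)} {z : List Bool}
    (h : z ∈ σ.map Prod.fst) : (z, lk σ z) ∈ σ := by
  induction σ with
  | nil => simp at h
  | cons e σ ih =>
    have h1 : lk (e :: σ) z = if e.1 = z then e.2 else lk σ z := rfl
    rw [h1]
    by_cases he : e.1 = z
    · rw [if_pos he, ← he]
      exact List.mem_cons_self
    · rw [if_neg he]
      rw [List.map_cons, List.mem_cons] at h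
      rcases h with h | h
      · exact absurd h.symm he
      · exact List.mem_cons_of_mem _ (ih h)

theorem exists_gadget (p : Polynomial ℕ)
    {F : (List Bool → Bool) → List Bool × List Bool → Bool} (hF : UT F) :
    ∃ (N pE : Polynomial ℕ) (FE : (List Bool → Bool) → List Bool × List Bool → Bool), UT FE ∧
      (∀ (A : List Bool → Bool) (x ρ : List Bool),
        (∀ Z : List Bool → Bool, ∃ w : List Bool, w.length ≤ p.eval x.length ∧
          F (join A Z) (x, w) = true) →
        ∀ Y : List Bool → Bool, npf pE FE (join A Y) (bitEncode (x, ρ)) = true) ∧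
      (∀ (A : List Bool → Bool) (x ρ : List Bool) (Z : List Bool → Bool),
        (∀ w : List Bool, w.length ≤ p.eval x.length → F (join A Z) (x, w) = false) →
        ∀ Y : List Bool → Bool, Encodes Y (x, ρ) (mx N (x, ρ)) Z →
          npf pE FE (join A Y) (bitEncode (x, ρ)) = false) := by
  obtain ⟨T, hT, hTag, hTeq⟩ := exists_rtrace hF
  obtain ⟨r, hr⟩ := hT.bound
  set N : Polynomial ℕ := r.comp (4 * Polynomial.X + 4 * p + 3) with hN
  -- the bound of the trace
  have hNT : ∀ (X : List Bool → Bool) (x w : List Bool), w.length ≤ p.eval x.length →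
      sz (T X (x, w)) ≤ N.eval x.length := by
    intro X x w hw
    refine (hr X (x, w)).trans ?_
    rw [hN, Polynomial.eval_comp]
    refine eval_mono r ?_
    rw [sz_prod]
    have h1 := sz_listBool x
    have h2 := sz_listBool w
    simp only [Polynomial.eval_add, Polynomial.eval_X, Polynomial.eval_mul, Polynomial.eval_ofNat]
    omega
  have hNT1 : ∀ (X : List Bool → Bool) (x w : List Bool), w.length ≤ p.eval x.length →
      ∀ e ∈ T X (x, w), e.1.length ≤ N.eval x.length := by
    intro X x w hw e he
    have h1 := sz_le_of_mem he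
    have h2 := hNT X x w hw
    rw [sz_prod] at h1
    have h3 := length_le_sz e.1
    omega
  -- the length of the witnesses
  obtain ⟨q, hq⟩ := exists_enc_bound
    (α := (List Bool × List Bool) × (List Bool × List (List Bool)))
  obtain ⟨q', hq'⟩ := exists_sz_bound (α := List Bool × List Bool)
  set PM : Polynomial ℕ := N.comp q' + q' + 3 with hPM
  set PS : Polynomial ℕ := 8 * PM + 4 * p.comp q' + N.comp q' * (4 * PM + 2) + 7 with hPS
  have hlen : ∀ (x ρ c c' w : List Bool) (cells : List (List Bool)),
      c.length ≤ mx N (x, ρ) → c'.length ≤ mx N (x, ρ) → w.length ≤ p.eval x.length →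
      cells.length ≤ N.eval x.length → (∀ c ∈ cells, c.length ≤ mx N (x, ρ)) →
      (bitEncode ((c, c'), (w, cells)) : List Bool).length ≤
        (q.comp PS).eval (bitEncode (x, ρ) : List Bool).length := by
    intro x ρ c c' w cells hc hc' hw hcl hcells
    refine (hq _).trans ?_
    rw [Polynomial.eval_comp]
    refine eval_mono q ?_
    have h1 : sz x + sz ρ + 1 ≤ q'.eval (bitEncode (x, ρ) : List Bool).length := by
      have h0 := hq' (x, ρ)
      rw [sz_prod] at h0
      exact h0
    have h2 := length_le_sz x
    have h3 := length_le_sz ρ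
    set n : ℕ := (bitEncode (x, ρ) : List Bool).length with hn
    have hx : x.length ≤ q'.eval n := by omega
    have hρ : ρ.length ≤ q'.eval n := by omega
    have hNx := eval_mono N hx
    have hpx := eval_mono p hx
    have hM : mx N (x, ρ) ≤ PM.eval n := by
      rw [hPM]
      unfold mx
      simp only [Polynomial.eval_add, Polynomial.eval_comp, Polynomial.eval_ofNat]
      omega
    have h4 : sz cells ≤ cells.length * ((4 * PM.eval n + 1) + 1) + 1 := by
      apply sz_le_of_forall
      intro c hc
      have h5 := sz_listBool c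
      have h6 := hcells c hc
      omega
    have h5 : cells.length * ((4 * PM.eval n + 1) + 1) ≤
        N.eval (q'.eval n) * (4 * PM.eval n + 2) :=
      Nat.mul_le_mul (hcl.trans hNx) (by omega)
    rw [sz_prod, sz_prod, sz_prod, hPS]
    simp only [Polynomial.eval_add, Polynomial.eval_mul, Polynomial.eval_comp,
      Polynomial.eval_ofNat]
    have h6 := sz_listBool c
    have h7 := sz_listBool c'
    have h8 := sz_listBool w
    omega
  refine ⟨N, q.comp PS, fun X z => decide (bitEncode (dc (List Bool × List Bool) z.1) = z.1) &&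
    evf N p F T (fun u => X (false :: u)) (fun u => X (true :: u))
      (dc (List Bool × List Bool) z.1,
        dc ((List Bool × List Bool) × (List Bool × List (List Bool))) z.2), ?_, ?_, ?_⟩
  · refine and_ut (UT.of ?_) ?_
    · exact PolyTime.decide_eq ((Compat.enc (α := List Bool × List Bool)).comp
        ((dc_polyTime _).comp PolyTime.fst')) PolyTime.fst'
    · exact (evf_ut N p hF hT).pre (g := fun z : List Bool × List Bool =>
        ((dc (List Bool × List Bool) z.1,
          dc ((List Bool × List Bool) × (List Bool × List (List Bool))) z.2) : EI))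
        (PolyTime.pair ((dc_polyTime _).comp PolyTime.fst') ((dc_polyTime _).comp PolyTime.snd'))
  · -- completeness
    intro A x ρ hgood Y
    rw [npf_iff]
    set M : ℕ := mx N (x, ρ) with hM
    have hsuff : ∀ W : (List Bool × List Bool) × (List Bool × List (List Bool)),
        (bitEncode W : List Bool).length ≤
          (q.comp PS).eval (bitEncode (x, ρ) : List Bool).length →
        evf N p F T A Y ((x, ρ), W) = true →
        ∃ w : List Bool, w.length ≤ (q.comp PS).eval (bitEncode (x, ρ) : List Bool).length ∧
          (decide (bitEncode (dc (List Bool × List Bool)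
            ((bitEncode (x, ρ) : List Bool), w).1) = ((bitEncode (x, ρ) : List Bool), w).1) &&
          evf N p F T (fun u => (join A Y) (false :: u)) (fun u => (join A Y) (true :: u))
            (dc (List Bool × List Bool) ((bitEncode (x, ρ) : List Bool), w).1,
              dc ((List Bool × List Bool) × (List Bool × List (List Bool)))
                ((bitEncode (x, ρ) : List Bool), w).2)) = true := by
      intro W h1 h2
      refine ⟨bitEncode W, h1, ?_⟩
      dsimp only
      rw [dc_enc, dc_enc, Bool.and_eq_true]
      exact ⟨by simp, h2⟩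
    by_cases hi : ∀ c c' : List Bool, c.length = M → c'.length = M →
        ptr Y (x, ρ) M c = ptr Y (x, ρ) M c' → c = c'
    swap
    · push_neg at hi
      obtain ⟨c, c', hc, hc', hp, hne⟩ := hi
      refine hsuff ((c, c'), ([], [])) ?_ ?_
      · exact hlen x ρ c c' [] [] hc.le hc'.le (Nat.zero_le _) (Nat.zero_le _) (by simp)
      · rw [evf_iff]
        exact Or.inl ⟨hc, hc', hne, hp⟩
    -- the pointers are a permutation of the strings of length `M`
    have hptr : ∀ c, (ptr Y (x, ρ) M c).length = M := by
      intro c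
      simp [ptr]
    have hsurj : ∀ v : List Bool, v.length = M → ∃ c : List Bool, c.length = M ∧
        ptr Y (x, ρ) M c = v := by
      have hinj : Function.Injective (fun c : List.Vector Bool M =>
          (⟨ptr Y (x, ρ) M c.1, hptr _⟩ : List.Vector Bool M)) := by
        intro c c' h
        apply Subtype.ext
        exact hi c.1 c'.1 c.2 c'.2 (congrArg Subtype.val h)
      have hs := Finite.injective_iff_surjective.1 hinj
      intro v hv
      obtain ⟨c, hc⟩ := hs ⟨v, hv⟩
      exact ⟨c.1, c.2, congrArg Subtype.val hc⟩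
    choose g hg hg' using hsurj
    classical
    -- the encoded oracle
    obtain ⟨Z, hZ⟩ : ∃ Z : List Bool → Bool, ∀ u, ∀ h : (emb M u).length = M,
        Z u = shr Y (x, ρ) M (g (emb M u) h) :=
      ⟨fun u => if h : (emb M u).length = M then shr Y (x, ρ) M (g (emb M u) h) else false,
        fun u h => dif_pos h⟩
    obtain ⟨w, hw, hFw⟩ := hgood Z
    have hemb : ∀ e ∈ T (join A Z) (x, w), (emb M e.1).length = M := by
      intro e he
      have h1 := hNT1 _ x w hw e he
      apply length_emb
      rw [hM]
      unfold mx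
      dsimp only
      omega
    set cells : List (List Bool) := (T (join A Z) (x, w)).attach.map
      (fun e => g (emb M e.1.1) (hemb e.1 e.2)) with hcells
    have hcl : cells.length ≤ N.eval x.length := by
      rw [hcells, List.length_map, List.length_attach]
      exact (length_le_sz _).trans (hNT _ x w hw)
    have hcM : ∀ c ∈ cells, c.length = M := by
      intro c hc
      rw [hcells, List.mem_map] at hc
      obtain ⟨e, -, rfl⟩ := hc
      exact hg _ _
    have htbmem : ∀ e ∈ T (join A Z) (x, w),
        emb M e.1 ∈ (etb Y (x, ρ) M cells).map Prod.fst := by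
      intro e he
      unfold etb
      rw [List.map_map, List.mem_map]
      refine ⟨g (emb M e.1) (hemb e he), ?_, hg' _ _⟩
      rw [hcells, List.mem_map]
      exact ⟨⟨e, he⟩, List.mem_attach _ _, rfl⟩
    -- the table gives the right values
    have htb : ∀ e ∈ etb Y (x, ρ) M cells, ∀ h : e.1.length = M,
        e.2 = shr Y (x, ρ) M (g e.1 h) := by
      intro e he h
      unfold etb at he
      rw [List.mem_map] at he
      obtain ⟨c, hc, rfl⟩ := he
      dsimp only at h ⊢
      have h1 : g (ptr Y (x, ρ) M c) h = c :=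
        hi _ _ (hg _ _) (hcM c hc) (hg' _ _)
      rw [h1]
    have hZc : Ag (T (join A Z) (x, w)) (fun u => ezc (etb Y (x, ρ) M cells) M u) := by
      intro e he
      change lk (etb Y (x, ρ) M cells) (emb M e.1) = e.2
      have h1 := mem_lk (htbmem e he)
      have h2 := htb _ h1 (hemb e he)
      dsimp only at h2
      rw [h2, ← hZ e.1 (hemb e he)]
      exact hTag A Z (x, w) e he
    obtain ⟨h3, h4⟩ := hTeq A Z _ (x, w) hZc
    refine hsuff (([], []), (w, cells)) ?_ ?_
    · exact hlen x ρ [] [] w cells (Nat.zero_le _) (Nat.zero_le _) hw hcl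
        (fun c hc => (hcM c hc).le)
    · rw [evf_iff]
      right
      refine ⟨hw, hcM, ?_, ?_⟩
      · change F (join A fun u => ezc (etb Y (x, ρ) M cells) M u) (x, w) = true
        rw [h3]
        exact hFw
      · intro e he
        change e ∈ T (join A fun u => ezc (etb Y (x, ρ) M cells) M u) (x, w) at he
        rw [h4] at he
        exact htbmem e he
  · -- soundness
    intro A x ρ Z hbad Y hY
    rw [← Bool.not_eq_true, npf_iff]
    rintro ⟨W, -, hW⟩
    dsimp only at hW
    rw [dc_enc, Bool.and_eq_true, evf_iff] at hW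
    obtain ⟨-, hW⟩ := hW
    set V := dc ((List Bool × List Bool) × (List Bool × List (List Bool))) W with hV
    rcases hW with ⟨h1, h2, h3, h4⟩ | ⟨h1, h2, h3, h4⟩
    · exact h3 (hY.1 _ _ h1 h2 h4)
    · change F (join A fun u => ezc (etb Y (x, ρ) (mx N (x, ρ)) V.2.2) (mx N (x, ρ)) u)
        (x, V.2.1) = true at h3
      have hag : Ag (T (join A fun u => ezc (etb Y (x, ρ) (mx N (x, ρ)) V.2.2) (mx N (x, ρ)) u)
          (x, V.2.1)) Z := by
        intro e he
        have h5 := hTag A _ (x, V.2.1) e he
        have h6 := mem_lk (h4 e he)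
        rw [← h5]
        change Z e.1 = lk (etb Y (x, ρ) (mx N (x, ρ)) V.2.2) (emb (mx N (x, ρ)) e.1)
        dsimp only at h6
        change (emb (mx N (x, ρ)) e.1, lk (etb Y (x, ρ) (mx N (x, ρ)) V.2.2)
          (emb (mx N (x, ρ)) e.1)) ∈ etb Y (x, ρ) (mx N (x, ρ)) V.2.2 at h6
        unfold etb at h6
        rw [List.mem_map] at h6
        obtain ⟨c, hc, hce⟩ := h6
        rw [Prod.mk.injEq] at hce
        have h7 := hY.2 c e.1 (h2 c hc) hce.1
        rw [← h7]
        exact hce.2
      have h5 := (hTeq A _ Z (x, V.2.1) hag).1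
      rw [h3] at h5
      rw [hbad V.2.1 h1] at h5
      exact absurd h5 Bool.false_ne_true

end Pool.Agent.GEN42
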