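import Pool.Agent.TMBridge67.Univ2

/-!
# Module GEN42/ExpProg

A program for an exponential-time function.

PROOF. Let `p1` be a program for `x ↦ (x.length, x)` (`PolyTime`, at code level with output
`code (x.length, x) = true :: (code x.length ++ code x)`) and `p2` one for `(l, x) ↦ β (x, l)`. Program:
`p1`; pop `A` (`.case .A .skip .skip .skip`); push `false` on `C`; `toCounter` (`toCounter_exec`: moves
`code n` from `A` to `n` ones on `C`); push `false`, `true` on `B`; then
`.loop .C (push D false; .loop .B (push D true; push D true); push B false; .loop .D (push B true))`,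
which doubles the counter `1^m 0` on `B` once per `true` on `C`, and removes the `false` from `C` at the
end (so `B = 1^(2^n) 0`, `C = D = []`, `A = code x`); then push `A false`; `.loop .B (push A false; push
A true)`; push `A true`. Now `A = true :: (code (2^n) ++ code x) = code (2^n, x)` because
`code m = (true, false)^m, false`. Finally `p2`. Running times: the doubling loop takes
`O(2^n)` steps, `p2` at most `P.eval (sz (2^n, x))`, all below `2 ^ (K * (n + 1)) - 1` for a suitable `K`
(a polynomial is at most `(j + 2)^k` for some `k`). Work with exact inductive lemmas for the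
inner and outer loops (`Exec` with explicit bounds).
-/

set_option autoImplicit false

namespace Pool.Agent.GEN42

open Pool.Agent.PT Pool.Agent.TMB67

theorem eval_lt_pow (Q : Polynomial ℕ) : ∃ k : ℕ, ∀ j : ℕ, 2 ≤ j → Q.eval j < j ^ k := by
  induction Q using Polynomial.induction_on' with
  | add p q hp hq =>
    obtain ⟨k, hk⟩ := hp
    obtain ⟨l, hl⟩ := hq
    refine ⟨max k l + 1, fun j hj => ?_⟩
    rw [Polynomial.eval_add]
    have h1 := hk j hj
    have h2 := hl j hj
    have h3 : j ^ k ≤ j ^ max k l := Nat.pow_le_pow_right (by omega) (le_max_left _ _)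
    have h4 : j ^ l ≤ j ^ max k l := Nat.pow_le_pow_right (by omega) (le_max_right _ _)
    calc Polynomial.eval j p + Polynomial.eval j q < j ^ max k l * 2 := by omega
      _ ≤ j ^ max k l * j := Nat.mul_le_mul_left _ hj
      _ = j ^ (max k l + 1) := (pow_succ _ _).symm
  | monomial n a =>
    refine ⟨a + n, fun j hj => ?_⟩
    rw [Polynomial.eval_monomial, pow_add]
    have h1 : a < j ^ a := lt_of_lt_of_le Nat.lt_two_pow_self (Nat.pow_le_pow_left hj a)
    exact Nat.mul_lt_mul_of_pos_right h1 (Nat.pow_pos (by omega))

/-- Moving the counter on `B` to `D`, doubled. -/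
theorem doubleUp_exec (m : ℕ) : ∀ (a c d : List Bool),
    Exec (.loop .B (.seq (.push .D true) (.push .D true)))
      ⟨a, List.replicate m true ++ [false], c, d⟩ ⟨a, [], c, List.replicate (2 * m) true ++ d⟩
      (4 * m + 1) := by
  induction m with
  | zero => intro a c d; exact Exec.loopFalse rfl
  | succ m ih =>
    intro a c d
    have h1 := ih a c (true :: true :: d)
    have h2 : Exec (.seq (.push .D true) (.push .D true))
        ⟨a, List.replicate m true ++ [false], c, d⟩
        ⟨a, List.replicate m true ++ [false], c, true :: true :: d⟩ (1 + 1 + 1) :=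
      (Exec.pushD _ _ _ _ _).seq (Exec.pushD _ _ _ _ _)
    have h3 := Exec.loopTrue (k := .B)
      (S := ⟨a, true :: (List.replicate m true ++ [false]), c, d⟩) rfl h2 h1
    have e : List.replicate (2 * m) true ++ true :: true :: d =
        List.replicate (2 * (m + 1)) true ++ d := by
      rw [show 2 * (m + 1) = 2 * m + 1 + 1 by ring, List.replicate_succ', List.replicate_succ',
        List.append_assoc, List.append_assoc]
      rfl
    rw [e] at h3
    exact h3.mono (by omega)

/-- Moving the counter on `D` back to `B`. -/
theorem moveBack_exec (m : ℕ) : ∀ (a b c : List Bool),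
    Exec (.loop .D (.push .B true))
      ⟨a, b, c, List.replicate m true ++ [false]⟩ ⟨a, List.replicate m true ++ b, c, []⟩
      (2 * m + 1) := by
  induction m with
  | zero => intro a b c; exact Exec.loopFalse rfl
  | succ m ih =>
    intro a b c
    have h1 := ih a (true :: b) c
    have h2 : Exec (.push .B true)
        ⟨a, b, c, List.replicate m true ++ [false]⟩
        ⟨a, true :: b, c, List.replicate m true ++ [false]⟩ 1 := Exec.pushB _ _ _ _ _
    have h3 := Exec.loopTrue (k := .D)
      (S := ⟨a, b, c, true :: (List.replicate m true ++ [false])⟩) rfl h2 h1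
    have e : List.replicate m true ++ true :: b = List.replicate (m + 1) true ++ b := by
      rw [List.replicate_succ', List.append_assoc]
      rfl
    rw [e] at h3
    exact h3.mono (by omega)

/-- The body of the doubling loop. -/
def dbl : Cmd := .seq (.push .D false) (.seq (.loop .B (.seq (.push .D true) (.push .D true)))
  (.seq (.push .B false) (.loop .D (.push .B true))))

theorem dbl_exec (m : ℕ) (a c : List Bool) :
    Exec dbl ⟨a, List.replicate m true ++ [false], c, []⟩
      ⟨a, List.replicate (2 * m) true ++ [false], c, []⟩ (8 * m + 7) := by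
  have h1 := Exec.pushD false a (List.replicate m true ++ [false]) c []
  have h2 := doubleUp_exec m a c [false]
  have h3 := Exec.pushB false a [] c (List.replicate (2 * m) true ++ [false])
  have h4 := moveBack_exec (2 * m) a [false] c
  exact (h1.seq (h2.seq (h3.seq h4))).mono (by omega)

/-- The doubling loop. -/
theorem dblLoop_exec (n : ℕ) : ∀ (m : ℕ) (a : List Bool),
    Exec (.loop .C dbl) ⟨a, List.replicate m true ++ [false], List.replicate n true ++ [false], []⟩
      ⟨a, List.replicate (2 ^ n * m) true ++ [false], [], []⟩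
      (8 * ((2 ^ n - 1) * m) + 8 * n + 1) := by
  induction n with
  | zero =>
    intro m a
    have h : Exec (.loop .C dbl) ⟨a, List.replicate m true ++ [false], [false], []⟩
        ⟨a, List.replicate m true ++ [false], [], []⟩ 1 := Exec.loopFalse rfl
    simpa using h
  | succ n ih =>
    intro m a
    have h1 := ih (2 * m) a
    have h2 := dbl_exec m a (List.replicate n true ++ [false])
    have h3 := Exec.loopTrue (k := .C)
      (S := ⟨a, List.replicate m true ++ [false], true :: (List.replicate n true ++ [false]), []⟩)
      rfl h2 h1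
    have e : 2 ^ n * (2 * m) = 2 ^ (n + 1) * m := by ring
    rw [e] at h3
    refine h3.mono ?_
    obtain ⟨q, hq⟩ : ∃ q, 2 ^ n = q + 1 := ⟨2 ^ n - 1, by
      have := Nat.one_le_two_pow (n := n)
      omega⟩
    rw [pow_succ, hq, show (q + 1) * 2 - 1 = 2 * q + 1 by omega, show q + 1 - 1 = q by omega]
    have e2 : q * (2 * m) = 2 * (q * m) := by ring
    have e3 : (2 * q + 1) * m = 2 * (q * m) + m := by ring
    rw [e2, e3]
    omega

theorem code_succ (m : ℕ) : code (m + 1) = true :: false :: code m := rfl

/-- Writing the counter on `B` as a number on `A`. -/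
theorem write_exec (m : ℕ) : ∀ (j : ℕ) (a c d : List Bool),
    Exec (.loop .B (.seq (.push .A false) (.push .A true)))
      ⟨code j ++ a, List.replicate m true ++ [false], c, d⟩ ⟨code (j + m) ++ a, [], c, d⟩
      (4 * m + 1) := by
  induction m with
  | zero => intro j a c d; exact Exec.loopFalse rfl
  | succ m ih =>
    intro j a c d
    have h1 := ih (j + 1) a c d
    have h2 : Exec (.seq (.push .A false) (.push .A true))
        ⟨code j ++ a, List.replicate m true ++ [false], c, d⟩
        ⟨code (j + 1) ++ a, List.replicate m true ++ [false], c, d⟩ (1 + 1 + 1) :=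
      (Exec.pushA _ _ _ _ _).seq (Exec.pushA _ _ _ _ _)
    have h3 := Exec.loopTrue (k := .B)
      (S := ⟨code j ++ a, true :: (List.replicate m true ++ [false]), c, d⟩) rfl h2 h1
    rw [show j + 1 + m = j + (m + 1) by ring] at h3
    exact h3.mono (by omega)

theorem exists_prog {β : List Bool × ℕ → Bool} (hβ : PolyTime β) :
    ∃ (r : Cmd) (K : ℕ), ∀ x : List Bool, ∃ t < 2 ^ (K * (x.length + 1)),
      Run r ⟨code x, [], [], []⟩ ⟨code (β (x, 2 ^ x.length)), [], [], []⟩ t := by
  obtain ⟨p1, P1, h1⟩ : PolyTime (fun x : List Bool => (x.length, x)) :=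
    PolyTime.pair (PolyTime.length PolyTime.id) PolyTime.id
  obtain ⟨p2, P2, h2⟩ : PolyTime (fun y : ℕ × List Bool => β (y.2, y.1)) :=
    hβ.comp (PolyTime.pair PolyTime.snd' PolyTime.fst')
  obtain ⟨k, hk⟩ := eval_lt_pow (P1 + P2 + Polynomial.C 40 * Polynomial.X + Polynomial.C 40)
  refine ⟨.seq p1 (.seq (.case .A .skip .skip .skip) (.seq (.push .C false)
    (.seq (.loop .A (.case .A .skip (.push .C true) .skip)) (.seq (.push .B false)
    (.seq (.push .B true) (.seq (.loop .C dbl) (.seq (.push .A false)
    (.seq (.loop .B (.seq (.push .A false) (.push .A true))) (.seq (.push .A true) p2))))))))),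
    5 * k, fun x => ?_⟩
  have e1 := h1 x [] [] [] []
  simp only [List.append_nil] at e1
  have e2 : Exec (.case .A .skip .skip .skip) ⟨code (x.length, x), [], [], []⟩
      ⟨code x.length ++ code x, [], [], []⟩ (1 + 1) := Exec.caseTrue rfl (Exec.skip _)
  have e3 := Exec.pushC false (code x.length ++ code x) [] [] []
  have e4 := toCounter_exec x.length (code x) [] [false] []
  have e5 := Exec.pushB false (code x) [] (List.replicate x.length true ++ [false]) []
  have e6 := Exec.pushB true (code x) [false] (List.replicate x.length true ++ [false]) []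
  have e7 := dblLoop_exec x.length 1 (code x)
  rw [mul_one, mul_one] at e7
  have e8 := Exec.pushA false (code x) (List.replicate (2 ^ x.length) true ++ [false]) [] []
  have e9 := write_exec (2 ^ x.length) 0 (code x) [] []
  rw [Nat.zero_add] at e9
  have e10 := Exec.pushA true (code (2 ^ x.length) ++ code x) [] [] []
  have e11 := h2 (2 ^ x.length, x) [] [] [] []
  simp only [List.append_nil] at e11
  obtain ⟨t, ht, hr⟩ := e1.seq (e2.seq (e3.seq (e4.seq (e5.seq (e6.seq (e7.seq (e8.seq
    (e9.seq (e10.seq e11)))))))))
  refine ⟨t, lt_of_le_of_lt ht ?_, hr⟩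
  have hn : x.length < 2 ^ x.length := Nat.lt_two_pow_self
  have hM : 2 ≤ 2 ^ (x.length + 4) := by
    calc 2 = 2 ^ 1 := rfl
      _ ≤ 2 ^ (x.length + 4) := Nat.pow_le_pow_right (by norm_num) (by omega)
  have hkM := hk _ hM
  simp only [Polynomial.eval_add, Polynomial.eval_mul, Polynomial.eval_C, Polynomial.eval_X]
    at hkM
  have hM2 : 2 ^ (x.length + 4) = 16 * 2 ^ x.length := by ring
  have hx := sz_listBool x
  have b1 : P1.eval (sz x) ≤ P1.eval (2 ^ (x.length + 4)) := eval_mono P1 (by omega)
  have b2 : P2.eval (sz ((2 ^ x.length, x) : ℕ × List Bool)) ≤ P2.eval (2 ^ (x.length + 4)) :=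
    eval_mono P2 (by
      have h3 : sz ((2 ^ x.length, x) : ℕ × List Bool) = 2 * 2 ^ x.length + 1 + sz x + 1 := by
        rw [sz_prod, sz_nat]
      rw [h3, hM2]
      omega)
  have hpow : (2 ^ (x.length + 4)) ^ k ≤ 2 ^ (5 * k * (x.length + 1)) := by
    rw [← pow_mul]
    refine Nat.pow_le_pow_right (by norm_num) ?_
    nlinarith
  refine lt_of_le_of_lt ?_ (lt_of_lt_of_le hkM hpow)
  omega

end Pool.Agent.GEN42
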