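import Pool.Agent.GEN42.Check
import Pool.Agent.GEN42.ExpProg

/-!
# Module GEN42/ExpTot

Exponential-time languages are total languages relative to any oracle.

PROOF. `exists_prog` gives `r`, `K`; `W x := K * (x.length + 1)`; `exists_check`. By `stepC_run`,
`stepC_nil` and `t ≤ 2 ^ W x - 1` the configuration at time `2 ^ W x - 1` is `([], ⟨code (β …), [], [],
[]⟩)`, and `(code b).headD false = b`. Use `mem_TotalOracle_iff` with `F X (x, w) := !C X (x, w) || a X x`
and the polynomial `p`. If `β (x, 2 ^ |x|) = true` and `Y` is given: either all short `v` pass, then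
`a (join A Y) x = true` and `w = []` works, or some short `w` fails. Conversely use the oracle `Y` for
which all checks succeed.
-/

set_option autoImplicit false

namespace Pool.Agent.GEN42

open Pool.Agent.PT Pool.Agent.TMB67 Pool.Agent.POpt67 Pool.Agent.POpt70 Pool.Agent.ROr14
open Pool.Agent.TO42
open N68a2faeb N793a5b8e N487b59b3

private theorem exptot_head (b : Bool) : (code b).headD false = b := by
  cases b <;> rfl

theorem exp_mem_total {β : List Bool × ℕ → Bool} (hβ : PolyTime β) (A : List Bool → Bool) :
    (fun x : List Bool => β (x, 2 ^ x.length)) ∈ TotalOracle A := by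
  obtain ⟨r, K, hrK⟩ := exists_prog hβ
  have hW : PolyTime (fun x : List Bool => K * (x.length + 1)) :=
    PolyTime.natMul (PolyTime.const K) ((PolyTime.length PolyTime.id).succ)
  obtain ⟨p, C, a, hC, ha, hspec⟩ := exists_check r hW
  have hval : ∀ x : List Bool,
      (stepC^[2 ^ (K * (x.length + 1)) - 1] ([r], ⟨code x, [], [], []⟩)).2.a.headD false =
        β (x, 2 ^ x.length) := by
    intro x
    obtain ⟨t, ht, hrun⟩ := hrK x
    obtain ⟨m, hm⟩ : ∃ m, 2 ^ (K * (x.length + 1)) - 1 = m + t :=
      ⟨2 ^ (K * (x.length + 1)) - 1 - t, by omega⟩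
    rw [hm, Function.iterate_add_apply, stepC_run hrun, stepC_nil]
    exact exptot_head _
  refine mem_TotalOracle_iff.2 ⟨p, fun X z => !C X z || a X z.1, ?_, fun x => ?_⟩
  · exact (hC.pair (ha.pre (g := fun z : List Bool × List Bool => z.1) PolyTime.fst')).post
      (g := fun t : Bool × Bool => !t.1 || t.2)
      (PolyTime.or (PolyTime.not PolyTime.fst') PolyTime.snd')
  · obtain ⟨⟨Y0, hY0⟩, hdet⟩ := hspec x
    constructor
    · intro hx Y
      by_cases hall : ∀ v : List Bool, v.length ≤ p.eval x.length → C (join A Y) (x, v) = true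
      · refine ⟨[], Nat.zero_le _, ?_⟩
        have h1 : a (join A Y) x = true := by
          rw [hdet A Y hall, hval x]
          exact hx
        simp only [h1, Bool.or_true]
      · simp only [not_forall] at hall
        obtain ⟨v, hv, hCv⟩ := hall
        refine ⟨v, hv, ?_⟩
        have h1 : C (join A Y) (x, v) = false := by simpa using hCv
        simp only [h1, Bool.not_false, Bool.true_or]
    · intro h
      obtain ⟨w, _, hw⟩ := h Y0
      simp only [hY0 A w, Bool.not_true, Bool.false_or] at hw
      rw [hdet A Y0 (fun v _ => hY0 A v), hval x] at hw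
      exact hw

end Pool.Agent.GEN42
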