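import Pool.Agent.GEN42.Look
import Pool.Agent.TO42.Iter

/-!
# Module GEN42/Fly

A list of cells that contains all cells met by a computation which depends on the list.

PROOF. Call `e : List Bool × Bool` unknown for `τ` (at `x`) if `e.1.headD false = true` and
`cell x e.1.tail = some c` with `c ∉ τ`. Let `t τ := T (join A (orc x τ)) x` and
`step τ := τ ++ [c]` for the cell `c` of the first unknown element of `t τ`, `step τ := τ` if there is none
(`List.find?`, `Option.casesOn`). `K A x := step^[n x] []`, `n x := r.eval (sz x)` with `r` from
`UT.bound` for `T` (so `(T X x).length ≤ n x` for all `X`, by `length_le_sz`).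
Key: let `pos τ := (t τ).findIdx (unknown for τ)`. If `pos τ < (t τ).length` then `pos τ < pos (step τ)`:
let `i = pos τ`, `τ' = τ ++ [c]`. Every `e ∈ (t τ).take i` is known for `τ`, and its answer is the same
for `join A (orc x τ')` (left questions are independent; right questions by `h1`, `h2`; `T` is
sound). By `pre`, `(t τ').take i = (t τ).take i` and `(t τ')[i]?` has the same question as `(t τ)[i]?`, whose
cell is `c ∈ τ'`; elements known for `τ` are known for `τ'`. So the first `i + 1` elements of `t τ'` are
known for `τ'`. Hence after `j` steps either `pos ≥ j` or `pos = length` (then `step τ = τ` from then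
on); with `j = n x` all elements of `t τ` are known for `τ = K A x`.
`Nodup`, `length ≤ n x`, and the elements are cells: invariants of `step`. The size of the iterates is
at most `i * (bound of sz c + 1) + 1`, where `c` is the cell of a question of size at most `r.eval (sz
x)` (`hcell.pbdd`, `sz_le_of_forall`); so `K` is `UT` by `UT_iterate`; `step` is `UT` in `(x, τ)` by
`UT_sub` (parameter `(x, τ)`) and `UT.post` (`PolyTime.find?`, `PolyTime.optionCases`).
-/

set_option autoImplicit false

namespace Pool.Agent.GEN42

open Pool.Agent.PT Pool.Agent.TMB67 Pool.Agent.POpt67 Pool.Agent.POpt70 Pool.Agent.ROr14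
open Pool.Agent.TO42
open N68a2faeb N793a5b8e N487b59b3

/-- The cell of an element, if it is not in the list. -/
private def flyU {α : Type} (cell : α → List Bool → Option (List Bool)) (x : α)
    (τ : List (List Bool)) (e : List Bool × Bool) : Option (List Bool) :=
  if e.1.headD false = true then
    Option.casesOn (motive := fun _ => Option (List Bool)) (cell x e.1.tail) none
      (fun c => if c ∈ τ then none else some c)
  else none

private theorem flyU_polyTime {α : Type} [Enc α] {cell : α → List Bool → Option (List Bool)}
    (hcell : PolyTime (fun z : α × List Bool => cell z.1 z.2)) :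
    PolyTime (fun p : (α × List (List Bool)) × (List Bool × Bool) =>
      flyU cell p.1.1 p.1.2 p.2) := by
  unfold flyU
  refine PolyTime.ite (PolyTime.decide_eq (PolyTime.headD (PolyTime.fst PolyTime.snd')
    (PolyTime.const false)) (PolyTime.const true)) ?_ (PolyTime.const none)
  refine PolyTime.optionCases (o := fun p : (α × List (List Bool)) × (List Bool × Bool) =>
    cell p.1.1 p.2.1.tail) (g := fun p c => if c ∈ p.1.2 then none else some c) ?_
    (PolyTime.const none) ?_
  · exact hcell.comp (f := fun p : (α × List (List Bool)) × (List Bool × Bool) =>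
      (p.1.1, p.2.1.tail)) (PolyTime.pair (PolyTime.fst PolyTime.fst')
      (PolyTime.tail (PolyTime.fst PolyTime.snd')))
  · have hm : PolyTime (fun x : ((α × List (List Bool)) × (List Bool × Bool)) × List Bool =>
        decide (x.2 ∈ x.1.1.2)) :=
      (PolyTime.decide_mem PolyTime.snd' (PolyTime.snd (PolyTime.fst PolyTime.fst'))).congr
        fun x => by congr 1
    exact PolyTime.ite hm (PolyTime.const none) (PolyTime.some PolyTime.snd')

private theorem flyU_eq_some {α : Type} {cell : α → List Bool → Option (List Bool)} {x : α}
    {τ : List (List Bool)} {e : List Bool × Bool} {c : List Bool} :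
    flyU cell x τ e = some c ↔ e.1.headD false = true ∧ cell x e.1.tail = some c ∧ c ∉ τ := by
  unfold flyU
  by_cases h : e.1.headD false = true
  · rw [if_pos h]
    rcases hc : cell x e.1.tail with _ | c'
    · simp
    · by_cases hm : c' ∈ τ
      · simp only [hm, if_true, reduceCtorEq, Option.some.injEq, false_iff]
        rintro ⟨-, rfl, h2⟩
        exact h2 hm
      · simp only [hm, if_false, Option.some.injEq]
        constructor
        · rintro rfl
          exact ⟨h, rfl, hm⟩
        · rintro ⟨-, rfl, -⟩
          rfl
  · rw [if_neg h]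
    simp only [reduceCtorEq, false_iff]
    rintro ⟨h1, -⟩
    exact h h1

private theorem flyU_eq_none {α : Type} {cell : α → List Bool → Option (List Bool)} {x : α}
    {τ : List (List Bool)} {e : List Bool × Bool} :
    flyU cell x τ e = none ↔
      (e.1.headD false = true → ∀ c, cell x e.1.tail = some c → c ∈ τ) := by
  rw [Option.eq_none_iff_forall_ne_some]
  constructor
  · intro h h1 c hc
    by_contra hm
    exact h c (flyU_eq_some.2 ⟨h1, hc, hm⟩)
  · intro h c hc
    obtain ⟨h1, h2, h3⟩ := flyU_eq_some.1 hc
    exact h3 (h h1 c h2)

/-- One step. -/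
private def flyS {α : Type} (T : (List Bool → Bool) → α → List (List Bool × Bool))
    (cell : α → List Bool → Option (List Bool))
    (orc : α → List (List Bool) → List Bool → Bool) (A : List Bool → Bool)
    (z : α × List (List Bool)) : List (List Bool) :=
  Option.casesOn (motive := fun _ => List (List Bool))
    ((T (join A (orc z.1 z.2)) z.1).filterMap (flyU cell z.1 z.2)).head? z.2
    (fun c => z.2 ++ [c])

private theorem flyS_UT {α : Type} [Enc α]
    {T : (List Bool → Bool) → α → List (List Bool × Bool)} (hT : UT T)
    {cell : α → List Bool → Option (List Bool)}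
    (hcell : PolyTime (fun z : α × List Bool => cell z.1 z.2))
    {orc : α → List (List Bool) → List Bool → Bool}
    (horc : PolyTime (fun z : (α × List (List Bool)) × List Bool => orc z.1.1 z.1.2 z.2)) :
    UT (flyS T cell orc) := by
  have h1 := UT_sub (γ := α × List (List Bool)) hT
    (t := fun z : (α × List (List Bool)) × List Bool => orc z.1.1 z.1.2 z.2) horc
  have h2 : UT (fun A (z : α × List (List Bool)) => T (join A (orc z.1 z.2)) z.1) :=
    (h1.pre (g := fun z : α × List (List Bool) => (z, z.1))
      (PolyTime.pair PolyTime.id PolyTime.fst')).congr fun A z => rfl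
  have h3 := (UT.of (PolyTime.id (α := α × List (List Bool)))).pair h2
  have h4 : PolyTime (fun w : (α × List (List Bool)) × List (List Bool × Bool) =>
      Option.casesOn (motive := fun _ => List (List Bool))
        (w.2.filterMap (flyU cell w.1.1 w.1.2)).head? w.1.2 (fun c => w.1.2 ++ [c])) := by
    refine PolyTime.optionCases (o := fun w : (α × List (List Bool)) × List (List Bool × Bool) =>
      (w.2.filterMap (flyU cell w.1.1 w.1.2)).head?) (g := fun w c => w.1.2 ++ [c])
      (PolyTime.head? (PolyTime.filterMap (l := fun w : (α × List (List Bool)) ×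
        List (List Bool × Bool) => w.2) (g := fun w e => flyU cell w.1.1 w.1.2 e)
        PolyTime.snd' ?_)) (PolyTime.snd PolyTime.fst') ?_
    · exact (flyU_polyTime hcell).comp (f := fun p : ((α × List (List Bool)) ×
        List (List Bool × Bool)) × (List Bool × Bool) => (p.1.1, p.2))
        (PolyTime.pair (PolyTime.fst PolyTime.fst') PolyTime.snd')
    · exact PolyTime.append (PolyTime.snd (PolyTime.fst PolyTime.fst'))
        (PolyTime.cons PolyTime.snd' (PolyTime.const []))
  exact (h3.post h4).congr fun A z => rfl

private theorem flyS_cases {α : Type} (T : (List Bool → Bool) → α → List (List Bool × Bool))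
    (cell : α → List Bool → Option (List Bool))
    (orc : α → List (List Bool) → List Bool → Bool) (A : List Bool → Bool) (x : α)
    (τ : List (List Bool)) :
    (flyS T cell orc A (x, τ) = τ ∧
      ∀ e ∈ T (join A (orc x τ)) x, flyU cell x τ e = none) ∨
    ∃ (c : List Bool) (i : ℕ) (e : List Bool × Bool), flyS T cell orc A (x, τ) = τ ++ [c] ∧
      (T (join A (orc x τ)) x)[i]? = some e ∧ flyU cell x τ e = some c ∧
      ∀ e' ∈ (T (join A (orc x τ)) x).take i, flyU cell x τ e' = none := by
  unfold flyS
  generalize T (join A (orc x τ)) x = l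
  have key : ∀ l : List (List Bool × Bool),
      ((l.filterMap (flyU cell x τ)).head? = none ∧ ∀ e ∈ l, flyU cell x τ e = none) ∨
      ∃ (c : List Bool) (i : ℕ) (e : List Bool × Bool),
        (l.filterMap (flyU cell x τ)).head? = some c ∧ l[i]? = some e ∧
        flyU cell x τ e = some c ∧ ∀ e' ∈ l.take i, flyU cell x τ e' = none := by
    intro l
    induction l with
    | nil => left; simp
    | cons a l ih =>
      rcases ha : flyU cell x τ a with _ | c
      · rw [List.filterMap_cons_none ha]
        rcases ih with ⟨h1, h2⟩ | ⟨c, i, e, h1, h2, h3, h4⟩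
        · left
          refine ⟨h1, fun e he => ?_⟩
          rcases List.mem_cons.1 he with rfl | he
          · exact ha
          · exact h2 e he
        · right
          refine ⟨c, i + 1, e, h1, by rw [List.getElem?_cons_succ]; exact h2, h3,
            fun e' he' => ?_⟩
          rw [List.take_succ_cons] at he'
          rcases List.mem_cons.1 he' with rfl | he'
          · exact ha
          · exact h4 e' he'
      · right
        rw [List.filterMap_cons_some ha]
        exact ⟨c, 0, a, rfl, rfl, ha, by simp⟩
  rcases key l with ⟨h1, h2⟩ | ⟨c, i, e, h1, h2⟩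
  · left
    simp only [h1]
    exact ⟨trivial, h2⟩
  · right
    refine ⟨c, i, e, ?_, h2⟩
    simp only [h1]

private theorem fly_step {α : Type} [Enc α]
    {T : (List Bool → Bool) → α → List (List Bool × Bool)} (hT : IsTrace T)
    {cell : α → List Bool → Option (List Bool)}
    {orc : α → List (List Bool) → List Bool → Bool}
    (h1 : ∀ x z, cell x z = none → ∀ τ τ', orc x τ z = orc x τ' z)
    (h2 : ∀ x z c, cell x z = some c → ∀ τ τ', c ∈ τ → orc x (τ ++ τ') z = orc x τ z)
    (A : List Bool → Bool) (x : α) (τ : List (List Bool)) (j : ℕ)
    (h : ∀ e ∈ (T (join A (orc x τ)) x).take j, flyU cell x τ e = none) :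
    ∀ e ∈ (T (join A (orc x (flyS T cell orc A (x, τ)))) x).take (j + 1),
      flyU cell x (flyS T cell orc A (x, τ)) e = none := by
  rcases flyS_cases T cell orc A x τ with ⟨h3, h4⟩ | ⟨c, i, e0, h3, h4, h5, h6⟩
  · rw [h3]
    intro e he
    exact h4 e (List.mem_of_mem_take he)
  · rw [h3]
    have hji : j ≤ i := by
      by_contra hc
      have hm : e0 ∈ (T (join A (orc x τ)) x).take j := by
        apply List.mem_of_getElem? (i := i)
        rw [List.getElem?_take_of_lt (by omega), h4]
      rw [h e0 hm] at h5
      simp at h5
    have hmono : ∀ e, flyU cell x τ e = none → flyU cell x (τ ++ [c]) e = none := by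
      intro e he
      rw [flyU_eq_none] at he ⊢
      intro ha c' hc'
      exact List.mem_append_left _ (he ha c' hc')
    have hag : ∀ e ∈ (T (join A (orc x τ)) x).take i, join A (orc x (τ ++ [c])) e.1 = e.2 := by
      intro e he
      rw [← hT.sound _ _ e (List.mem_of_mem_take he)]
      have hk := flyU_eq_none.1 (h6 e he)
      obtain ⟨w, b⟩ := e
      rcases w with _ | ⟨d, w⟩
      · rfl
      · cases d
        · rfl
        · change orc x (τ ++ [c]) w = orc x τ w
          rcases hc : cell x w with _ | c'
          · exact h1 x w hc _ _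
          · exact h2 x w c' hc _ _ (hk rfl c' hc)
    obtain ⟨h7, h8⟩ := hT.pre _ _ x i hag
    rw [h4, Option.map_some, Option.map_eq_some_iff] at h8
    obtain ⟨e1, h9, h10⟩ := h8
    have hall : ∀ e ∈ (T (join A (orc x (τ ++ [c]))) x).take (i + 1),
        flyU cell x (τ ++ [c]) e = none := by
      intro e he
      rw [List.take_add_one, h9, h7, Option.toList_some] at he
      rcases List.mem_append.1 he with he | he
      · exact hmono e (h6 e he)
      · rw [List.mem_singleton] at he
        subst he
        obtain ⟨h11, h12, -⟩ := flyU_eq_some.1 h5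
        rw [← h10] at h11 h12
        rw [flyU_eq_none]
        intro _ c' hc'
        rw [h12, Option.some.injEq] at hc'
        subst hc'
        exact List.mem_append_right _ (List.mem_singleton.2 rfl)
    intro e he
    exact hall e (List.mem_of_mem_take (i := j + 1)
      (by rw [List.take_take, min_eq_left (by omega)]; exact he))

theorem exists_closed {α : Type} [Enc α]
    {T : (List Bool → Bool) → α → List (List Bool × Bool)} (hT : IsTrace T)
    {cell : α → List Bool → Option (List Bool)}
    (hcell : PolyTime (fun z : α × List Bool => cell z.1 z.2))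
    {orc : α → List (List Bool) → List Bool → Bool}
    (horc : PolyTime (fun z : (α × List (List Bool)) × List Bool => orc z.1.1 z.1.2 z.2))
    (h1 : ∀ x z, cell x z = none → ∀ τ τ', orc x τ z = orc x τ' z)
    (h2 : ∀ x z c, cell x z = some c → ∀ τ τ', c ∈ τ → orc x (τ ++ τ') z = orc x τ z) :
    ∃ (K : (List Bool → Bool) → α → List (List Bool)) (n : Polynomial ℕ), UT K ∧ ∀ A x,
      (K A x).Nodup ∧ (K A x).length ≤ n.eval (sz x) ∧
      (∀ c ∈ K A x, ∃ z, cell x z = some c) ∧
      ∀ e ∈ rt (T (join A (orc x (K A x))) x), ∀ c, cell x e.1 = some c → c ∈ K A x := by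
  obtain ⟨r, hr⟩ := hT.ut.bound
  obtain ⟨r0, hr0⟩ := hcell.pbdd
  have hlen : ∀ X x, (T X x).length ≤ r.eval (sz x) := fun X x =>
    (length_le_sz _).trans (hr X x)
  -- invariants
  have hinv : ∀ (A : List Bool → Bool) (x : α) (i : ℕ),
      ((fun y => flyS T cell orc A (x, y))^[i] []).Nodup ∧
      ((fun y => flyS T cell orc A (x, y))^[i] []).length ≤ i ∧
      (∀ c ∈ (fun y => flyS T cell orc A (x, y))^[i] [], ∃ z, cell x z = some c) ∧
      (∀ c ∈ (fun y => flyS T cell orc A (x, y))^[i] [],
        sz c ≤ r0.eval (sz x + r.eval (sz x) + 1)) ∧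
      (∀ e ∈ (T (join A (orc x ((fun y => flyS T cell orc A (x, y))^[i] []))) x).take i,
        flyU cell x ((fun y => flyS T cell orc A (x, y))^[i] []) e = none) := by
    intro A x i
    induction i with
    | zero => simp
    | succ i ih =>
      rw [Function.iterate_succ_apply']
      generalize (fun y => flyS T cell orc A (x, y))^[i] [] = τ at ih
      obtain ⟨i1, i2, i3, i4, i5⟩ := ih
      refine ⟨?_, ?_, ?_, ?_, fly_step hT h1 h2 A x τ i i5⟩
      all_goals
        rcases flyS_cases T cell orc A x τ with ⟨h3, h4⟩ | ⟨c, k, e0, h3, h4, h5, h6⟩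
        all_goals rw [h3]
      · exact i1
      · rw [List.nodup_append]
        refine ⟨i1, by simp, ?_⟩
        intro a ha b hb hab
        rw [List.mem_singleton] at hb
        subst hb; subst hab
        exact (flyU_eq_some.1 h5).2.2 ha
      · omega
      · rw [List.length_append, List.length_singleton]; omega
      · exact i3
      · intro c' hc'
        rcases List.mem_append.1 hc' with hc' | hc'
        · exact i3 c' hc'
        · rw [List.mem_singleton] at hc'
          subst hc'
          exact ⟨_, (flyU_eq_some.1 h5).2.1⟩
      · exact i4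
      · intro c' hc'
        rcases List.mem_append.1 hc' with hc' | hc'
        · exact i4 c' hc'
        · rw [List.mem_singleton] at hc'
          subst hc'
          have h7 : sz (cell x e0.1.tail) ≤ r0.eval (sz (x, e0.1.tail)) := hr0 (x, e0.1.tail)
          rw [(flyU_eq_some.1 h5).2.1, sz_some, sz_prod] at h7
          have h8 : sz e0.1.tail ≤ sz e0.1 := sz_le_of_sublist (List.tail_sublist _)
          have h9 : sz e0 ≤ sz (T (join A (orc x τ)) x) :=
            sz_le_of_mem (List.mem_of_getElem? h4)
          have h10 : sz e0 = sz e0.1 + sz e0.2 + 1 := sz_prod e0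
          have h11 := hr (join A (orc x τ)) x
          have h12 := eval_mono r0 (show sz x + sz e0.1.tail + 1 ≤ sz x + r.eval (sz x) + 1 by
            omega)
          simp only at h7
          omega
  refine ⟨fun A x => (fun y => flyS T cell orc A (x, y))^[r.eval (sz x)] [], r, ?_, ?_⟩
  · refine UT_iterate (F := flyS T cell orc) (g := fun _ => ([] : List (List Bool)))
      (flyS_UT hT.ut hcell horc) (polyEval_polyTime (PolyTime.size PolyTime.id) r)
      (PolyTime.const []) (s := r * (r0.comp (Polynomial.X + r + 1) + 1) + 1) ?_
    intro X x i hi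
    obtain ⟨-, i2, -, i4, -⟩ := hinv X x i
    refine (sz_le_of_forall i4).trans ?_
    simp only [Polynomial.eval_add, Polynomial.eval_mul, Polynomial.eval_comp,
      Polynomial.eval_X, Polynomial.eval_one]
    have : ((fun y => flyS T cell orc X (x, y))^[i] []).length ≤ r.eval (sz x) := i2.trans hi
    gcongr
  · intro A x
    obtain ⟨i1, i2, i3, i4, i5⟩ := hinv A x (r.eval (sz x))
    refine ⟨i1, i2, i3, ?_⟩
    rintro ⟨z, b⟩ he c hc
    rw [List.take_of_length_le (hlen _ _)] at i5
    exact flyU_eq_none.1 (i5 _ (mem_rt.1 he)) rfl c hc

end Pool.Agent.GEN42
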