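import Pool.Agent.GEN42.Unif
import Pool.Agent.TO42.Use

/-!
# Module GEN42/Force

A finitary statement about a generic oracle is forced.

PROOF. `forced`: exactly as `residual_forced` (TO42/Residual.lean), with the cylinders
`{Y | Agr m G Y}` (the set of strings of length at most `m` is finite: `List.finite_length_le` or
similar). `forced_join`: `forced` with `exists_use` for `F`.
-/

set_option autoImplicit false

namespace Pool.Agent.GEN42

open Pool.Agent.PT Pool.Agent.TMB67 Pool.Agent.POpt67 Pool.Agent.POpt70 Pool.Agent.ROr14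
open Pool.Agent.TO42
open N68a2faeb N793a5b8e N487b59b3

/-- `Y` agrees with `G` on the strings of length at most `n`. -/
def Agr (n : ℕ) (G Y : List Bool → Bool) : Prop := ∀ w : List Bool, w.length ≤ n → Y w = G w

theorem Agr.mono {m n : ℕ} {G Y : List Bool → Bool} (h : Agr n G Y) (hm : m ≤ n) : Agr m G Y :=
  fun w hw => h w (hw.trans hm)

theorem isOpen_agr (m : ℕ) (G : List Bool → Bool) :
    IsOpen {Y : List Bool → Bool | Agr m G Y} := by
  have h1 : {Y : List Bool → Bool | Agr m G Y} =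
      Set.pi {w : List Bool | w.length ≤ m} (fun w => ({G w} : Set Bool)) := by
    ext Y
    simp [Set.mem_pi, Agr]
  rw [h1]
  exact isOpen_set_pi (List.finite_length_le Bool m) (fun j _ => isOpen_discrete _)

theorem forced {β : Type} (Ψ : (List Bool → Bool) → β → Prop)
    (hΨ : ∀ G x, ∃ K, ∀ Y, Agr K G Y → (Ψ Y x ↔ Ψ G x)) :
    ∀ᶠ G in residual (List Bool → Bool), (∃ m, ∀ Y, Agr m G Y → ∀ x, Ψ Y x) ∨
      ∃ x, ¬ Ψ G x := by
  classical
  have hopen : IsOpen {G : List Bool → Bool | (∃ m, ∀ Y, Agr m G Y → ∀ x, Ψ Y x) ∨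
      ∃ x, ¬ Ψ G x} := by
    rw [isOpen_iff_forall_mem_open]
    rintro G (⟨m, hm⟩ | ⟨x, hx⟩)
    · refine ⟨{Y | Agr m G Y}, ?_, isOpen_agr m G, fun w _ => rfl⟩
      intro Y hY
      refine Or.inl ⟨m, fun Z hZ => hm Z ?_⟩
      intro w hw
      rw [hZ w hw, hY w hw]
    · obtain ⟨K, hK⟩ := hΨ G x
      refine ⟨{Y | Agr K G Y}, ?_, isOpen_agr K G, fun w _ => rfl⟩
      intro Y hY
      exact Or.inr ⟨x, fun h => hx ((hK Y hY).1 h)⟩
  have hdense : Dense {G : List Bool → Bool | (∃ m, ∀ Y, Agr m G Y → ∀ x, Ψ Y x) ∨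
      ∃ x, ¬ Ψ G x} := by
    rw [dense_iff_inter_open]
    rintro U hU ⟨G, hG⟩
    obtain ⟨I, u, h2, h3⟩ := isOpen_pi_iff.1 hU G hG
    obtain ⟨m, hm⟩ : ∃ m : ℕ, ∀ w ∈ I, w.length ≤ m :=
      ⟨I.sup List.length, fun w hw => Finset.le_sup (f := List.length) hw⟩
    have hsub : ∀ Y, Agr m G Y → Y ∈ U := by
      intro Y hY
      apply h3
      intro w hw
      rw [hY w (hm w hw)]
      exact (h2 w hw).2
    by_cases hV : ∀ Y, Agr m G Y → ∀ x, Ψ Y x
    · exact ⟨G, hG, Or.inl ⟨m, hV⟩⟩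
    · simp only [not_forall] at hV
      obtain ⟨Y, hY, x, hx⟩ := hV
      exact ⟨Y, hsub Y hY, Or.inr ⟨x, hx⟩⟩
  exact residual_of_dense_open hopen hdense

/-- A functional relative to `A ⊕ Y` has finite use in `Y`. -/
theorem use_join {α β : Type} [Enc α] [Enc β] {F : (List Bool → Bool) → α → β} (hF : UT F)
    (A G : List Bool → Bool) (x : α) :
    ∃ K, ∀ Y, Agr K G Y → F (join A Y) x = F (join A G) x := by
  obtain ⟨U, hU⟩ := exists_use hF
  refine ⟨U.eval (sz x), fun Y hY => hU _ _ x ?_⟩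
  intro w hw
  rcases w with _ | ⟨b, w⟩
  · rfl
  · have hw' : w.length ≤ U.eval (sz x) := by
      rw [List.length_cons] at hw
      omega
    cases b
    · rfl
    · exact hY w hw'

end Pool.Agent.GEN42
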