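import Pool.Agent.GEN42.Sys
import Pool.Agent.GEN42.Cells
import Pool.Agent.TO42.Run

/-!
# Module GEN42/KMT

A language without optimal proof systems (Köbler, Messner and Torán), relative to any oracle.

PROOF. For `x` let `((a, b), u) = dc ((List Bool × List Bool) × List Bool) x`, `i = |a|`, `j = |b|`, and
`β X (x, l) := decide (guardn (ix i).2.1.1 y.length l ∧ guardn (ix i).2.1.2 y.length l ∧ run X (i, l, y) =
x)` with `y := run X (j, l, x)`. It is `UT` (`run_UT`, `guardn_polyTime`, `ix_polyTime`).
`L x := !β A (x, 2 ^ x.length)`.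
NONEMPTY: let `i` be an index (`exists_index`, with `U = 0`, `c = fun _ => 0`, `m = 0`) of the constant
functional `[]`, `x = bitEncode ((ones i, []), [])` (`List.replicate i true`). If `β A (x, l) = true` then
`run A (i, l, y) = x` and the guards hold, so `x = []`; but `bitEncode` of a pair is not empty
(it contains `delimit _`, which ends with `false`).
NO OPTIMAL SYSTEM: let `P = PF A`, `UT PF` (`exists_UT`), be optimal, `i` its index. Claim: for all
`b u`, `x = bitEncode ((ones i, b), u)` is in `L`. Otherwise `β A (x, l) = true`, so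
`PF A y = run A (i, l, y) = x` by the guards and `x ∈ L` since `P` is sound, contradiction. So
`S v := bitEncode ((ones i, b), u)`, `(b, u) = dc _ v`, is a sound function, and by `sim_all` there is
`h` with `PF A (h v) = S v`. The function `x ↦ h (bitEncode (b, u))`, `((a, b), u) = dc _ x`, is
polynomial time relative to `A`; let `HF` be a `UT` functional (`exists_UT`) and `j` its index. Let
`u = List.replicate n true`, `x = bitEncode ((ones i, ones j), u)`, `l = 2 ^ x.length`,
`Nat.log 2 l = x.length ≥ n`. For large `n` the conditions `C * (Nat.size |x| + 1) ≤ Nat.log 2 l` for `j` and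
`C' * (Nat.size |HF A x| + 1) ≤ Nat.log 2 l` for `i` hold, because `|x|` and `|HF A x|` are polynomially
bounded in `n` (a logarithm of a polynomial is eventually smaller than `n`; see the growth lemmas
used in TO42/Hard, TO42/Sound). By `exists_index` (`Val` contains the guards) `run A (j, l, x) = HF A x =
h (bitEncode (ones j, u)) =: y` and `run A (i, l, y) = PF A y = S (bitEncode (ones j, u)) = x`, with the
guards for `i` at `y`. So `β A (x, l) = true`, contradicting the claim.
-/

set_option autoImplicit false

namespace Pool.Agent.GEN42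

open Pool.Agent.PT Pool.Agent.TMB67 Pool.Agent.POpt67 Pool.Agent.POpt70 Pool.Agent.ROr14
open Pool.Agent.TO42
open N68a2faeb N793a5b8e N487b59b3

namespace KMT

/-- The parts of an instance. -/
noncomputable abbrev D3 (x : List Bool) : (List Bool × List Bool) × List Bool :=
  dc ((List Bool × List Bool) × List Bool) x

/-- The value of the second program. -/
noncomputable def yv (X : List Bool → Bool) (z : List Bool × ℕ) : List Bool :=
  run X ((D3 z.1).1.2.length, z.2, z.1)

/-- The test. -/
noncomputable def bt (X : List Bool → Bool) (z : List Bool × ℕ) : Bool :=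
  decide ((guardn (ix (D3 z.1).1.1.length).2.1.1 (yv X z).length z.2 ∧
    guardn (ix (D3 z.1).1.1.length).2.1.2 (yv X z).length z.2) ∧
    run X ((D3 z.1).1.1.length, z.2, yv X z) = z.1)

private theorem ix_polyTime' {α : Type} [Enc α] {i : α → ℕ} (hi : PolyTime i) :
    PolyTime (fun z => ix (i z)) := by
  have h := n5_polyTime hi
  have h2 := PolyTime.snd h
  have h3 := PolyTime.snd h2
  have h4 := PolyTime.snd h3
  exact PolyTime.pair (PolyTime.pair (PolyTime.fst h) (PolyTime.fst h2))
    (PolyTime.pair (PolyTime.pair (PolyTime.fst h3) (PolyTime.fst h4)) (PolyTime.snd h4))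

theorem D3_polyTime {α : Type} [Enc α] {x : α → List Bool} (hx : PolyTime x) :
    PolyTime (fun z => D3 (x z)) :=
  (dc_polyTime _).comp hx

theorem yv_UT : UT yv :=
  run_UT.pre (g := fun z : List Bool × ℕ => ((D3 z.1).1.2.length, z.2, z.1))
    (PolyTime.pair (PolyTime.snd (PolyTime.fst (D3_polyTime PolyTime.fst'))).length
      (PolyTime.pair PolyTime.snd' PolyTime.fst'))

theorem bt_UT : UT bt := by
  have h1 : UT (fun X (z : List Bool × ℕ) => run X ((D3 z.1).1.1.length, z.2, yv X z)) :=
    run_UT.comp (F := fun X (z : List Bool × ℕ) => ((D3 z.1).1.1.length, z.2, yv X z))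
      ((UT.of (f := fun z : List Bool × ℕ => (D3 z.1).1.1.length)
        (PolyTime.fst (PolyTime.fst (D3_polyTime PolyTime.fst'))).length).pair
        ((UT.of (f := fun z : List Bool × ℕ => z.2) PolyTime.snd').pair yv_UT))
  have h2 : UT (fun X (z : List Bool × ℕ) => (z, yv X z,
      run X ((D3 z.1).1.1.length, z.2, yv X z))) :=
    (UT.of (PolyTime.id (α := List Bool × ℕ))).pair (yv_UT.pair h1)
  refine (h2.post (g := fun w : (List Bool × ℕ) × List Bool × List Bool =>
    decide ((guardn (ix (D3 w.1.1).1.1.length).2.1.1 w.2.1.length w.1.2 ∧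
    guardn (ix (D3 w.1.1).1.1.length).2.1.2 w.2.1.length w.1.2) ∧ w.2.2 = w.1.1)) ?_).congr
    fun X z => rfl
  have h3 : PolyTime (fun w : (List Bool × ℕ) × List Bool × List Bool =>
      ix (D3 w.1.1).1.1.length) :=
    ix_polyTime' (PolyTime.fst (PolyTime.fst (D3_polyTime (PolyTime.fst PolyTime.fst')))).length
  have h4 : PolyTime (fun w : (List Bool × ℕ) × List Bool × List Bool => w.2.1.length) :=
    (PolyTime.fst PolyTime.snd').length
  have h5 : PolyTime (fun w : (List Bool × ℕ) × List Bool × List Bool => w.1.2) :=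
    PolyTime.snd PolyTime.fst'
  exact PolyTime.decide_and
    (P := fun w : (List Bool × ℕ) × List Bool × List Bool =>
      guardn (ix (D3 w.1.1).1.1.length).2.1.1 w.2.1.length w.1.2 ∧
      guardn (ix (D3 w.1.1).1.1.length).2.1.2 w.2.1.length w.1.2)
    (Q := fun w => w.2.2 = w.1.1)
    (PolyTime.decide_and
      (guardn_polyTime (PolyTime.fst (PolyTime.fst (PolyTime.snd h3))) h4 h5)
      (guardn_polyTime (PolyTime.snd (PolyTime.fst (PolyTime.snd h3))) h4 h5))
    (PolyTime.decide_eq (PolyTime.snd PolyTime.snd') (PolyTime.fst PolyTime.fst'))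

/-- An instance. -/
def inst (i : ℕ) (b u : List Bool) : List Bool :=
  bitEncode ((List.replicate i true, b), u)

theorem D3_inst (i : ℕ) (b u : List Bool) :
    D3 (inst i b u) = ((List.replicate i true, b), u) := dc_enc _

theorem inst_ne_nil (i : ℕ) (b u : List Bool) : inst i b u ≠ [] := by
  intro h
  have h1 : (inst i b u).length = 2 * (bitEncode (List.replicate i true, b) : List Bool).length
      + 1 + (bitEncode u : List Bool).length := by
    change (delimit (bitEncode (List.replicate i true, b)) ++ bitEncode u).length = _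
    rw [List.length_append, length_delimit]
  rw [h, List.length_nil] at h1
  omega

theorem le_length_inst (i n : ℕ) (b : List Bool) :
    n ≤ (inst i b (List.replicate n true)).length := by
  have h1 : (inst i b (List.replicate n true)).length =
      2 * (bitEncode (List.replicate i true, b) : List Bool).length
      + 1 + (bitEncode (List.replicate n true) : List Bool).length := by
    change (delimit (bitEncode (List.replicate i true, b)) ++
      bitEncode (List.replicate n true)).length = _
    rw [List.length_append, length_delimit]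
  have h2 : (List.replicate n true).length ≤
      (bitEncode (List.replicate n true) : List Bool).length := by
    change _ ≤ ((((List.replicate n true).map bitEncode).map delimit).flatten).length
    have := length_le_length_flatten_delimit ((List.replicate n true).map bitEncode)
    simpa using this
  rw [List.length_replicate] at h2
  omega

/-- What a positive test means. -/
theorem bt_iff {X : List Bool → Bool} {i : ℕ} {b u : List Bool} {l : ℕ} :
    bt X (inst i b u, l) = true ↔
      (guardn (ix i).2.1.1 (run X (b.length, l, inst i b u)).length l ∧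
        guardn (ix i).2.1.2 (run X (b.length, l, inst i b u)).length l) ∧
        run X (i, l, run X (b.length, l, inst i b u)) = inst i b u := by
  unfold bt
  rw [decide_eq_true_iff]
  have h1 : yv X (inst i b u, l) = run X (b.length, l, inst i b u) := by
    unfold yv
    rw [D3_inst]
  rw [h1]
  simp only [D3_inst, List.length_replicate]

/-- Polynomials are small. -/
theorem growth (Q : Polynomial ℕ) (C : ℕ) : ∃ n, C * (Nat.size (Q.eval n) + 1) ≤ n := by
  obtain ⟨a, ha⟩ := exists_pow_bound Q
  set K := C * (a + 3) with hK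
  set k := 2 * (K + 4) with hk
  refine ⟨2 ^ k - 1, ?_⟩
  have hpos : 1 ≤ 2 ^ k := Nat.one_le_two_pow
  have h1 : Nat.size (2 ^ k - 1) ≤ k := Nat.size_le.2 (by omega)
  have h2 : Q.eval (2 ^ k - 1) ≤ (2 ^ (k + 1)) ^ (a + 1) := by
    refine (ha _).trans (Nat.pow_le_pow_left ?_ _)
    rw [pow_succ]
    omega
  have h3 : Nat.size (Q.eval (2 ^ k - 1)) ≤ (k + 1) * (a + 1) + 1 := by
    refine size_le_of_lt_pow (h2.trans_lt ?_)
    rw [← pow_mul]
    exact Nat.pow_lt_pow_right (by norm_num) (by omega)
  have h4 : Nat.size (Q.eval (2 ^ k - 1)) + 1 ≤ (a + 3) * (k + 1) := by nlinarith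
  have h5 : C * (Nat.size (Q.eval (2 ^ k - 1)) + 1) ≤ K * (k + 1) := by
    calc _ ≤ C * ((a + 3) * (k + 1)) := Nat.mul_le_mul_left _ h4
      _ = K * (k + 1) := by rw [hK]; ring
  have h6 : K + 5 ≤ 2 ^ (K + 4) := Nat.lt_two_pow_self
  have h6' : 16 * (K + 1) ≤ 2 ^ (K + 4) := by
    have : K + 1 ≤ 2 ^ K := Nat.lt_two_pow_self
    rw [pow_add]
    omega
  have h7 : 2 ^ k = 2 ^ (K + 4) * 2 ^ (K + 4) := by rw [hk, two_mul, pow_add]
  have h8 : K * (k + 1) + 1 ≤ 2 ^ k := by
    rw [h7, hk]
    have := Nat.mul_le_mul h6' h6'
    nlinarith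
  omega

end KMT

theorem kmt (A : List Bool → Bool) :
    ∃ β : (List Bool → Bool) → List Bool × ℕ → Bool, UT β ∧
      (∃ y : List Bool, (!β A (y, 2 ^ y.length)) = true) ∧
      ¬ HasPOptimal A (fun x => !β A (x, 2 ^ x.length)) := by
  refine ⟨KMT.bt, KMT.bt_UT, ?_, ?_⟩
  · obtain ⟨i, -, hrun, -⟩ := exists_index (F := fun _ _ => ([] : List Bool))
      (UT.of (PolyTime.const (α := List Bool) ([] : List Bool))) 0 (fun _ => 0) 0
    refine ⟨KMT.inst i [] [], ?_⟩
    by_contra hb
    rw [Bool.not_eq_true', Bool.not_eq_false, KMT.bt_iff] at hb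
    obtain ⟨⟨h1, h2⟩, h3⟩ := hb
    rw [hrun _ _ _ h1 h2] at h3
    exact KMT.inst_ne_nil i [] [] h3.symm
  · rintro ⟨P, hP, hopt⟩
    obtain ⟨FP, hFP, eP⟩ := IsPolyTimeOracle.exists_UT hP.1
    obtain ⟨i, -, hrun, C, hC⟩ := exists_index hFP 0 (fun _ => 0) 0
    have claim : ∀ b u, (!KMT.bt A (KMT.inst i b u, 2 ^ (KMT.inst i b u).length)) = true := by
      intro b u
      by_contra hb
      have hb' := hb
      rw [Bool.not_eq_true', Bool.not_eq_false, KMT.bt_iff] at hb'
      obtain ⟨⟨h1, h2⟩, h3⟩ := hb'
      rw [hrun _ _ _ h1 h2, eP] at h3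
      exact hb ((hP.2 (KMT.inst i b u)).2 ⟨_, h3⟩)
    have hS : UT (fun (_ : List Bool → Bool) (v : List Bool) =>
        KMT.inst i (dc (List Bool × List Bool) v).1 (dc (List Bool × List Bool) v).2) := by
      refine UT.of ?_
      unfold KMT.inst
      have h1 := dc_polyTime (List Bool × List Bool)
      exact (Compat.enc (α := (List Bool × List Bool) × List Bool)).comp
        (PolyTime.pair (PolyTime.pair (PolyTime.const _) (PolyTime.fst h1)) (PolyTime.snd h1))
    obtain ⟨h, hh, hPh⟩ := sim_all hP hopt (UT.isPolyTimeOracle hS A) (fun v => claim _ _)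
    obtain ⟨H, hH, eH⟩ := IsPolyTimeOracle.exists_UT hh
    have hHF : UT (fun X (x : List Bool) =>
        H X (bitEncode ((KMT.D3 x).1.2, (KMT.D3 x).2))) := by
      refine hH.pre (g := fun x : List Bool => bitEncode ((KMT.D3 x).1.2, (KMT.D3 x).2)) ?_
      have h1 := KMT.D3_polyTime (PolyTime.id (α := List Bool))
      exact (Compat.enc (α := List Bool × List Bool)).comp
        (PolyTime.pair (PolyTime.snd (PolyTime.fst h1)) (PolyTime.snd h1))
    obtain ⟨j, -, hrun', C', hC'⟩ := exists_index hHF 0 (fun _ => 0) 0
    -- the sizes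
    have hx : UT (fun (_ : List Bool → Bool) (n : ℕ) =>
        KMT.inst i (List.replicate j true) (List.replicate n true)) := by
      refine UT.of ?_
      unfold KMT.inst
      exact (Compat.enc (α := (List Bool × List Bool) × List Bool)).comp
        (PolyTime.pair (PolyTime.const _) (PolyTime.replicate PolyTime.id (PolyTime.const true)))
    obtain ⟨q, hq⟩ := hx.bound
    obtain ⟨r, hr⟩ := (hHF.comp hx).bound
    obtain ⟨n, hn⟩ := KMT.growth ((q + r).comp (2 * Polynomial.X + 1)) (C + C')
    simp only [Polynomial.eval_comp, Polynomial.eval_add, Polynomial.eval_mul,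
      Polynomial.eval_X, Polynomial.eval_ofNat, Polynomial.eval_one] at hn
    have hq' := hq A n
    have hr' := hr A n
    rw [sz_nat] at hq' hr'
    set x := KMT.inst i (List.replicate j true) (List.replicate n true) with hxdef
    set y := H A (bitEncode ((KMT.D3 x).1.2, (KMT.D3 x).2)) with hy
    have hlx : x.length ≤ q.eval (2 * n + 1) + r.eval (2 * n + 1) :=
      (length_le_sz x).trans (hq'.trans (Nat.le_add_right _ _))
    have hly : y.length ≤ q.eval (2 * n + 1) + r.eval (2 * n + 1) :=
      (length_le_sz y).trans (hr'.trans (Nat.le_add_left _ _))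
    have hnx : n ≤ x.length := KMT.le_length_inst _ _ _
    have hlog : Nat.log 2 (2 ^ x.length) = x.length := Nat.log_pow (by norm_num) _
    have e1 : run A (j, 2 ^ x.length, x) = y := by
      have hV := hC' A (2 ^ x.length) x (by
        rw [hlog]
        refine le_trans ?_ (hn.trans hnx)
        exact Nat.mul_le_mul (Nat.le_add_left _ _) (Nat.succ_le_succ (Nat.size_le_size hlx)))
      exact hrun' A _ x hV.1.1 hV.1.2
    have hV := hC A (2 ^ x.length) y (by
        rw [hlog]
        refine le_trans ?_ (hn.trans hnx)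
        exact Nat.mul_le_mul (Nat.le_add_right _ _) (Nat.succ_le_succ (Nat.size_le_size hly)))
    have e2 : run A (i, 2 ^ x.length, y) = x := by
      rw [hrun A _ y hV.1.1 hV.1.2, eP, hy, hxdef, KMT.D3_inst, eH]
      simp only
      rw [hPh]
      rw [dc_enc]
    have hfin : KMT.bt A (x, 2 ^ x.length) = true := by
      rw [hxdef, KMT.bt_iff, List.length_replicate, ← hxdef, e1]
      exact ⟨hV.1, e2⟩
    have := claim (List.replicate j true) (List.replicate n true)
    rw [← hxdef, hfin] at this
    exact absurd this (by simp)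

end Pool.Agent.GEN42
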