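import Pool.Agent.GEN42.Trace
import Pool.Agent.GEN42.Force

/-!
# Module GEN42/Look

Finite tables for the right half of the oracle.

PROOF. `lk_polyTime`: `PolyTime.foldr` (or `foldr_add`) with `PolyTime.ite`, `PolyTime.decide_eq`.
`rt_polyTime`: `PolyTime.filterMap`. `UT_ag`: `UT.map` with `UT.query` applied to the first
components, then `PolyTime.zip`/`all` (`fun X σ => decide (∀ e ∈ σ, X e.1 = e.2)`). `exists_tb`: the
set of strings of length `≤ n` is finite; `σ` = its list mapped by `z ↦ (z, G z)`. `lk_append_of_mem`: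
induction on `σ`; `agr_lk_append` from it and `lk_of_ag`.
`UT_sub`: `UT_subst` (TO42/Subst.lean) with `ρ = tail` and `v` the case distinction, exactly as
`UT_par` in TO42/Tal.lean. `UT_right`: as `UT_left`. `exists_rtrace`: `exists_trace`, `rt`,
`ag_rt`, `join_of_rt`, `IsTrace.eq`.
-/

set_option autoImplicit false

namespace Pool.Agent.GEN42

open Pool.Agent.PT Pool.Agent.TMB67 Pool.Agent.POpt67 Pool.Agent.POpt70 Pool.Agent.ROr14
open Pool.Agent.TO42
open N68a2faeb N793a5b8e N487b59b3

variable {α β γ : Type} [Enc α] [Enc β] [Enc γ]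

/-- The value of a table. -/
def lk (σ : List (List Bool × Bool)) (z : List Bool) : Bool :=
  σ.foldr (fun e r => if e.1 = z then e.2 else r) false

/-- `Y` agrees with the table. -/
def Ag (σ : List (List Bool × Bool)) (Y : List Bool → Bool) : Prop := ∀ e ∈ σ, Y e.1 = e.2

instance (σ : List (List Bool × Bool)) (Y : List Bool → Bool) : Decidable (Ag σ Y) := by
  unfold Ag; infer_instance

/-- The questions to the right half. -/
def rt (σ : List (List Bool × Bool)) : List (List Bool × Bool) :=
  σ.filterMap fun e => if e.1.headD false = true then some (e.1.tail, e.2) else none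

private theorem look_lk_cons (e : List Bool × Bool) (σ : List (List Bool × Bool))
    (z : List Bool) : lk (e :: σ) z = if e.1 = z then e.2 else lk σ z := rfl

theorem lk_of_ag {σ : List (List Bool × Bool)} {Y : List Bool → Bool} {z : List Bool}
    (h : Ag σ Y) (hz : z ∈ σ.map Prod.fst) : lk σ z = Y z := by
  induction σ with
  | nil => simp at hz
  | cons e σ ih =>
    rw [look_lk_cons]
    by_cases he : e.1 = z
    · rw [if_pos he, ← he]
      exact (h e (List.mem_cons_self)).symm
    · rw [if_neg he]
      refine ih (fun e' he' => h e' (List.mem_cons_of_mem _ he')) ?_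
      rw [List.map_cons, List.mem_cons] at hz
      rcases hz with hz | hz
      · exact absurd hz.symm he
      · exact hz

theorem lk_of_not_mem {σ : List (List Bool × Bool)} {z : List Bool}
    (hz : z ∉ σ.map Prod.fst) : lk σ z = false := by
  induction σ with
  | nil => rfl
  | cons e σ ih =>
    rw [List.map_cons, List.mem_cons, not_or] at hz
    rw [look_lk_cons, if_neg (fun h => hz.1 h.symm)]
    exact ih hz.2

theorem mem_rt {σ : List (List Bool × Bool)} {z : List Bool} {b : Bool} :
    (z, b) ∈ rt σ ↔ (true :: z, b) ∈ σ := by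
  unfold rt
  rw [List.mem_filterMap]
  constructor
  · rintro ⟨⟨w, c⟩, he, h⟩
    rcases w with _ | ⟨d, w⟩
    · simp at h
    · cases d
      · simp at h
      · simp only [List.headD_cons, if_true, List.tail_cons, Option.some.injEq,
          Prod.mk.injEq] at h
        obtain ⟨rfl, rfl⟩ := h
        exact he
  · intro h
    exact ⟨(true :: z, b), h, by simp⟩

/-- Truth of a trace in `A ⊕ Y'` can be seen from the right half. -/
theorem join_of_rt {A Y Y' : List Bool → Bool} {σ : List (List Bool × Bool)}
    (h : ∀ e ∈ σ, join A Y e.1 = e.2) (h' : Ag (rt σ) Y') : ∀ e ∈ σ, join A Y' e.1 = e.2 := by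
  rintro ⟨w, b⟩ he
  have h1 := h _ he
  rcases w with _ | ⟨d, w⟩
  · exact h1
  · cases d
    · exact h1
    · exact h' (w, b) (mem_rt.2 he)

theorem ag_rt {A Y : List Bool → Bool} {σ : List (List Bool × Bool)}
    (h : ∀ e ∈ σ, join A Y e.1 = e.2) : Ag (rt σ) Y := by
  rintro ⟨z, b⟩ he
  exact h _ (mem_rt.1 he)

/-- A table containing all strings of length at most `n`. -/
theorem exists_tb (G : List Bool → Bool) (n : ℕ) :
    ∃ σ, Ag σ G ∧ (∀ z : List Bool, z.length ≤ n → z ∈ σ.map Prod.fst) ∧
      ∀ Y, Ag σ Y → Agr n G Y := by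
  have hfin : {l : List Bool | l.length ≤ n}.Finite := List.finite_length_le Bool n
  have hmem : ∀ z : List Bool, z.length ≤ n → z ∈ hfin.toFinset.toList := by
    intro z hz
    rw [Finset.mem_toList, Set.Finite.mem_toFinset]
    exact hz
  refine ⟨hfin.toFinset.toList.map fun z => (z, G z), ?_, ?_, ?_⟩
  · intro e he
    rw [List.mem_map] at he
    obtain ⟨z, _, rfl⟩ := he
    rfl
  · intro z hz
    rw [List.map_map, List.mem_map]
    exact ⟨z, hmem z hz, rfl⟩
  · intro Y hY w hw
    exact hY (w, G w) (List.mem_map.2 ⟨w, hmem w hw, rfl⟩)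

private theorem look_lk_append {σ τ : List (List Bool × Bool)} {z : List Bool}
    (hz : z ∈ σ.map Prod.fst) : lk (σ ++ τ) z = lk σ z := by
  induction σ with
  | nil => simp at hz
  | cons e σ ih =>
    rw [List.cons_append, look_lk_cons, look_lk_cons]
    by_cases he : e.1 = z
    · rw [if_pos he, if_pos he]
    · rw [if_neg he, if_neg he]
      refine ih ?_
      rw [List.map_cons, List.mem_cons] at hz
      rcases hz with hz | hz
      · exact absurd hz.symm he
      · exact hz

/-- Adding a true table does not destroy agreement. -/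
theorem agr_lk_append {G : List Bool → Bool} {σ τ : List (List Bool × Bool)} {n : ℕ}
    (hσ : Ag σ G) (h : ∀ z : List Bool, z.length ≤ n → z ∈ σ.map Prod.fst) :
    Agr n G (lk (σ ++ τ)) := by
  intro w hw
  rw [look_lk_append (h w hw)]
  exact lk_of_ag hσ (h w hw)

theorem agr_lk {G : List Bool → Bool} {σ : List (List Bool × Bool)} {n : ℕ}
    (hσ : Ag σ G) (h : ∀ z : List Bool, z.length ≤ n → z ∈ σ.map Prod.fst) :
    Agr n G (lk σ) :=
  fun w hw => lk_of_ag hσ (h w hw)

/-- The value of a table is determined by its initial part, if the question is found there. -/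
theorem lk_append_of_mem {σ τ : List (List Bool × Bool)} {z : List Bool}
    (hz : z ∈ σ.map Prod.fst) : lk (σ ++ τ) z = lk σ z :=
  look_lk_append hz

theorem ag_append {σ τ : List (List Bool × Bool)} {Y : List Bool → Bool} :
    Ag (σ ++ τ) Y ↔ Ag σ Y ∧ Ag τ Y := by
  unfold Ag
  constructor
  · intro h
    exact ⟨fun e he => h e (List.mem_append_left _ he),
      fun e he => h e (List.mem_append_right _ he)⟩
  · rintro ⟨h1, h2⟩ e he
    rcases List.mem_append.1 he with he | he
    · exact h1 e he
    · exact h2 e he

theorem lk_polyTime {σ : α → List (List Bool × Bool)} {z : α → List Bool} (hσ : PolyTime σ)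
    (hz : PolyTime z) : PolyTime (fun x => lk (σ x) (z x)) := by
  have h1 : PolyTime (fun p : α × ((List Bool × Bool) × Bool) => decide (p.2.1.1 = z p.1)) :=
    PolyTime.decide_eq (PolyTime.fst (PolyTime.fst PolyTime.snd')) (hz.comp PolyTime.fst')
  have h2 : PolyTime (fun p : α × ((List Bool × Bool) × Bool) =>
      if p.2.1.1 = z p.1 then p.2.1.2 else p.2.2) :=
    PolyTime.ite h1 (PolyTime.snd (PolyTime.fst PolyTime.snd')) (PolyTime.snd PolyTime.snd')
  exact PolyTime.foldr (l := σ)
    (g := fun (x : α) (e : List Bool × Bool) (r : Bool) => if e.1 = z x then e.2 else r)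
    (y := fun _ => false) hσ h2 (PolyTime.const false) (s := fun _ => 3) (PBdd.const 3)
    (fun _ _ => sz_bool _)

theorem rt_polyTime {σ : α → List (List Bool × Bool)} (hσ : PolyTime σ) :
    PolyTime (fun x => rt (σ x)) := by
  have h1 : PolyTime (fun p : α × (List Bool × Bool) =>
      if p.2.1.headD false = true then some (p.2.1.tail, p.2.2) else none) := by
    refine PolyTime.ite ?_ ?_ (PolyTime.const none)
    · exact PolyTime.decide_eq (PolyTime.headD (PolyTime.fst PolyTime.snd')
        (PolyTime.const false)) (PolyTime.const true)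
    · exact PolyTime.some (PolyTime.pair (PolyTime.tail (PolyTime.fst PolyTime.snd'))
        (PolyTime.snd PolyTime.snd'))
  exact PolyTime.filterMap (l := σ)
    (g := fun (_ : α) (e : List Bool × Bool) =>
      if e.1.headD false = true then some (e.1.tail, e.2) else none) hσ h1

theorem UT_ag : UT (fun X (σ : List (List Bool × Bool)) => decide (Ag σ X)) := by
  have h1 : UT (fun X (z : List (List Bool × Bool) × (List Bool × Bool)) => X z.2.1) :=
    UT.query.pre (g := fun z : List (List Bool × Bool) × (List Bool × Bool) => z.2.1)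
      (PolyTime.fst PolyTime.snd')
  have h2 : UT (fun X (z : List (List Bool × Bool) × (List Bool × Bool)) =>
      (X z.2.1, z.2.2)) := h1.pair (UT.of (PolyTime.snd PolyTime.snd'))
  have h3 : UT (fun X (z : List (List Bool × Bool) × (List Bool × Bool)) =>
      decide (X z.2.1 = z.2.2)) :=
    h2.post (g := fun y : Bool × Bool => decide (y.1 = y.2))
      (PolyTime.decide_eq PolyTime.fst' PolyTime.snd')
  have h4 := UT.map (l := fun σ : List (List Bool × Bool) => σ) PolyTime.id h3
  have h5 : PolyTime (fun l : List Bool => l.all fun b => b) :=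
    PolyTime.all (l := fun l : List Bool => l) (g := fun _ b => b) PolyTime.id PolyTime.snd'
  refine (h4.post (g := fun l : List Bool => l.all fun b => b) h5).congr fun X σ => ?_
  rw [Bool.eq_iff_iff, decide_eq_true_iff, List.all_eq_true]
  unfold Ag
  constructor
  · intro h b hb
    rw [List.mem_map] at hb
    obtain ⟨e, he, rfl⟩ := hb
    exact decide_eq_true (h e he)
  · intro h e he
    exact of_decide_eq_true (h _ (List.mem_map.2 ⟨e, he, rfl⟩))

/-- Functionals of the right half of the oracle. -/
theorem UT_right {F : (List Bool → Bool) → α → β} (hF : UT F) :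
    UT (fun X => F (fun w => X (true :: w))) := by
  have h := UT_subst (γ := List Bool) hF (ρ := fun z => true :: z.2) (v := fun z => z.2)
    (PolyTime.cons (by fun_prop) (by fun_prop)) (by fun_prop)
  exact (h.pre (g := fun x : α => (([] : List Bool), x)) (by fun_prop)).congr fun X x => rfl

/-- Evaluation relative to `A ⊕ Y` where `Y` is given by a parameter. -/
theorem UT_sub {F : (List Bool → Bool) → α → β} (hF : UT F) {t : γ × List Bool → Bool}
    (ht : PolyTime t) : UT (fun A (z : γ × α) => F (join A fun w => t (z.1, w)) z.2) := by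
  have hv : PolyTime (fun z : (γ × List Bool) × Bool => bif decide (z.1.2 = []) then false
      else bif z.1.2.headD false then t (z.1.1, z.1.2.tail) else z.2) := by
    refine PolyTime.cond (PolyTime.decide_eq (by fun_prop) (by fun_prop)) (by fun_prop)
      (PolyTime.cond (PolyTime.headD (by fun_prop) (by fun_prop)) ?_ (by fun_prop))
    exact ht.comp (f := fun z : (γ × List Bool) × Bool => (z.1.1, z.1.2.tail)) (by fun_prop)
  refine (UT_subst hF (ρ := fun z : γ × List Bool => z.2.tail) (PolyTime.tail (by fun_prop))
    hv).congr fun X z => ?_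
  congr 1
  funext w
  rcases w with _ | ⟨b, w⟩
  · rfl
  · cases b <;> simp [join]

theorem exists_rtrace {F : (List Bool → Bool) → α → β} (hF : UT F) :
    ∃ T : (List Bool → Bool) → α → List (List Bool × Bool), UT T ∧
      (∀ A Y x, Ag (T (join A Y) x) Y) ∧
      ∀ A Y Y' x, Ag (T (join A Y) x) Y' →
        F (join A Y') x = F (join A Y) x ∧ T (join A Y') x = T (join A Y) x := by
  obtain ⟨T, hT, hd⟩ := exists_trace hF
  refine ⟨fun X x => rt (T X x), ?_, fun A Y x => ag_rt (hT.sound _ _), ?_⟩
  · exact hT.ut.post (g := fun σ => rt σ) (rt_polyTime PolyTime.id)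
  · intro A Y Y' x h
    have h1 : ∀ e ∈ T (join A Y) x, join A Y' e.1 = e.2 := join_of_rt (hT.sound _ _) h
    refine ⟨hd _ _ _ h1, ?_⟩
    change rt (T (join A Y') x) = rt (T (join A Y) x)
    rw [hT.eq h1]

end Pool.Agent.GEN42
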