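import Pool.Agent.GEN42.Sim
import Pool.Agent.GEN42.ELang
import Pool.Agent.GEN42.Sys

/-!
# Module GEN42/NPDown

Downward transfer for the total languages.

PROOF. `hL` and `mem_TotalOracle_iff` give `p`, `F` with `UT F`. Let `N, pE, FE` be from
`exists_gadget`, `E X := npf pE FE X`. For `UT` functionals `PF HF DF` the statements
`Ψ1 Y w := (E (join A Y) (PF (join A Y) w) = true)` and
`Ψ2 Y (w, ρ) := (PF (join A Y) (HF (join A Y) (bitEncode (w, ρ))) = bitEncode (DF A w, ρ))` are finitary
(`use_join`; for `Ψ1` also `npf_polyUse` as in module Up). By `forced` and `countable_UT`, for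
comeager many `G` each of them is forced or fails at some argument, for all `PF HF DF`. Fix such `G`
and assume that all nonempty languages in `NPOracle (join A G)` have optimal systems. `E (join A G)` is in
`NPOracle` (`npf_mem`) and contains `bitEncode (x0, [])`, `L x0 = true` (first property of the gadget).
So it has an optimal proof system `PF (join A G)`, `UT PF` (`exists_UT`); it is sound, so
`∃ m, ∀ Y, Agr m G Y → ∀ w, E (join A Y) (PF (join A Y) w) = true`. Let `s` be the table of
`exists_tb G m`, `TP` from `exists_trace` for `PF`, `K0` from `acc_UT`. Put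
`P A u := if K0 A d = true then d.1.1.1 else x0`, `d := dc _ u`
(`d : ((List Bool × List Bool) × List Bool) × (List (List Bool) × List (List Bool × Bool))`).
SOUND: let `Acc … A ξ w τ σ`, `ξ = (x, ρ)`, and suppose `L x = false`; then there is `Z` with
`F (join A Z) (x, w') = false` for all `|w'| ≤ p(|x|)`. `acc_spec` gives `Y` with `Agr m G Y`,
`Encodes Y ξ (mx N ξ) Z`, `PF (join A Y) w = bitEncode ξ`; so `E (join A Y) (bitEncode ξ) = true` by
the choice of `m` and `= false` by the second property of the gadget.
SIMULATION (`hasPOptimal_of_sound`): let `S = DF A` be sound for `L`, `UT DF`. The function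
`u ↦ bitEncode (DF A w, ρ)`, `(w, ρ) = dc _ u`, is polynomial time relative to `join A G` (`UT_left`) and
sound for `E (join A G)` (first property of the gadget). By `sim_all` there is a `UT` functional `HF`
with `PF (join A G) (HF (join A G) u) = bitEncode (DF A w, ρ)`; at `u = bitEncode (w, ρ)` this is `Ψ2 G (w,
ρ)` for all `(w, ρ)`, so it is forced, with some `m1`. `exists_data` gives `K`; `h w := bitEncode (K A w)`
is the simulation.
-/

set_option autoImplicit false

namespace Pool.Agent.GEN42

open Pool.Agent.PT Pool.Agent.TMB67 Pool.Agent.POpt67 Pool.Agent.POpt70 Pool.Agent.ROr14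
open Pool.Agent.TO42
open N68a2faeb N793a5b8e N487b59b3

/-- The language of the gadget depends on a finite part of the generic oracle. -/
private theorem NPDown_agr {Λ : (List Bool → Bool) → DecisionProblem} {r : Polynomial ℕ}
    (hr : ∀ (X Y : List Bool → Bool) (x : List Bool),
      (∀ w : List Bool, w.length ≤ r.eval x.length → X w = Y w) → Λ X x = Λ Y x)
    (A : List Bool → Bool) {G Y : List Bool → Bool} {y : List Bool} {n : ℕ}
    (hn : r.eval y.length ≤ n) (h : Agr n G Y) : Λ (join A Y) y = Λ (join A G) y := by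
  refine hr _ _ _ fun w hw => ?_
  rcases w with _ | ⟨b, z⟩
  · rfl
  · cases b
    · rfl
    · change Y z = G z
      refine h z ?_
      rw [List.length_cons] at hw
      omega

private theorem NPDown_forced1 (A : List Bool → Bool) (pE : Polynomial ℕ)
    {FE : (List Bool → Bool) → List Bool × List Bool → Bool} (hFE : UT FE) :
    ∀ᶠ G in residual (List Bool → Bool),
      ∀ Q ∈ {Q : (List Bool → Bool) → List Bool → List Bool | UT Q},
      (∃ m, ∀ Y, Agr m G Y → ∀ π, npf pE FE (join A Y) (Q (join A Y) π) = true) ∨
        ∃ π, ¬ npf pE FE (join A G) (Q (join A G) π) = true := by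
  obtain ⟨r, hr⟩ := npf_polyUse pE hFE
  rw [eventually_countable_ball countable_UT]
  intro Q hQ
  refine forced (fun Y π => npf pE FE (join A Y) (Q (join A Y) π) = true) ?_
  intro G π
  obtain ⟨K, hK⟩ := use_join hQ A G π
  refine ⟨K + r.eval (Q (join A G) π).length, fun Y hY => ?_⟩
  have e1 : Q (join A Y) π = Q (join A G) π := hK Y (hY.mono (by omega))
  have e2 : npf pE FE (join A Y) (Q (join A G) π) = npf pE FE (join A G) (Q (join A G) π) :=
    NPDown_agr hr A (n := K + r.eval (Q (join A G) π).length) (by omega) hY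
  beta_reduce
  rw [e1, e2]

private theorem NPDown_forced2 (A : List Bool → Bool) :
    ∀ᶠ G in residual (List Bool → Bool),
      ∀ P ∈ {Q : (List Bool → Bool) → List Bool → List Bool | UT Q},
      ∀ H ∈ {Q : (List Bool → Bool) → List Bool → List Bool | UT Q},
      ∀ D ∈ {Q : (List Bool → Bool) → List Bool → List Bool | UT Q},
      (∃ m, ∀ Y, Agr m G Y → ∀ t : List Bool × List Bool,
        P (join A Y) (H (join A Y) (bitEncode t)) = (bitEncode (D A t.1, t.2) : List Bool)) ∨
        ∃ t : List Bool × List Bool,
          ¬ P (join A G) (H (join A G) (bitEncode t)) = (bitEncode (D A t.1, t.2) : List Bool) := by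
  rw [eventually_countable_ball countable_UT]
  intro P hP
  rw [eventually_countable_ball countable_UT]
  intro H hH
  rw [eventually_countable_ball countable_UT]
  intro D _
  refine forced (fun Y (t : List Bool × List Bool) =>
    P (join A Y) (H (join A Y) (bitEncode t)) = (bitEncode (D A t.1, t.2) : List Bool)) ?_
  intro G t
  obtain ⟨K, hK⟩ := use_join (UT.comp hP hH) A G (bitEncode t)
  refine ⟨K, fun Y hY => ?_⟩
  have e1 := hK Y hY
  beta_reduce at e1 ⊢
  rw [e1]

theorem np_down {A : List Bool → Bool} {L : DecisionProblem} (hL : L ∈ TotalOracle A)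
    (hne : ∃ y, L y = true) : ∀ᶠ G in residual (List Bool → Bool),
      AllPOptimal (join A G) (NPOracle (join A G)) → HasPOptimal A L := by
  obtain ⟨p, F, hF, hLF⟩ := mem_TotalOracle_iff.1 hL
  obtain ⟨N, pE, FE, hFE, hE1, hE2⟩ := exists_gadget p hF
  obtain ⟨x0, hx0⟩ := hne
  filter_upwards [NPDown_forced1 A pE hFE, NPDown_forced2 A] with G hG1 hG2 hall
  obtain ⟨P, hP, hPopt⟩ := hall _ (npf_mem pE hFE)
    ⟨_, hE1 A x0 [] ((hLF x0).1 hx0) G⟩
  obtain ⟨PF, hPF, ePF⟩ := IsPolyTimeOracle.exists_UT hP.1
  obtain ⟨m, hm⟩ : ∃ m, ∀ Y, Agr m G Y → ∀ π, npf pE FE (join A Y) (PF (join A Y) π) = true := by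
    rcases hG1 PF hPF with h2 | ⟨π, hπ⟩
    · exact h2
    · exact absurd (by rw [ePF]; exact (hP.2 _).2 ⟨π, rfl⟩) hπ
  obtain ⟨s, hs, hs', _⟩ := exists_tb G m
  obtain ⟨TP, hTP, hTPd⟩ := exists_trace hPF
  obtain ⟨K0, hK0, eK0⟩ := acc_UT N s m hPF hTP.ut
  have hdc := dc_polyTime (((List Bool × List Bool) × List Bool) ×
    (List (List Bool) × List (List Bool × Bool)))
  have hnew : UT (fun (X : List Bool → Bool) (u : List Bool) =>
      if K0 X (dc (((List Bool × List Bool) × List Bool) ×
        (List (List Bool) × List (List Bool × Bool))) u) = true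
      then (dc (((List Bool × List Bool) × List Bool) ×
        (List (List Bool) × List (List Bool × Bool))) u).1.1.1 else x0) := by
    refine UT.post (g := fun t : Bool × List Bool => if t.1 = true then t.2 else x0) ?_
      (UT.pair (hK0.pre hdc) (UT.of (PolyTime.fst (PolyTime.fst (PolyTime.fst hdc)))))
    exact PolyTime.ite (PolyTime.decide_eq_true PolyTime.fst') PolyTime.snd'
      (PolyTime.const _)
  refine hasPOptimal_of_sound (hnew.isPolyTimeOracle A) (fun u => ?_) fun S hS hSs => ?_
  · beta_reduce
    split_ifs with h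
    · obtain ⟨⟨⟨⟨x, ρ⟩, w⟩, ⟨τ, σ⟩⟩, hd⟩ : ∃ d, d = dc (((List Bool × List Bool) × List Bool) ×
        (List (List Bool) × List (List Bool × Bool))) u := ⟨_, rfl⟩
      rw [← hd] at h ⊢
      have hacc := (eK0 A (x, ρ) w τ σ).1 h
      by_contra hLx
      have h3 : ¬ ∀ Y : List Bool → Bool, ∃ w : List Bool,
          w.length ≤ p.eval x.length ∧ F (join A Y) (x, w) = true := fun h4 => hLx ((hLF x).2 h4)
      rw [not_forall] at h3
      obtain ⟨Z, hZ⟩ := h3
      obtain ⟨Y, hY1, hY2, hY3⟩ := acc_spec hTP hTPd hs hs' hacc Z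
      have h5 := hm Y hY1 w
      rw [hY3] at h5
      have h6 := hE2 A x ρ Z (fun w' hw' => by
        by_contra h7
        exact hZ ⟨w', hw', by simpa using h7⟩) Y hY2
      rw [h6] at h5
      exact absurd h5 (by decide)
    · exact hx0
  · obtain ⟨DF, hDF, eDF⟩ := IsPolyTimeOracle.exists_UT hS
    have henc : PolyTime (fun t : List Bool × List Bool => (bitEncode t : List Bool)) :=
      Compat.enc (α := List Bool × List Bool)
    have hdc2 := dc_polyTime (List Bool × List Bool)
    have hRU : UT (fun (X : List Bool → Bool) (u : List Bool) =>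
        (bitEncode (DF (fun w => X (false :: w)) (dc (List Bool × List Bool) u).1,
          (dc (List Bool × List Bool) u).2) : List Bool)) :=
      UT.post henc (UT.pair ((UT_left hDF).pre
        (g := fun u : List Bool => (dc (List Bool × List Bool) u).1) (PolyTime.fst hdc2))
        (UT.of (PolyTime.snd hdc2)))
    have hR := hRU.isPolyTimeOracle (join A G)
    have hRs : ∀ u : List Bool, npf pE FE (join A G)
        (bitEncode (DF (fun w => join A G (false :: w)) (dc (List Bool × List Bool) u).1,
          (dc (List Bool × List Bool) u).2) : List Bool) = true := by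
      intro u
      refine hE1 A _ _ ((hLF _).1 ?_) G
      change L (DF A (dc (List Bool × List Bool) u).1) = true
      rw [eDF]
      exact hSs _
    obtain ⟨h, hh, hsim⟩ := sim_all hP hPopt hR hRs
    obtain ⟨HF, hHF, eHF⟩ := IsPolyTimeOracle.exists_UT hh
    obtain ⟨m1, hm1⟩ : ∃ m, ∀ Y, Agr m G Y → ∀ t : List Bool × List Bool,
        PF (join A Y) (HF (join A Y) (bitEncode t)) =
          (bitEncode (DF A t.1, t.2) : List Bool) := by
      rcases hG2 PF hPF HF hHF DF hDF with h2 | ⟨t, ht⟩
      · exact h2
      · refine absurd ?_ ht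
        rw [ePF, eHF, hsim]
        beta_reduce
        rw [dc_enc]
        rfl
    obtain ⟨K, hK, eK⟩ := exists_data N hPF hTP hs hs' hHF hDF
      (fun Y hY w ρ => hm1 Y hY (w, ρ))
    have hencD : PolyTime (fun t : ((List Bool × List Bool) × List Bool) ×
        (List (List Bool) × List (List Bool × Bool)) => (bitEncode t : List Bool)) :=
      Compat.enc (α := ((List Bool × List Bool) × List Bool) ×
        (List (List Bool) × List (List Bool × Bool)))
    have hKU : UT (fun (X : List Bool → Bool) (w : List Bool) =>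
        (bitEncode (K X w) : List Bool)) := UT.post hencD hK
    refine ⟨_, hKU.isPolyTimeOracle A, fun w => ?_⟩
    beta_reduce
    rw [dc_enc, if_pos ((eK0 A (K A w).1.1 (K A w).1.2 (K A w).2.1 (K A w).2.2).2 (eK w).2),
      (eK w).1, eDF]

end Pool.Agent.GEN42
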