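import Pool.Agent.GEN42.Cells
import Pool.Agent.TO42.Run

/-!
# Module GEN42/SelfTot

An oracle that decides its own total languages.

PROOF. `exists_selfref`: recursion on the length (`A z := Ψ (fun u => if h : u.length < z.length then A u
else false) z`, `termination_by z.length`).
`exists_total_collapse`: `exists_selfref` with `Ψ B z := decide (∀ Y, ∃ w, w.length ≤ κ.length ∧
run (join B Y) (ι.length, λ.length, bitEncode (x, w)) = [true])` (classical), `((ι, λ), (x, κ)) = dc _ z`.
Let `L ∈ TotalOracle A`, `p`, `F` from `mem_TotalOracle_iff`, `F' X s := [F X (dc _ s)]` (`UT`). Let `U` be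
the use polynomial of `UM` (`exists_use UM_UT`; `run X (i, l, s) = UM X (zin i l s)`), `i`, `C` from
`exists_index hF' U (fun _ => 0) 0`. There is a polynomial-time `l : List Bool → ℕ` with
`C * (Nat.size |bitEncode (x, w)| + 1) ≤ Nat.log 2 (l x)` for all `|w| ≤ p(|x|)`: if `|bitEncode (x, w)| ≤
r.eval |x|` take `l x = (4 * r.eval |x| + 4) ^ C` (`2 ^ (Nat.size n + 1) ≤ 4 n + 4`). Put
`z x := bitEncode ((ones i, ones (l x)), (x, ones (p.eval |x|)))`. Then `l x ≤ |z x|`, and for
`|w| ≤ p(|x|)`, `s = bitEncode (x, w)`: `Val U _ i (l x) s _` gives the guards, so `run X (i, l x, s) =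
[F X (x, w)]` for all `X`, and `U.eval (sz (zin i (l x) s)) < l x ≤ |z x|`, so `run (join B Y) … = run
(join A Y) …` for `B u = if u.length < (z x).length then A u else false`. Hence `A (z x) = L x`, and
`L ∈ POracle A` by `UT.query` and `UT.isPolyTimeOracle`.
-/

set_option autoImplicit false

namespace Pool.Agent.GEN42

open Pool.Agent.PT Pool.Agent.TMB67 Pool.Agent.POpt67 Pool.Agent.POpt70 Pool.Agent.ROr14
open Pool.Agent.TO42
open N68a2faeb N793a5b8e N487b59b3

/-- Recursion on the length. -/
private def selfA67 (Ψ : (List Bool → Bool) → List Bool → Bool) (z : List Bool) : Bool :=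
  Ψ (fun u => if _h : u.length < z.length then selfA67 Ψ u else false) z
termination_by z.length

theorem exists_selfref (Ψ : (List Bool → Bool) → List Bool → Bool) :
    ∃ A : List Bool → Bool, ∀ z : List Bool,
      A z = Ψ (fun u => if u.length < z.length then A u else false) z := by
  refine ⟨selfA67 Ψ, fun z => ?_⟩
  conv_lhs => rw [selfA67]
  simp only [dite_eq_ite]

private theorem size_pow67 (n : ℕ) : 2 ^ (Nat.size n + 1) ≤ 4 * n + 4 := by
  rcases Nat.eq_zero_or_pos n with rfl | hn
  · simp
  · have h1 : 0 < Nat.size n := Nat.size_pos.2 hn
    have h2 : 2 ^ (Nat.size n - 1) ≤ n := Nat.lt_size.1 (by omega)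
    have h3 : 2 ^ (Nat.size n + 1) = 4 * 2 ^ (Nat.size n - 1) := by
      have : Nat.size n + 1 = (Nat.size n - 1) + 2 := by omega
      rw [this, pow_add]
      ring
    omega

/-- The parts of the input of the self-referential oracle. -/
private noncomputable def PsiT67 (B : List Bool → Bool) (z : List Bool) : Bool :=
  @decide (∀ Y : List Bool → Bool, ∃ w : List Bool, w.length ≤ (parts z).2.2.length ∧
    run (join B Y) ((parts z).1.1.length, (parts z).1.2.length,
      bitEncode ((parts z).2.1, w)) = [true]) (Classical.propDecidable _)

theorem exists_total_collapse : ∃ A : List Bool → Bool, TotalOracle A ⊆ POracle A := by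
  obtain ⟨A, hA⟩ := exists_selfref PsiT67
  refine ⟨A, fun L hL => ?_⟩
  obtain ⟨p, F, hF, hL⟩ := mem_TotalOracle_iff.1 hL
  have hF' : UT (fun X (s : List Bool) => [F X (dc (List Bool × List Bool) s)]) :=
    (hF.pre (dc_polyTime (List Bool × List Bool))).post (g := fun b : Bool => [b]) (by fun_prop)
  obtain ⟨U, hU⟩ := exists_use UM_UT
  obtain ⟨i, -, hi1, C, hC⟩ := exists_index hF' U (fun _ => 0) 0
  obtain ⟨r, hr⟩ := exists_enc_bound (α := List Bool × List Bool)
  -- the bound on the lengths of the inputs
  have hlen : ∀ x w : List Bool, w.length ≤ p.eval x.length →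
      (bitEncode (x, w) : List Bool).length ≤
        (r.comp (4 * Polynomial.X + 4 * p + 3)).eval x.length := by
    intro x w hw
    refine (hr (x, w)).trans ?_
    rw [Polynomial.eval_comp]
    apply eval_mono
    rw [sz_prod]
    have h1 := sz_listBool x
    have h2 := sz_listBool w
    simp only [Polynomial.eval_add, Polynomial.eval_mul, Polynomial.eval_X,
      Polynomial.eval_ofNat]
    omega
  set R : Polynomial ℕ := r.comp (4 * Polynomial.X + 4 * p + 3) with hR
  set W : Polynomial ℕ := (4 * R + 4) ^ C with hW
  have hWe : ∀ n, W.eval n = (4 * R.eval n + 4) ^ C := by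
    intro n
    rw [hW]
    simp
  have hlog : ∀ x w : List Bool, w.length ≤ p.eval x.length →
      C * (Nat.size (bitEncode (x, w) : List Bool).length + 1) ≤ Nat.log 2 (W.eval x.length) := by
    intro x w hw
    have h1 := hlen x w hw
    have h2 : Nat.size (bitEncode (x, w) : List Bool).length ≤ Nat.size (R.eval x.length) :=
      Nat.size_le_size h1
    refine (Nat.mul_le_mul_left C (Nat.add_le_add_right h2 1)).trans ?_
    rw [hWe]
    refine Nat.le_log_of_pow_le (by norm_num) ?_
    rw [Nat.mul_comm, pow_mul]
    exact Nat.pow_le_pow_left (size_pow67 _) _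
  have hz : PolyTime (fun x : List Bool =>
      cs (List.replicate i true, List.replicate (W.eval x.length) true) x
        (List.replicate (p.eval x.length) true)) := by
    refine cs_polyTime (PolyTime.pair (PolyTime.const _)
      (PolyTime.replicate (polyEval_length W PolyTime.id) (PolyTime.const _))) PolyTime.id
      (PolyTime.replicate (polyEval_length p PolyTime.id) (PolyTime.const _))
  have hmain : L = fun x => A (cs (List.replicate i true,
      List.replicate (W.eval x.length) true) x (List.replicate (p.eval x.length) true)) := by
    funext x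
    set z := cs (List.replicate i true, List.replicate (W.eval x.length) true) x
      (List.replicate (p.eval x.length) true) with hzdef
    have hzl : W.eval x.length ≤ z.length := by
      have := length_cs (List.replicate i true, List.replicate (W.eval x.length) true) x
        (List.replicate (p.eval x.length) true)
      simpa using this
    have hparts : parts z = ((List.replicate i true, List.replicate (W.eval x.length) true),
        (x, List.replicate (p.eval x.length) true)) := by
      rw [hzdef]
      exact dc_enc _
    set B : List Bool → Bool := fun u => if u.length < z.length then A u else false with hB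
    have hrun : ∀ (Y : List Bool → Bool) (w : List Bool), w.length ≤ p.eval x.length →
        run (join B Y) (i, W.eval x.length, bitEncode (x, w)) = [F (join A Y) (x, w)] := by
      intro Y w hw
      have hV := hC (join A Y) (W.eval x.length) (bitEncode (x, w)) (hlog x w hw)
      obtain ⟨⟨hg1, hg2⟩, hu, -⟩ := hV
      have h1 := hi1 (join A Y) (W.eval x.length) (bitEncode (x, w)) hg1 hg2
      rw [dc_enc] at h1
      rw [← h1]
      refine hU (join B Y) (join A Y) _ ?_
      intro u hul
      rcases u with _ | ⟨b, u⟩
      · rfl
      · cases b
        · show B u = A u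
          rw [hB]
          have : u.length < z.length := by
            have : u.length + 1 ≤ U.eval (sz (zin i (W.eval x.length) (bitEncode (x, w)))) := hul
            omega
          simp only [if_pos this]
        · rfl
    have hAz : A z = true ↔ L x = true := by
      rw [hA z, hL x]
      show PsiT67 B z = true ↔ _
      unfold PsiT67
      rw [@decide_eq_true_iff _ (Classical.propDecidable _), hparts]
      simp only [List.length_replicate]
      constructor
      · intro h Y
        obtain ⟨w, hw, h⟩ := h Y
        refine ⟨w, hw, ?_⟩
        rw [hrun Y w hw] at h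
        simpa using h
      · intro h Y
        obtain ⟨w, hw, h⟩ := h Y
        refine ⟨w, hw, ?_⟩
        rw [hrun Y w hw, h]
    rw [Bool.eq_iff_iff]
    exact hAz.symm
  show IsPolyTimeOracle A L
  rw [hmain]
  exact (UT.query.pre hz).isPolyTimeOracle A

end Pool.Agent.GEN42
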