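import Pool.Agent.GEN42.Look

/-!
# Module GEN42/Sep

Relative to generic oracles `P` is not `NP`.

PROOF. `Λ X x := decide (∃ w, w.length ≤ x.length ∧ (w.length = x.length ∧ X (true :: w) = true))` is
`npf X F` for a `UT` functional `F` (with the polynomial `Polynomial.X`), so
`Λ (join A G) ∈ NPOracle (join A G)` (`npf_mem`). For a `UT` functional `H` the statement
`Ψ Y x := (H (join A Y) x = Λ (join A Y) x)` is finitary (`use_join` for `H`, and `K ≥ x.length` for `Λ`). By
`forced`, `countable_UT`, for comeager many `G` every `H` fails at some `x`, or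
`∃ m, ∀ Y, Agr m G Y → ∀ x, H (join A Y) x = Λ (join A Y) x`. The second is impossible: let `T` be from
`exists_rtrace` for `H`, with at most `q.eval n` elements on inputs `x = List.replicate n true`. Take
`n > m` with `q.eval n < 2 ^ n`, `Y0 u := if u.length ≤ m then G u else false`. `Λ (join A Y0) x = false`. Some
`w` of length `n` is not a first component of an element of `T (join A Y0) x` (counting). Let `Y1 :=
Function.update Y0 w true`. `Agr m G Y1`, `H (join A Y1) x = H (join A Y0) x = false`, but
`Λ (join A Y1) x = true`. So `Λ (join A G) ≠ H (join A G)` for all `H`, i.e. it is not in `POracle`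
(`exists_UT`).
-/

set_option autoImplicit false

namespace Pool.Agent.GEN42

open Pool.Agent.PT Pool.Agent.TMB67 Pool.Agent.POpt67 Pool.Agent.POpt70 Pool.Agent.ROr14
open Pool.Agent.TO42
open N68a2faeb N793a5b8e N487b59b3

private theorem sep_grow (r : Polynomial ℕ) (m : ℕ) :
    ∃ n, m < n ∧ r.eval (4 * n + 1) < 2 ^ n := by
  have h1 : ∀ q : Polynomial ℕ, ∃ C d : ℕ, ∀ n, 1 ≤ n → q.eval n ≤ C * n ^ d := by
    intro q
    induction q using Polynomial.induction_on' with
    | add p q hp hq =>
      obtain ⟨C1, d1, h1⟩ := hp
      obtain ⟨C2, d2, h2⟩ := hq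
      refine ⟨C1 + C2, d1 + d2, fun n hn => ?_⟩
      rw [Polynomial.eval_add, add_mul]
      refine add_le_add ((h1 n hn).trans (Nat.mul_le_mul_left _ ?_))
        ((h2 n hn).trans (Nat.mul_le_mul_left _ ?_))
      · exact Nat.pow_le_pow_right hn (by omega)
      · exact Nat.pow_le_pow_right hn (by omega)
    | monomial d c =>
      exact ⟨c, d, fun n _ => by rw [Polynomial.eval_monomial]⟩
  obtain ⟨C, d, hC⟩ := h1 (r.comp (4 * Polynomial.X + 1))
  have h2 : Filter.Tendsto (fun n : ℕ => (n : ℝ) ^ d / (2 : ℝ) ^ n) Filter.atTop (nhds 0) :=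
    tendsto_pow_const_div_const_pow_of_one_lt d (by norm_num)
  have h3 : ∀ᶠ n : ℕ in Filter.atTop, (n : ℝ) ^ d / (2 : ℝ) ^ n < 1 / ((C : ℝ) + 1) :=
    h2.eventually_lt_const (by positivity)
  obtain ⟨n, hn1, hn2⟩ := (h3.and (Filter.eventually_gt_atTop (m + 1))).exists
  refine ⟨n, by omega, ?_⟩
  have h4 := hC n (by omega)
  rw [Polynomial.eval_comp] at h4
  simp only [Polynomial.eval_add, Polynomial.eval_mul, Polynomial.eval_X, Polynomial.eval_ofNat,
    Polynomial.eval_one] at h4
  refine lt_of_le_of_lt h4 ?_
  have h5 : ((C : ℝ) + 1) * (n : ℝ) ^ d < (2 : ℝ) ^ n := by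
    rw [div_lt_div_iff₀ (by positivity) (by positivity)] at hn1
    linarith
  have h6 : (C : ℝ) * (n : ℝ) ^ d < (2 : ℝ) ^ n := by
    refine lt_of_le_of_lt ?_ h5
    have : (0 : ℝ) ≤ (n : ℝ) ^ d := by positivity
    nlinarith
  exact_mod_cast h6

/-- The strings of length `n`. -/
private theorem sep_exists_new (n : ℕ) (σ : List (List Bool × Bool)) (h : σ.length < 2 ^ n) :
    ∃ w : List Bool, w.length = n ∧ w ∉ σ.map Prod.fst := by
  classical
  by_contra hcon
  push Not at hcon
  have h1 : (Finset.univ : Finset (List.Vector Bool n)).image List.Vector.toList ⊆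
      (σ.map Prod.fst).toFinset := by
    intro w hw
    rw [Finset.mem_image] at hw
    obtain ⟨v, _, rfl⟩ := hw
    rw [List.mem_toFinset]
    exact hcon _ v.toList_length
  have h2 := Finset.card_le_card h1
  rw [Finset.card_image_of_injective _ (fun a b hab => List.Vector.eq _ _ hab),
    Finset.card_univ, card_vector] at h2
  have h3 := List.toFinset_card_le (σ.map Prod.fst)
  rw [List.length_map] at h3
  simp only [Fintype.card_bool] at h2
  omega

theorem np_not_p (A : List Bool → Bool) : ∀ᶠ G in residual (List Bool → Bool),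
    ¬ NPOracle (join A G) ⊆ POracle (join A G) := by
  classical
  set F0 : (List Bool → Bool) → List Bool × List Bool → Bool :=
    fun X z => decide (z.2.length = z.1.length) && X (true :: z.2) with hF0
  have hF0U : UT F0 := by
    have h1 : UT (fun X (z : List Bool × List Bool) => X (true :: z.2)) :=
      UT.query.pre (g := fun z : List Bool × List Bool => true :: z.2)
        (PolyTime.cons (PolyTime.const true) PolyTime.snd')
    have h2 : UT (fun (_ : List Bool → Bool) (z : List Bool × List Bool) =>
        decide (z.2.length = z.1.length)) :=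
      UT.of (PolyTime.decide_eq (PolyTime.length PolyTime.snd') (PolyTime.length PolyTime.fst'))
    exact (h2.pair h1).post (g := fun t : Bool × Bool => t.1 && t.2)
      (PolyTime.and PolyTime.fst' PolyTime.snd')
  have hΛ : ∀ (Y : List Bool → Bool) (x : List Bool),
      npf Polynomial.X F0 (join A Y) x = true ↔ ∃ w : List Bool, w.length = x.length ∧
        Y w = true := by
    intro Y x
    rw [npf_iff]
    constructor
    · rintro ⟨w, _, h⟩
      rw [hF0] at h
      simp only [Bool.and_eq_true, decide_eq_true_eq] at h
      exact ⟨w, h.1, h.2⟩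
    · rintro ⟨w, hw, h⟩
      refine ⟨w, by rw [Polynomial.eval_X]; exact hw.le, ?_⟩
      rw [hF0]
      simp only [Bool.and_eq_true, decide_eq_true_eq]
      exact ⟨hw, h⟩
  have key : ∀ᶠ G in residual (List Bool → Bool),
      ∀ H ∈ {F : (List Bool → Bool) → List Bool → Bool | UT F},
        H (join A G) ≠ npf Polynomial.X F0 (join A G) := by
    rw [eventually_countable_ball countable_UT]
    intro H hH
    have hfor := forced (β := List Bool)
      (fun Y x => H (join A Y) x = npf Polynomial.X F0 (join A Y) x) (by
        intro G x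
        obtain ⟨K, hK⟩ := use_join hH A G x
        refine ⟨K + x.length, fun Y hY => ?_⟩
        have e1 := hK Y (hY.mono (by omega))
        have e2 : npf Polynomial.X F0 (join A Y) x = npf Polynomial.X F0 (join A G) x := by
          rw [Bool.eq_iff_iff, hΛ, hΛ]
          constructor
          · rintro ⟨w, hw, h⟩
            exact ⟨w, hw, by rw [← hY w (by omega)]; exact h⟩
          · rintro ⟨w, hw, h⟩
            exact ⟨w, hw, by rw [hY w (by omega)]; exact h⟩
        rw [e1, e2])
    filter_upwards [hfor] with G hG hEq
    rcases hG with ⟨m, hm⟩ | ⟨x, hx⟩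
    · obtain ⟨T, hT, _, hTd⟩ := exists_rtrace hH
      obtain ⟨r, hr⟩ := hT.bound
      obtain ⟨n, hmn, hn⟩ := sep_grow r m
      set x : List Bool := List.replicate n true with hx
      have hxl : x.length = n := by rw [hx, List.length_replicate]
      set Y0 : List Bool → Bool := fun u => if u.length ≤ m then G u else false with hY0
      have hlen : (T (join A Y0) x).length < 2 ^ n := by
        refine lt_of_le_of_lt ((length_le_sz _).trans (hr (join A Y0) x)) ?_
        refine lt_of_le_of_lt (eval_mono r ?_) hn
        have := sz_listBool x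
        rw [hxl] at this
        exact this
      obtain ⟨w, hw, hwT⟩ := sep_exists_new n _ hlen
      set Y1 : List Bool → Bool := Function.update Y0 w true with hY1
      have hA0 : Agr m G Y0 := by
        intro u hu
        rw [hY0]
        simp only [if_pos hu]
      have hA1 : Agr m G Y1 := by
        intro u hu
        have hne : u ≠ w := by
          rintro rfl
          omega
        rw [hY1, Function.update_of_ne hne]
        exact hA0 u hu
      have hag : Ag (T (join A Y0) x) Y1 := by
        intro e he
        have hne : e.1 ≠ w := by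
          rintro h
          exact hwT (List.mem_map.2 ⟨e, he, h⟩)
        rw [hY1, Function.update_of_ne hne]
        exact (‹∀ A Y x, Ag (T (join A Y) x) Y›) A Y0 x e he
      have h0 := hm Y0 hA0 x
      have h1 := hm Y1 hA1 x
      have h2 := (hTd A Y0 Y1 x hag).1
      beta_reduce at h0 h1
      have h3 : npf Polynomial.X F0 (join A Y1) x = true :=
        (hΛ Y1 x).2 ⟨w, by rw [hxl, hw], by rw [hY1, Function.update_self]⟩
      have h4 : npf Polynomial.X F0 (join A Y0) x = true := by
        rw [← h0, ← h2, h1, h3]
      obtain ⟨u, hu, hu'⟩ := (hΛ Y0 x).1 h4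
      rw [hY0] at hu'
      have : ¬ u.length ≤ m := by omega
      simp only [if_neg this] at hu'
      exact Bool.false_ne_true hu'
    · exact hx (congrFun hEq x)
  filter_upwards [key] with G hG hsub
  have h1 : npf Polynomial.X F0 (join A G) ∈ POracle (join A G) :=
    hsub (npf_mem Polynomial.X hF0U)
  obtain ⟨H, hH, eH⟩ := IsPolyTimeOracle.exists_UT (α := List Bool) (β := Bool)
    (f := npf Polynomial.X F0 (join A G)) h1
  exact hG H hH eH

end Pool.Agent.GEN42
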