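import Mathlib.Topology.Baire.LocallyCompactRegular
import Pool.Agent.TO42.Canon
import Pool.Agent.GEN42.NPDown
import Pool.Agent.GEN42.CoNP
import Pool.Agent.GEN42.Sep
import Pool.Agent.GEN42.SelfTot
import Pool.Agent.GEN42.ExpTot
import Pool.Agent.GEN42.KMT
import Pool.Agent.GEN42.Abs

/-!
# Module GEN42/Main

Assembly.

PROOF. `residual (List Bool → Bool)` is not the bottom filter (Baire, nonempty).
`np_iff`: from right to left `np_up`. From left to right: for `L ∈ TotalOracle A` nonempty, `np_down`
and the hypothesis give `HasPOptimal A L` for comeager many `G`, so (it does not depend on `G`) it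
holds. `qOne_iff`: if all nonempty languages of `TotalOracle A` have optimal systems then by `np_up`
and `not_QOne_iff` comeager many `G` have `¬ QOne (join A G)`, so not comeager many have `QOne`.
Otherwise take `L ∈ TotalOracle A` nonempty without optimal system and use `np_down`.
`poly_case`: `isPolyTime_iff`, `kmt A`, `UT_polyTime` and `exp_mem_total` (for `fun z => !β A z`) show that
`TotalOracle A` contains a nonempty language without optimal proof system relative to `A`; then
`qOne_iff`. `exists_collapse`: the oracle of `exists_total_collapse`; `hasPOptimal_of_mem`;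
`NPOracle A ⊆ TotalOracle A` with the functional `F (left half)` (`UT_left`, `join_left`).
-/

set_option autoImplicit false

namespace Pool.Agent.GEN42

open Pool.Agent.PT Pool.Agent.TMB67 Pool.Agent.POpt67 Pool.Agent.POpt70 Pool.Agent.ROr14
open Pool.Agent.TO42
open N68a2faeb N793a5b8e N487b59b3

theorem np_iff (A : List Bool → Bool) : (∀ᶠ G in residual (List Bool → Bool),
    AllPOptimal (join A G) (NPOracle (join A G))) ↔ AllPOptimal A (TotalOracle A) := by
  constructor
  · intro h L hL hne
    obtain ⟨G, hG1, hG2⟩ := (dense_of_mem_residual (h.and (np_down hL hne))).nonempty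
    exact hG2 hG1
  · exact np_up

theorem qOne_iff (A : List Bool → Bool) : (∀ᶠ G in residual (List Bool → Bool),
    QOne (join A G)) ↔ ¬ AllPOptimal A (TotalOracle A) := by
  constructor
  · intro h hA
    obtain ⟨G, hG1, hG2⟩ := (dense_of_mem_residual (h.and (np_up hA))).nonempty
    exact (not_QOne_iff _).2 hG2 hG1
  · intro hA
    unfold AllPOptimal at hA
    push Not at hA
    obtain ⟨L, hL, hne, hno⟩ := hA
    filter_upwards [np_down hL hne] with G hG
    by_contra hcon
    exact hno (hG ((not_QOne_iff _).1 hcon))

theorem poly_case {A : List Bool → Bool} (hA : IsPolyTime A) :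
    ∀ᶠ G in residual (List Bool → Bool), QOne (join A G) := by
  rw [qOne_iff]
  intro hall
  obtain ⟨β, hβ, hne, hno⟩ := kmt A
  have h1 : PolyTime (fun z : List Bool × ℕ => !β A z) :=
    PolyTime.not (UT_polyTime hβ (isPolyTime_iff.1 hA))
  exact hno (hall _ (exp_mem_total h1 A) hne)

theorem exists_collapse : ∃ A : List Bool → Bool, NPOracle A ⊆ POracle A ∧
    AllPOptimal A (TotalOracle A) := by
  obtain ⟨A, hA⟩ := exists_total_collapse
  refine ⟨A, fun L hL => hA ?_, fun L hL hne => hasPOptimal_of_mem (hA hL) hne⟩
  obtain ⟨p, F, hF, rfl⟩ := mem_NPOracle_iff.1 hL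
  refine mem_TotalOracle_iff.2 ⟨p, fun X => F (fun w => X (false :: w)), UT_left hF, fun x => ?_⟩
  rw [npf_iff]
  exact ⟨fun h _ => h, fun h => h (fun _ => false)⟩

end Pool.Agent.GEN42
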