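import Pool.Agent.GEN42.CondNP

/-!
# Module GEN42/NPUp

Upward transfer for `NP` and `coNP`.

PROOF. `countable_npf` and `up_of` (`npf_polyUse`, `cnd_npf_mem`) with `D` from
`Compat.dec (α := List Bool × List (List Bool × Bool))`, by `eventually_countable_ball`; a language in
`NPOracle (join A G)` is `npf p F (join A G)` (`mem_NPOracle_iff`), one in `CoNPOracle (join A G)` is
`fun x => !npf p F (join A G) x`; `PolyUse (fun X x => !npf p F X x)` from `npf_polyUse`; the set of the
functionals `fun X x => !npf p F X x` is the image of the countable set of `countable_npf`.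
-/

set_option autoImplicit false

namespace Pool.Agent.GEN42

open Pool.Agent.PT Pool.Agent.TMB67 Pool.Agent.POpt67 Pool.Agent.POpt70 Pool.Agent.ROr14
open Pool.Agent.TO42
open N68a2faeb N793a5b8e N487b59b3

theorem np_up {A : List Bool → Bool} (h : AllPOptimal A (TotalOracle A)) :
    ∀ᶠ G in residual (List Bool → Bool), AllPOptimal (join A G) (NPOracle (join A G)) := by
  obtain ⟨D, hD, hD'⟩ := Compat.dec (α := List Bool × List (List Bool × Bool))
  have key : ∀ᶠ G in residual (List Bool → Bool),
      ∀ Λ ∈ {Λ : (List Bool → Bool) → DecisionProblem |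
        ∃ (p : Polynomial ℕ) (F : (List Bool → Bool) → List Bool × List Bool → Bool),
          UT F ∧ Λ = npf p F}, (∃ y, Λ (join A G) y = true) →
        HasPOptimal (join A G) (Λ (join A G)) := by
    rw [eventually_countable_ball countable_npf]
    rintro Λ ⟨p, F, hF, rfl⟩
    exact up_of (npf_polyUse p hF) A hD hD' (h _ (cnd_npf_mem p hF A hD))
  filter_upwards [key] with G hG L hL hne
  obtain ⟨p, F, hF, rfl⟩ := mem_NPOracle_iff.1 hL
  exact hG (npf p F) ⟨p, F, hF, rfl⟩ hne

theorem coNP_up {A : List Bool → Bool} (h : AllPOptimal A (CoNPOracle A)) :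
    ∀ᶠ G in residual (List Bool → Bool), AllPOptimal (join A G) (CoNPOracle (join A G)) := by
  obtain ⟨D, hD, hD'⟩ := Compat.dec (α := List Bool × List (List Bool × Bool))
  have hcount : {Λ : (List Bool → Bool) → DecisionProblem |
        ∃ (p : Polynomial ℕ) (F : (List Bool → Bool) → List Bool × List Bool → Bool),
          UT F ∧ Λ = fun X x => !npf p F X x}.Countable := by
    refine (countable_npf.image
      (fun (Λ : (List Bool → Bool) → DecisionProblem) (X : List Bool → Bool) (x : List Bool) =>
        !Λ X x)).mono ?_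
    rintro Λ ⟨p, F, hF, rfl⟩
    exact ⟨npf p F, ⟨p, F, hF, rfl⟩, rfl⟩
  have key : ∀ᶠ G in residual (List Bool → Bool),
      ∀ Λ ∈ {Λ : (List Bool → Bool) → DecisionProblem |
        ∃ (p : Polynomial ℕ) (F : (List Bool → Bool) → List Bool × List Bool → Bool),
          UT F ∧ Λ = fun X x => !npf p F X x}, (∃ y, Λ (join A G) y = true) →
        HasPOptimal (join A G) (Λ (join A G)) := by
    rw [eventually_countable_ball hcount]
    rintro Λ ⟨p, F, hF, rfl⟩
    have hu : PolyUse (fun X x => !npf p F X x) := by
      obtain ⟨r, hr⟩ := npf_polyUse p hF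
      exact ⟨r, fun X Y x hXY => by
        show (!npf p F X x) = !npf p F Y x
        rw [hr X Y x hXY]⟩
    exact up_of hu A hD hD' (h _ (cnd_co_mem p hF A hD))
  filter_upwards [key] with G hG L hL hne
  obtain ⟨p, F, hF, hL'⟩ := mem_NPOracle_iff.1 hL
  have hL2 : L = fun x => !npf p F (join A G) x := by
    funext x
    have h1 : (!L x) = npf p F (join A G) x := congrFun hL' x
    rw [← h1, Bool.not_not]
  subst hL2
  exact hG (fun X x => !npf p F X x) ⟨p, F, hF, rfl⟩ hne

end Pool.Agent.GEN42
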