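import Pool.Agent.GEN42.Cells
import Pool.Agent.GEN42.Aug

/-!
# Module GEN42/Rec

Records as strings, and reading them from an oracle.

PROOF. `drec_erec`: `unpad_pad`, `dc_enc`, `ls.getD (lidx ls l) [] = l`. `erec_polyTime`: `ls` is fixed; the
function `l ↦ lidx ls l` is polynomial time (induction on `ls`: `PolyTime.ite`, `PolyTime.decide_eq`,
`PolyTime.succ`); `St_a_polyTime` etc., `Compat.enc`, `pad_polyTime`. `drec_polyTime`: `dc_polyTime`,
`unpad_polyTime`, `PolyTime.getD`, `St_mk_polyTime`. `length_erec`: `length_pad`. `exists_recBound`: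
`Compat.enc.pbdd` (the size of the tuple is linear in `ls.length` and the lengths of the four
names). `rd_UT`: `UT.map` and `UT.query`. `exists_oracle`: `Y z := (f w).getD κ.length false` for
`(w, κ) = dc _ z`.
-/

set_option autoImplicit false

namespace Pool.Agent.GEN42

open Pool.Agent.PT Pool.Agent.TMB67 Pool.Agent.POpt67 Pool.Agent.POpt70 Pool.Agent.ROr14
open Pool.Agent.TO42
open N68a2faeb N793a5b8e N487b59b3

open scoped Classical in
/-- The position of `l` in `ls`. -/
noncomputable def lidx : List (List Cmd) → List Cmd → ℕ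
  | [], _ => 0
  | a :: ls, l => if a = l then 0 else lidx ls l + 1

noncomputable def erec (ls : List (List Cmd)) (B : ℕ) (ρ : List Cmd × St) : List Bool :=
  pad B (bitEncode (List.replicate (lidx ls ρ.1) true, ((ρ.2.a, ρ.2.b), (ρ.2.c, ρ.2.d))))

noncomputable def drec (ls : List (List Cmd)) (v : List Bool) : List Cmd × St :=
  let d := dc (List Bool × ((List Bool × List Bool) × (List Bool × List Bool))) (unpad v)
  (ls.getD d.1.length [], ⟨d.2.1.1, d.2.1.2, d.2.2.1, d.2.2.2⟩)

private theorem getD_lidx {ls : List (List Cmd)} {l : List Cmd} (h : l ∈ ls) :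
    ls.getD (lidx ls l) [] = l := by
  induction ls with
  | nil => simp at h
  | cons a ls ih =>
    rw [lidx]
    by_cases ha : a = l
    · rw [if_pos ha, List.getD_cons_zero, ha]
    · rw [if_neg ha, List.getD_cons_succ]
      refine ih ?_
      rcases List.mem_cons.1 h with h | h
      · exact absurd h.symm ha
      · exact h

private theorem lidx_le (ls : List (List Cmd)) (l : List Cmd) : lidx ls l ≤ ls.length := by
  induction ls with
  | nil => exact le_rfl
  | cons a ls ih =>
    rw [lidx, List.length_cons]
    split_ifs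
    · omega
    · omega

private theorem lidx_polyTime {α : Type} [Enc α] {f : α → List Cmd} (hf : PolyTime f) :
    ∀ ls : List (List Cmd), PolyTime (fun x => lidx ls (f x))
  | [] => PolyTime.const 0
  | a :: ls => by
    classical
    have h1 : PolyTime (fun x => lidx ls (f x)) := lidx_polyTime hf ls
    have h2 : PolyTime (fun x => if a = f x then 0 else lidx ls (f x) + 1) :=
      PolyTime.ite (PolyTime.decide_eq (PolyTime.const a) hf) (PolyTime.const 0)
        (PolyTime.succ h1)
    refine h2.congr fun x => ?_
    rw [lidx]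

theorem drec_erec {ls : List (List Cmd)} {B : ℕ} {ρ : List Cmd × St} (h : ρ.1 ∈ ls) :
    drec ls (erec ls B ρ) = ρ := by
  have h1 : dc (List Bool × ((List Bool × List Bool) × (List Bool × List Bool)))
      (unpad (erec ls B ρ)) =
      (List.replicate (lidx ls ρ.1) true, ((ρ.2.a, ρ.2.b), (ρ.2.c, ρ.2.d))) := by
    rw [erec, unpad_pad, dc_enc]
  unfold drec
  simp only [h1, List.length_replicate, getD_lidx h]

theorem erec_polyTime {α : Type} [Enc α] (ls : List (List Cmd)) {B : α → ℕ}
    {ρ : α → List Cmd × St} (hB : PolyTime B) (hρ : PolyTime ρ) :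
    PolyTime (fun x => erec ls (B x) (ρ x)) := by
  have h2 : PolyTime (fun x => (ρ x).2) := PolyTime.snd hρ
  have h1 : PolyTime (fun x => (List.replicate (lidx ls (ρ x).1) true,
      (((ρ x).2.a, (ρ x).2.b), ((ρ x).2.c, (ρ x).2.d)))) :=
    PolyTime.pair (PolyTime.replicate (lidx_polyTime (PolyTime.fst hρ) ls)
      (PolyTime.const true)) (PolyTime.pair (PolyTime.pair (St_a_polyTime h2) (St_b_polyTime h2))
        (PolyTime.pair (St_c_polyTime h2) (St_d_polyTime h2)))
  unfold erec
  exact pad_polyTime hB ((Compat.enc (α := List Bool × ((List Bool × List Bool) ×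
    (List Bool × List Bool)))).comp h1)

theorem drec_polyTime (ls : List (List Cmd)) : PolyTime (drec ls) := by
  have h1 : PolyTime (fun v => dc (List Bool × ((List Bool × List Bool) ×
      (List Bool × List Bool))) (unpad v)) := (dc_polyTime _).comp unpad_polyTime
  have h2 := PolyTime.snd h1
  have h3 := PolyTime.fst h2
  have h4 := PolyTime.snd h2
  exact PolyTime.pair (PolyTime.getD (PolyTime.const ls) (PolyTime.fst h1).length
    (PolyTime.const [])) (St_mk_polyTime (PolyTime.fst h3) (PolyTime.snd h3) (PolyTime.fst h4)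
      (PolyTime.snd h4))

/-- Records whose names have length at most `n` need `B(n)` symbols. -/
theorem exists_recBound (ls : List (List Cmd)) : ∃ P : Polynomial ℕ, ∀ (n B : ℕ)
    (ρ : List Cmd × St), (∀ k, (ρ.2.get k).length ≤ n) → P.eval n ≤ B →
      (erec ls B ρ).length = B + 1 := by
  obtain ⟨q, hq⟩ := exists_enc_bound (α := List Bool × ((List Bool × List Bool) ×
    (List Bool × List Bool)))
  refine ⟨q.comp (Polynomial.C (4 * ls.length + 9) + 16 * Polynomial.X), fun n B ρ h hB => ?_⟩
  rw [Polynomial.eval_comp] at hB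
  rw [erec]
  refine length_pad (((hq _).trans (eval_mono q ?_)).trans hB)
  have ha := h .A
  have hb := h .B
  have hc := h .C
  have hd := h .D
  simp only [St.get] at ha hb hc hd
  have e0 := sz_listBool (List.replicate (lidx ls ρ.1) true)
  have e1 := sz_listBool ρ.2.a
  have e2 := sz_listBool ρ.2.b
  have e3 := sz_listBool ρ.2.c
  have e4 := sz_listBool ρ.2.d
  have e5 := lidx_le ls ρ.1
  rw [List.length_replicate] at e0
  simp only [sz_prod, Polynomial.eval_add, Polynomial.eval_C, Polynomial.eval_mul,
    Polynomial.eval_ofNat, Polynomial.eval_X]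
  omega

/-- Read a string of length `B + 1`. -/
def rd (Y : List Bool → Bool) (B : ℕ) (w : List Bool) : List Bool :=
  (List.range (B + 1)).map fun j => Y (bitEncode (w, List.replicate j true))

theorem rd_UT : UT (fun X (z : ℕ × List Bool) => rd (fun u => X (true :: u)) z.1 z.2) := by
  have h1 : PolyTime (fun p : (ℕ × List Bool) × ℕ =>
      true :: (bitEncode (p.1.2, List.replicate p.2 true) : List Bool)) :=
    PolyTime.cons (PolyTime.const true) ((Compat.enc (α := List Bool × List Bool)).comp
      (PolyTime.pair (PolyTime.snd PolyTime.fst') (PolyTime.replicate PolyTime.snd'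
        (PolyTime.const true))))
  have h2 : UT (fun X (p : (ℕ × List Bool) × ℕ) =>
      X (true :: (bitEncode (p.1.2, List.replicate p.2 true) : List Bool))) :=
    UT.query.pre h1
  exact (UT.map (l := fun z : ℕ × List Bool => List.range (z.1 + 1))
    (PolyTime.range (PolyTime.succ PolyTime.fst')) h2).congr fun X z => rfl

theorem exists_oracle (B : ℕ) (f : List Bool → List Bool) (hf : ∀ w, (f w).length = B + 1) :
    ∃ Y : List Bool → Bool, ∀ w, rd Y B w = f w := by
  refine ⟨fun z => (f (dc (List Bool × List Bool) z).1).getD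
    (dc (List Bool × List Bool) z).2.length false, fun w => ?_⟩
  unfold rd
  simp only [dc_enc, List.length_replicate]
  refine List.ext_getElem (by simp [hf]) fun i h1 h2 => ?_
  rw [List.getElem_map, List.getElem_range, List.getD_eq_getElem _ _ h2]

end Pool.Agent.GEN42
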