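import Pool.Agent.GEN42.DSys
import Pool.Agent.GEN42.Fly

/-!
# Module GEN42/Sim

Accepted data for all outputs of a given functional.

PROOF. Let `s1` be the table of `exists_tb G m1`. Let `TH` be from `exists_trace` for `HF`. On inputs
`(ξ, w) : (List Bool × List Bool) × List Bool`, `ξ = (x, ρ)`, let
`T X (ξ, w) := TH X (bitEncode (w, ρ)) ++ TP X (HF X (bitEncode (w, ρ)))`; `IsTrace` by `append_comp` and
`comap`. Apply `exists_closed` with `cell (ξ, w) z := cell (mx N ξ) ξ z` and
`orc (ξ, w) τ z := orc s m (mx N ξ) ξ s1 τ z` (`orc_indep`, `orc_append`, `orc_polyTime`); get `KK`, `n`.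
Put `ρ w := ones (|w| + K0)` (`List.replicate`), `ξ w := (DF A w, ρ w)`, `τ w := KK A (ξ w, w)`,
`Y w := orc s m (mx N (ξ w)) (ξ w) s1 (τ w)`, `v w := HF (join A (Y w)) (bitEncode (w, ρ w))` and
`K A w := ((ξ w, v w), (τ w, s1))` (`UT` by `UT.comp`, `UT.pair`, `UT_sub`).
Choice of `K0`: `m, m1 < K0` and `Nat.size (n.eval (sz (ξ w, w))) ≤ |w| + K0` for all `w`: the size of
`DF A w` is at most `r.eval (4|w| + 1)` (`UT.bound`), so `n.eval (sz (ξ w, w)) ≤ q.eval (|w| + K0)` for
a polynomial `q` independent of `K0`, and `q.eval j < 2 ^ j` for all large `j` (`Nat.size_le`; polynomials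
are eventually smaller than `2 ^ j`, cf. TO42 or `exists_pow_bound` and
`Nat` growth lemmas).
`Agr m1 G (Y w)`: a string `z` with `|z| ≤ m1` is not in the region because `|cs ξ c κ| ≥ |ρ| > m1`
(`length_cs`); if `|z| ≤ m` then `Y z = lk s z = G z`, otherwise `cell … z = none` and `Y z = lk s1 z = G z`.
So `h1` gives `PF (join A (Y w)) (v w) = bitEncode (ξ w)`. The elements of `τ w` have length `mx N ξ` by
`cell_eq_some_iff`. The last condition of `Acc` is the last one of `exists_closed`, since `rt` of the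
second part is contained in `rt` of the concatenation (`List.filterMap_append`).
-/

set_option autoImplicit false

namespace Pool.Agent.GEN42

open Pool.Agent.PT Pool.Agent.TMB67 Pool.Agent.POpt67 Pool.Agent.POpt70 Pool.Agent.ROr14
open Pool.Agent.TO42
open N68a2faeb N793a5b8e N487b59b3

private theorem Sim_grow (P : Polynomial ℕ) :
    ∀ c : ℕ, ∃ k, ∀ j ≥ k, c * P.eval j < 2 ^ j := by
  induction P using Polynomial.induction_on' with
  | add P Q hP hQ =>
    intro c
    obtain ⟨k, hk⟩ := hP (2 * c)
    obtain ⟨k', hk'⟩ := hQ (2 * c)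
    refine ⟨max k k', fun j hj => ?_⟩
    have h1 := hk j (le_trans (le_max_left _ _) hj)
    have h2 := hk' j (le_trans (le_max_right _ _) hj)
    rw [Polynomial.eval_add, Nat.mul_add]
    rw [Nat.mul_assoc] at h1 h2
    omega
  | monomial n a =>
    intro c
    have h := tendsto_pow_const_div_const_pow_of_one_lt n (r := (2 : ℝ)) one_lt_two
    have hpos : (0 : ℝ) < 1 / ((c : ℝ) * a + 1) := by positivity
    have h2 := h.eventually (gt_mem_nhds hpos)
    obtain ⟨k, hk⟩ := Filter.eventually_atTop.1 h2
    refine ⟨k, fun j hj => ?_⟩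
    have h3 := hk j hj
    rw [div_lt_div_iff₀ (by positivity) (by positivity), one_mul] at h3
    rw [Polynomial.eval_monomial]
    have h4 : ((c * (a * j ^ n) : ℕ) : ℝ) < ((2 ^ j : ℕ) : ℝ) := by
      push_cast
      have h5 : (0 : ℝ) ≤ (j : ℝ) ^ n := by positivity
      nlinarith
    exact_mod_cast h4

private theorem Sim_rt_append (a b : List (List Bool × Bool)) : rt (a ++ b) = rt a ++ rt b := by
  unfold rt
  exact List.filterMap_append

theorem exists_data (N : Polynomial ℕ) {s : List (List Bool × Bool)} {m m1 : ℕ}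
    {PF : (List Bool → Bool) → List Bool → List Bool}
    {TP : (List Bool → Bool) → List Bool → List (List Bool × Bool)} (hPF : UT PF)
    (hTP : IsTrace TP) {A G : List Bool → Bool} (hs : Ag s G)
    (hs' : ∀ z : List Bool, z.length ≤ m → z ∈ s.map Prod.fst)
    {HF DF : (List Bool → Bool) → List Bool → List Bool} (hHF : UT HF) (hDF : UT DF)
    (h1 : ∀ Y, Agr m1 G Y → ∀ w ρ : List Bool,
      PF (join A Y) (HF (join A Y) (bitEncode (w, ρ))) = bitEncode (DF A w, ρ)) :
    ∃ K : (List Bool → Bool) → List Bool → ((List Bool × List Bool) × List Bool) ×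
        (List (List Bool) × List (List Bool × Bool)), UT K ∧
      ∀ w, (K A w).1.1.1 = DF A w ∧
        Acc N s m PF TP A (K A w).1.1 (K A w).1.2 (K A w).2.1 (K A w).2.2 := by
  obtain ⟨s1, hs1, hs1m, _⟩ := exists_tb G m1
  obtain ⟨TH, hTH, hdH⟩ := exists_trace hHF
  have hg : PolyTime (fun z : (List Bool × List Bool) × List Bool =>
      (bitEncode (z.2, z.1.2) : List Bool)) :=
    (Compat.enc (α := List Bool × List Bool)).comp
      (PolyTime.pair PolyTime.snd' (PolyTime.snd PolyTime.fst'))
  have hT : IsTrace (fun X (z : (List Bool × List Bool) × List Bool) =>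
      TH X (bitEncode (z.2, z.1.2)) ++ TP X (HF X (bitEncode (z.2, z.1.2)))) :=
    (hTH.append_comp hTP hHF hdH).comap hg
  have hcell : PolyTime (fun z : ((List Bool × List Bool) × List Bool) × List Bool =>
      cell (mx N z.1.1) z.1.1 z.2) :=
    cell_polyTime (mx_polyTime N (PolyTime.fst PolyTime.fst')) (PolyTime.fst PolyTime.fst')
      PolyTime.snd'
  have horc : PolyTime (fun z : (((List Bool × List Bool) × List Bool) × List (List Bool)) ×
      List Bool => orc s m (mx N z.1.1.1) z.1.1.1 s1 z.1.2 z.2) :=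
    orc_polyTime s m (mx_polyTime N (PolyTime.fst (PolyTime.fst PolyTime.fst')))
      (PolyTime.fst (PolyTime.fst PolyTime.fst')) (PolyTime.const s1)
      (PolyTime.snd PolyTime.fst') PolyTime.snd'
  obtain ⟨KK, n, hKK, hK⟩ := exists_closed hT
    (cell := fun z y => cell (mx N z.1) z.1 y) hcell
    (orc := fun z τ y => orc s m (mx N z.1) z.1 s1 τ y) horc
    (fun x z hz τ τ' => orc_indep hz) (fun x z c hz τ τ' hc => orc_append hz hc)
  obtain ⟨r, hr⟩ := hDF.bound
  obtain ⟨k, hk⟩ := Sim_grow (n.comp (r.comp (4 * Polynomial.X + 1) +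
    (8 * Polynomial.X + 4))) 1
  obtain ⟨K0, hK0⟩ : ∃ K0, K0 = k + m + m1 + 1 := ⟨_, rfl⟩
  obtain ⟨ρ, hρ⟩ : ∃ ρ : List Bool → List Bool,
      ρ = fun w => List.replicate (w.length + K0) true := ⟨_, rfl⟩
  have hρl : ∀ w, (ρ w).length = w.length + K0 := by
    intro w
    rw [hρ, List.length_replicate]
  have hρp : PolyTime ρ := by
    rw [hρ]
    exact PolyTime.replicate (PolyTime.natAdd (PolyTime.length PolyTime.id)
      (PolyTime.const K0)) (PolyTime.const true)
  have hsize : ∀ A w, n.eval (sz ((DF A w, ρ w), w)) < 2 ^ (w.length + K0) := by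
    intro A w
    have h2 := hk (w.length + K0) (by omega)
    rw [one_mul, Polynomial.eval_comp] at h2
    refine lt_of_le_of_lt (eval_mono n ?_) h2
    rw [sz_prod, sz_prod]
    simp only
    have h3 : sz (DF A w) ≤ r.eval (4 * (w.length + K0) + 1) := by
      refine (hr A w).trans (eval_mono r ?_)
      have h4 := sz_listBool w
      omega
    have h5 := sz_listBool (ρ w)
    rw [hρl] at h5
    have h6 := sz_listBool w
    simp only [Polynomial.eval_add, Polynomial.eval_mul, Polynomial.eval_X,
      Polynomial.eval_comp, Polynomial.eval_ofNat, Polynomial.eval_one]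
    omega
  have hξ : UT (fun A (w : List Bool) => (DF A w, ρ w)) := hDF.pair (UT.of hρp)
  have hτ : UT (fun A (w : List Bool) => KK A ((DF A w, ρ w), w)) :=
    hKK.comp (hξ.pair (UT.of PolyTime.id))
  have ht : PolyTime (fun z : ((List Bool × List Bool) × List (List Bool)) × List Bool =>
      orc s m (mx N z.1.1) z.1.1 s1 z.1.2 z.2) :=
    orc_polyTime s m (mx_polyTime N (PolyTime.fst PolyTime.fst'))
      (PolyTime.fst PolyTime.fst') (PolyTime.const s1)
      (PolyTime.snd PolyTime.fst') PolyTime.snd'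
  have hv : UT (fun A (w : List Bool) =>
      HF (join A (orc s m (mx N (DF A w, ρ w)) (DF A w, ρ w) s1 (KK A ((DF A w, ρ w), w))))
        (bitEncode (w, ρ w))) := by
    have h2 := UT_sub hHF ht
    have h3 : UT (fun A (w : List Bool) => (((DF A w, ρ w), KK A ((DF A w, ρ w), w)),
        (bitEncode (w, ρ w) : List Bool))) :=
      (hξ.pair hτ).pair (UT.of ((Compat.enc (α := List Bool × List Bool)).comp
        (PolyTime.pair PolyTime.id hρp)))
    exact (h2.comp h3).congr fun A w => rfl
  refine ⟨fun A w => (((DF A w, ρ w),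
      HF (join A (orc s m (mx N (DF A w, ρ w)) (DF A w, ρ w) s1 (KK A ((DF A w, ρ w), w))))
        (bitEncode (w, ρ w))), (KK A ((DF A w, ρ w), w), s1)), ?_, ?_⟩
  · exact (hξ.pair hv).pair (hτ.pair (UT.of (PolyTime.const s1)))
  · intro w
    refine ⟨rfl, ?_⟩
    obtain ⟨hnd, hlen, hcells, hclosed⟩ := hK A ((DF A w, ρ w), w)
    have hagr : Agr m1 G (orc s m (mx N (DF A w, ρ w)) (DF A w, ρ w) s1
        (KK A ((DF A w, ρ w), w))) := by
      intro z hz
      by_cases hzm : z.length ≤ m
      · rw [orc_short hzm]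
        exact lk_of_ag hs (hs' z hzm)
      · have hnone : cell (mx N (DF A w, ρ w)) (DF A w, ρ w) z = none := by
          rcases h2 : cell (mx N (DF A w, ρ w)) (DF A w, ρ w) z with _ | c
          · rfl
          · exfalso
            obtain ⟨_, κ, hκ⟩ := cell_eq_some_iff.1 h2
            have h3 := length_cs (DF A w, ρ w) c κ
            rw [← hκ] at h3
            simp only at h3
            rw [hρl] at h3
            omega
        rw [orc_none (by omega) hnone]
        exact lk_of_ag hs1 (hs1m z hz)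
    refine ⟨h1 _ hagr w (ρ w), ?_, hnd, ?_, ?_, ?_⟩
    · change m < (ρ w).length
      rw [hρl]
      omega
    · intro c hc
      obtain ⟨z, hz⟩ := hcells c hc
      exact (cell_eq_some_iff.1 hz).1
    · change Nat.size (KK A ((DF A w, ρ w), w)).length ≤ (ρ w).length
      rw [hρl, Nat.size_le]
      exact lt_of_le_of_lt hlen (hsize A w)
    · intro e he c hc
      refine hclosed e ?_ c hc
      rw [Sim_rt_append]
      exact List.mem_append_right _ he

end Pool.Agent.GEN42
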