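import Pool.Agent.GEN42.Unif

/-!
# Module GEN42/Trace

The questions and answers of a computation.

PROOF. `exists_trace`: let `⟨p, q, g, hq, hg, hF⟩ := hF`, `m x := p.eval (sz x)`. Put `T X x :=
(List.range (m x)).map fun i => (q (x, a.take i), a.getD i false)`, `a = answers X q x (m x)`
(`answers_take`, `answers_length`). It is `UT` (same `p`, `q`, and the obvious value function,
padded by `take (m x)`). `sound`: `answers` at `i + 1`. `pre`: by induction on `j ≤ i`:
`answers Y q x j = answers X q x j` if the first `i` entries of `T X x` are true in `Y`.
`IsTrace.eq`: `pre` with `i = (T X x).length`. `append_comp`: `pre` for the concatenation: if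
`i < (T1 X x).length` use `pre` of `T1`; otherwise `T1 Y x = T1 X x` (`IsTrace.eq`) and
`F Y x = F X x` by `hd`, and then `pre` of `T2` at `F X x` with `i - (T1 X x).length`.
-/

set_option autoImplicit false

namespace Pool.Agent.GEN42

open Pool.Agent.PT Pool.Agent.TMB67 Pool.Agent.POpt67 Pool.Agent.POpt70 Pool.Agent.ROr14
open Pool.Agent.TO42
open N68a2faeb N793a5b8e N487b59b3

variable {α β γ : Type} [Enc α] [Enc β] [Enc γ]

/-- A functional that lists questions with their answers; the next question is determined by the
previous answers. -/
structure IsTrace (T : (List Bool → Bool) → α → List (List Bool × Bool)) : Prop where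
  ut : UT T
  sound : ∀ X x, ∀ e ∈ T X x, X e.1 = e.2
  pre : ∀ X Y x i, (∀ e ∈ (T X x).take i, Y e.1 = e.2) →
    (T Y x).take i = (T X x).take i ∧
      ((T Y x)[i]?).map Prod.fst = ((T X x)[i]?).map Prod.fst

/-- The trace determines the value of the functional. -/
def Determines (T : (List Bool → Bool) → α → List (List Bool × Bool))
    (F : (List Bool → Bool) → α → β) : Prop :=
  ∀ X Y x, (∀ e ∈ T X x, Y e.1 = e.2) → F Y x = F X x

theorem IsTrace.eq {T : (List Bool → Bool) → α → List (List Bool × Bool)} (hT : IsTrace T)
    {X Y : List Bool → Bool} {x : α} (h : ∀ e ∈ T X x, Y e.1 = e.2) : T Y x = T X x := by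
  obtain ⟨h1, h2⟩ := hT.pre X Y x (T X x).length (by rw [List.take_length]; exact h)
  rw [List.take_length] at h1
  rw [List.getElem?_eq_none le_rfl, Option.map_none, Option.map_eq_none_iff,
    List.getElem?_eq_none_iff] at h2
  rwa [List.take_of_length_le h2] at h1

omit [Enc α] in
private theorem answers_getD (X : List Bool → Bool) (q : α × List Bool → List Bool) (x : α)
    {i m : ℕ} (h : i < m) :
    (answers X q x m).getD i false = X (q (x, answers X q x i)) := by
  have h1 : (answers X q x m).take (i + 1) = answers X q x i ++ [X (q (x, answers X q x i))] :=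
    answers_take X q x h
  have h2 : (answers X q x m)[i]? = ((answers X q x m).take (i + 1))[i]? := by
    rw [List.getElem?_take_of_lt (Nat.lt_succ_self i)]
  rw [List.getD_eq_getElem?_getD, h2, h1, List.getElem?_append_right (by rw [answers_length]),
    answers_length, Nat.sub_self]
  rfl

/-- The trace of a computation given by the next question `q` and the number `m` of questions. -/
private def tr (m : α → ℕ) (q : α × List Bool → List Bool) (X : List Bool → Bool) (x : α) :
    List (List Bool × Bool) :=
  (List.range (m x)).map fun i => (q (x, answers X q x i), X (q (x, answers X q x i)))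

omit [Enc α] in
private theorem tr_getElem? (m : α → ℕ) (q : α × List Bool → List Bool) (X : List Bool → Bool)
    (x : α) (i : ℕ) : (tr m q X x)[i]? = if i < m x then
      some (q (x, answers X q x i), X (q (x, answers X q x i))) else none := by
  unfold tr
  rw [List.getElem?_map]
  by_cases h : i < m x
  · rw [if_pos h, List.getElem?_range h, Option.map_some]
  · rw [if_neg h, List.getElem?_eq_none (by rw [List.length_range]; omega), Option.map_none]

private theorem answers_congr (m : α → ℕ) (q : α × List Bool → List Bool)
    {X Y : List Bool → Bool} {x : α} {i : ℕ} (h : ∀ e ∈ (tr m q X x).take i, Y e.1 = e.2) :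
    ∀ j, j ≤ i → j ≤ m x → answers Y q x j = answers X q x j := by
  intro j
  induction j with
  | zero => intro _ _; rfl
  | succ j ih =>
    intro h1 h2
    have h3 := ih (by omega) (by omega)
    have h4 : Y (q (x, answers X q x j)) = X (q (x, answers X q x j)) := by
      apply h (q (x, answers X q x j), X (q (x, answers X q x j)))
      apply List.mem_of_getElem? (i := j)
      rw [List.getElem?_take_of_lt (by omega), tr_getElem?, if_pos (by omega)]
    change answers Y q x j ++ [Y (q (x, answers Y q x j))] =
      answers X q x j ++ [X (q (x, answers X q x j))]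
    rw [h3, h4]

theorem exists_trace {F : (List Bool → Bool) → α → β} (hF : UT F) :
    ∃ T : (List Bool → Bool) → α → List (List Bool × Bool), IsTrace T ∧ Determines T F := by
  obtain ⟨p, q, g, hq, hg, hF⟩ := hF
  refine ⟨tr (fun x => p.eval (sz x)) q, ⟨?_, ?_, ?_⟩, ?_⟩
  · have hm : PolyTime (fun z : α × List Bool => p.eval (sz z.1)) :=
      polyEval_polyTime (PolyTime.size PolyTime.fst') p
    have ha : PolyTime (fun z : α × List Bool => z.2.take (p.eval (sz z.1))) :=
      PolyTime.take hm PolyTime.snd'
    have hg' : PolyTime (fun z : α × List Bool => (List.range (p.eval (sz z.1))).map fun i =>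
        (q (z.1, (z.2.take (p.eval (sz z.1))).take i),
          (z.2.take (p.eval (sz z.1))).getD i false)) := by
      refine PolyTime.map (l := fun z : α × List Bool => List.range (p.eval (sz z.1)))
        (g := fun z i => (q (z.1, (z.2.take (p.eval (sz z.1))).take i),
          (z.2.take (p.eval (sz z.1))).getD i false)) (PolyTime.range hm) ?_
      refine PolyTime.pair (hq.comp (PolyTime.pair (PolyTime.fst PolyTime.fst') ?_)) ?_
      · exact PolyTime.take PolyTime.snd' (ha.comp PolyTime.fst')
      · exact PolyTime.getD (ha.comp PolyTime.fst') PolyTime.snd' (PolyTime.const _)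
    refine ⟨p, q, _, hq, hg', fun X x n hn => ?_⟩
    unfold tr
    beta_reduce
    rw [answers_take X q x hn]
    refine List.map_congr_left fun i hi => ?_
    rw [List.mem_range] at hi
    rw [answers_take X q x hi.le, answers_getD X q x hi]
  · intro X x e he
    unfold tr at he
    rw [List.mem_map] at he
    obtain ⟨i, -, rfl⟩ := he
    rfl
  · intro X Y x i h
    have key := answers_congr (fun x => p.eval (sz x)) q h
    constructor
    · apply List.ext_getElem?
      intro j
      by_cases hj : j < i
      · rw [List.getElem?_take_of_lt hj, List.getElem?_take_of_lt hj, tr_getElem?, tr_getElem?]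
        by_cases hjm : j < p.eval (sz x)
        · rw [if_pos hjm, if_pos hjm, key j hj.le hjm.le]
          have h4 : Y (q (x, answers X q x j)) = X (q (x, answers X q x j)) := by
            apply h (q (x, answers X q x j), X (q (x, answers X q x j)))
            apply List.mem_of_getElem? (i := j)
            rw [List.getElem?_take_of_lt hj, tr_getElem?, if_pos hjm]
          rw [h4]
        · rw [if_neg hjm, if_neg hjm]
      · rw [List.getElem?_eq_none, List.getElem?_eq_none]
        · exact (List.length_take_le _ _).trans (by omega)
        · exact (List.length_take_le _ _).trans (by omega)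
    · rw [tr_getElem?, tr_getElem?]
      by_cases him : i < p.eval (sz x)
      · rw [if_pos him, if_pos him, key i le_rfl him.le]
        rfl
      · rw [if_neg him, if_neg him]
  · intro X Y x h
    have h' : ∀ e ∈ (tr (fun x => p.eval (sz x)) q X x).take (p.eval (sz x)), Y e.1 = e.2 :=
      fun e he => h e (List.mem_of_mem_take he)
    rw [hF X x _ le_rfl, hF Y x _ le_rfl,
      answers_congr (fun x => p.eval (sz x)) q h' _ le_rfl le_rfl]

theorem IsTrace.append_comp {T1 : (List Bool → Bool) → α → List (List Bool × Bool)}
    {T2 : (List Bool → Bool) → β → List (List Bool × Bool)} {F : (List Bool → Bool) → α → β}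
    (h1 : IsTrace T1) (h2 : IsTrace T2) (hF : UT F) (hd : Determines T1 F) :
    IsTrace (fun X x => T1 X x ++ T2 X (F X x)) := by
  refine ⟨?_, ?_, ?_⟩
  · exact (h1.ut.pair (h2.ut.comp hF)).post
      (g := fun z : List (List Bool × Bool) × List (List Bool × Bool) => z.1 ++ z.2)
      (PolyTime.append PolyTime.fst' PolyTime.snd')
  · intro X x e he
    rcases List.mem_append.mp he with he | he
    · exact h1.sound X x e he
    · exact h2.sound X _ e he
  · intro X Y x i h
    by_cases hi : i < (T1 X x).length
    · rw [List.take_append_of_le_length hi.le] at h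
      obtain ⟨h3, h4⟩ := h1.pre X Y x i h
      have hi' : i < (T1 Y x).length := by
        by_contra hc
        rw [List.getElem?_eq_none (by omega), List.getElem?_eq_getElem hi] at h4
        simp at h4
      rw [List.take_append_of_le_length hi.le, List.take_append_of_le_length hi'.le,
        List.getElem?_append_left hi, List.getElem?_append_left hi']
      exact ⟨h3, h4⟩
    · have hi' : (T1 X x).length ≤ i := by omega
      have h3 : ∀ e ∈ T1 X x, Y e.1 = e.2 := by
        intro e he
        apply h
        rw [List.take_append, List.take_of_length_le hi']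
        exact List.mem_append_left _ he
      have e1 : T1 Y x = T1 X x := h1.eq h3
      have e2 : F Y x = F X x := hd X Y x h3
      have h4 : ∀ e ∈ (T2 X (F X x)).take (i - (T1 X x).length), Y e.1 = e.2 := by
        intro e he
        apply h
        rw [List.take_append]
        exact List.mem_append_right _ he
      obtain ⟨h5, h6⟩ := h2.pre X Y (F X x) _ h4
      rw [e1, e2, List.take_append, List.take_append, h5,
        List.getElem?_append_right hi', List.getElem?_append_right hi']
      exact ⟨rfl, h6⟩

theorem IsTrace.comap {T : (List Bool → Bool) → β → List (List Bool × Bool)} (hT : IsTrace T)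
    {g : α → β} (hg : PolyTime g) : IsTrace (fun X x => T X (g x)) :=
  ⟨hT.ut.pre hg, fun X x => hT.sound X (g x), fun X Y x i => hT.pre X Y (g x) i⟩

end Pool.Agent.GEN42
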