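import Pool.Agent.GEN42.Defs
import Pool.Agent.ROr14.Mach
import Pool.Agent.TO42.NPF
import Pool.Agent.TO42.Tal

/-!
# Module GEN42/Unif

Uniform functionals and `UT`.

PROOF. As `IsPolyTimeOracle.exists_UT` and `UT.isPolyTimeOracle` (ROr14/Mach.lean), which prove
exactly this for one oracle; `mem_TotalOracle_iff` from `isUniform_iff`.
-/

set_option autoImplicit false

namespace Pool.Agent.GEN42

open Pool.Agent.PT Pool.Agent.TMB67 Pool.Agent.POpt67 Pool.Agent.POpt70 Pool.Agent.ROr14
open Pool.Agent.TO42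
open N68a2faeb N793a5b8e N487b59b3

theorem isUniform_iff {α β : Type} [N487b59b3 α] [N487b59b3 β] [Enc α] [Enc β] [Compat α]
    [Compat β] {F : (List Bool → Bool) → α → β} : IsUniform F ↔ UT F := by
  constructor
  · rintro ⟨p, q, g, hq, hg, hf⟩
    obtain ⟨r, hr⟩ := exists_enc_bound (α := α)
    refine ⟨p.comp r, q, fun z => g (z.1, z.2.take (p.eval (bitEncode z.1).length)),
      isPolyTime_iff.1 hq, (isPolyTime_iff.1 hg).comp (PolyTime.pair PolyTime.fst' (PolyTime.take
        (polyEval_length p ((Compat.enc (α := α)).comp PolyTime.fst')) PolyTime.snd')),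
      fun X x m hm => ?_⟩
    rw [hf X x]
    beta_reduce
    rw [answers_take]
    rw [Polynomial.eval_comp] at hm
    exact (eval_mono p (hr x)).trans hm
  · rintro ⟨p, q, g, hq, hg, hF⟩
    obtain ⟨r, hr⟩ := exists_sz_bound (α := α)
    refine ⟨p.comp r, q, g, isPolyTime_iff.2 hq, isPolyTime_iff.2 hg, fun X x => ?_⟩
    rw [Polynomial.eval_comp]
    exact hF X x _ (eval_mono p (hr x))

theorem mem_TotalOracle_iff {A : List Bool → Bool} {L : DecisionProblem} :
    L ∈ TotalOracle A ↔ ∃ (p : Polynomial ℕ)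
      (F : (List Bool → Bool) → List Bool × List Bool → Bool), UT F ∧
        ∀ x, L x = true ↔ ∀ Y : List Bool → Bool, ∃ w : List Bool,
          w.length ≤ p.eval x.length ∧ F (join A Y) (x, w) = true := by
  constructor
  · rintro ⟨p, F, hF, hL⟩
    exact ⟨p, F, isUniform_iff.1 hF, hL⟩
  · rintro ⟨p, F, hF, hL⟩
    exact ⟨p, F, isUniform_iff.2 hF, hL⟩

end Pool.Agent.GEN42
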