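import Pool.Agent.GEN42.Look
import Pool.Agent.GEN42.Sys

/-!
# Module GEN42/Up

Optimal proof systems for a conditional language give optimal proof systems relative to generic
oracles.

PROOF. For a `UT` functional `Q` let `Ψ Y π := Λ (join A Y) (Q (join A Y) π) = true`. It is finitary:
at `G`, `π` take `K ≥` the bound of `use_join` for `Q` and `K ≥ r.eval (Q (join A G) π).length` with `r`
from `hΛ` (strings of `join A Y` of length `≤ r` contain strings of `Y` of length `< r`). By `forced` and
`countable_UT` (a countable intersection, `eventually_countable_ball` or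
`Set.Countable` + `eventually_countable_ball`), for comeager many `G` every `Q` has
(*) `∃ m, ∀ Y, Agr m G Y → ∀ π, Λ (join A Y) (Q (join A Y) π) = true`, or `∃ π`, `Λ (join A G) (Q (join A G)
π) = false`. Fix such a `G` and `y0` with `Λ (join A G) y0 = true`.
(a) For `y` with `Λ (join A G) y = true` let `σ` be the table of `exists_tb G (r.eval y.length)`; then
`cnd Λ A D (bitEncode (y, σ)) = true`. In particular `cnd` is nonempty; `h` gives a proof system, `= Pc A`
with `UT Pc` by `exists_UT`, and `Pc A` is optimal.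
(b) `P X ρ := if Ag (D c).2 (right half of X) then (D c).1 else y0`, `c := Pc (left half of X) ρ`; it is
`UT` (`UT_left`, `UT_right UT_ag`, `UT.comp`, `UT.pair`, `UT.post`); at `X = join A G` it is sound, because
`cnd Λ A D c = true` and `G` itself agrees with the table.
(c) Use `hasPOptimal_of_sound` with `P (join A G)`. Let `S` be sound, `S = Q (join A G)` with `UT Q`
(`exists_UT`); the second alternative of (*) is excluded, take `m`, `s` from `exists_tb G m` and `T` from
`exists_rtrace` for `Q`. Put `R^A(u) := bitEncode (Q (join A (lk (σ ++ s))) π, T (join A (lk (σ ++ s))) π ++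
s)` where `(π, σ) = D' u` (`D'` from `Compat.dec` for `List Bool × List (List Bool × Bool)`; it may be
`D`). It is `UT` by `UT_sub` and `lk_polyTime`. SOUND for `cnd` for every `u`: if `Y` agrees with
`T (join A Y1) π ++ s`, `Y1 = lk (σ ++ s)`, then `Agr m G Y`, and `Q (join A Y) π = Q (join A Y1) π` by
`exists_rtrace`, so (*) applies. By `sim_all` for `Pc A` there is `h` with `Pc A (h u) = R^A(u)`.
(d) Given `π` let `u = bitEncode (π, T (join A G) π)`. The table `σ ++ s`, `σ = T (join A G) π`, agrees
with `G`, so `lk (σ ++ s)` agrees with `σ` (`lk_of_ag`); hence `Q (join A Y1) π = Q (join A G) π = S π` and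
`T (join A Y1) π = T (join A G) π`, and `P (join A G) (h u) = S π`. The map `π ↦ h u` is polynomial time
relative to `join A G` (`IsPolyTimeOracle.join_left` for `h`, composition through `exists_UT`).
-/

set_option autoImplicit false

namespace Pool.Agent.GEN42

open Pool.Agent.PT Pool.Agent.TMB67 Pool.Agent.POpt67 Pool.Agent.POpt70 Pool.Agent.ROr14
open Pool.Agent.TO42
open N68a2faeb N793a5b8e N487b59b3

open scoped Classical in
/-- Pairs of a string and a finite table which ensures that the string is in `Λ`. -/
noncomputable def cnd (Λ : (List Bool → Bool) → DecisionProblem) (A : List Bool → Bool)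
    (D : List Bool → List Bool × List (List Bool × Bool)) : DecisionProblem :=
  fun c => decide (∀ Y, Ag (D c).2 Y → Λ (join A Y) (D c).1 = true)

theorem cnd_iff {Λ : (List Bool → Bool) → DecisionProblem} {A : List Bool → Bool}
    {D : List Bool → List Bool × List (List Bool × Bool)} {c : List Bool} :
    cnd Λ A D c = true ↔ ∀ Y, Ag (D c).2 Y → Λ (join A Y) (D c).1 = true := by
  simp [cnd]

private theorem Up_agr {Λ : (List Bool → Bool) → DecisionProblem} {r : Polynomial ℕ}
    (hr : ∀ (X Y : List Bool → Bool) (x : List Bool),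
      (∀ w : List Bool, w.length ≤ r.eval x.length → X w = Y w) → Λ X x = Λ Y x)
    (A : List Bool → Bool) {G Y : List Bool → Bool} {y : List Bool} {n : ℕ}
    (hn : r.eval y.length ≤ n) (h : Agr n G Y) : Λ (join A Y) y = Λ (join A G) y := by
  refine hr _ _ _ fun w hw => ?_
  rcases w with _ | ⟨b, z⟩
  · rfl
  · cases b
    · rfl
    · change Y z = G z
      refine h z ?_
      rw [List.length_cons] at hw
      omega

theorem up_of {Λ : (List Bool → Bool) → DecisionProblem} (hΛ : PolyUse Λ)
    (A : List Bool → Bool) {D : List Bool → List Bool × List (List Bool × Bool)}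
    (hD : PolyTime D) (hD' : ∀ z, D (bitEncode z) = z)
    (h : (∃ c, cnd Λ A D c = true) → HasPOptimal A (cnd Λ A D)) :
    ∀ᶠ G in residual (List Bool → Bool), (∃ y, Λ (join A G) y = true) →
      HasPOptimal (join A G) (Λ (join A G)) := by
  obtain ⟨r, hr⟩ := hΛ
  have h1 : ∀ᶠ G in residual (List Bool → Bool),
      ∀ Q ∈ {Q : (List Bool → Bool) → List Bool → List Bool | UT Q},
      (∃ m, ∀ Y, Agr m G Y → ∀ π, Λ (join A Y) (Q (join A Y) π) = true) ∨
        ∃ π, ¬ Λ (join A G) (Q (join A G) π) = true := by
    rw [eventually_countable_ball countable_UT]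
    intro Q hQ
    refine forced (fun Y π => Λ (join A Y) (Q (join A Y) π) = true) ?_
    intro G π
    obtain ⟨K, hK⟩ := use_join hQ A G π
    refine ⟨K + r.eval (Q (join A G) π).length, fun Y hY => ?_⟩
    have e1 : Q (join A Y) π = Q (join A G) π := hK Y (hY.mono (by omega))
    have e2 : Λ (join A Y) (Q (join A G) π) = Λ (join A G) (Q (join A G) π) :=
      Up_agr hr A (n := K + r.eval (Q (join A G) π).length) (by omega) hY
    rw [e1, e2]
  filter_upwards [h1] with G hG1 hne
  obtain ⟨y0, hy0⟩ := hne
  have henc : PolyTime (fun t : List Bool × List (List Bool × Bool) =>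
      (bitEncode t : List Bool)) := Compat.enc (α := List Bool × List (List Bool × Bool))
  -- the conditional language is not empty
  have hcne : ∃ c, cnd Λ A D c = true := by
    obtain ⟨σ, _, _, hσ⟩ := exists_tb G (r.eval y0.length)
    refine ⟨bitEncode (y0, σ), ?_⟩
    rw [cnd_iff, hD']
    intro Y hY
    rw [Up_agr hr A (n := r.eval y0.length) le_rfl (hσ Y hY)]
    exact hy0
  obtain ⟨Pc, hPc, hPopt⟩ := h hcne
  obtain ⟨FA, hFA, hFAP⟩ := IsPolyTimeOracle.exists_UT hPc.1
  -- the new system
  have hFL : UT (fun X : List Bool → Bool => FA (fun w => X (false :: w))) := UT_left hFA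
  have hAG : UT (fun (X : List Bool → Bool) (σ : List (List Bool × Bool)) =>
      decide (Ag σ (fun w => X (true :: w)))) := UT_right UT_ag
  have hnew : UT (fun (X : List Bool → Bool) (ρ : List Bool) =>
      if decide (Ag (D (FA (fun w => X (false :: w)) ρ)).2 (fun w => X (true :: w))) = true
        then (D (FA (fun w => X (false :: w)) ρ)).1 else y0) := by
    refine UT.post (g := fun t : Bool × List Bool => if t.1 = true then (D t.2).1 else y0) ?_
      (UT.pair (hAG.comp (UT.post (g := fun c : List Bool => (D c).2) (PolyTime.snd hD) hFL))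
        hFL)
    exact PolyTime.ite (PolyTime.decide_eq_true PolyTime.fst')
      (PolyTime.fst (hD.comp PolyTime.snd')) (PolyTime.const _)
  obtain ⟨PX, hPXdef⟩ : ∃ PX : List Bool → List Bool, PX = fun ρ =>
      if decide (Ag (D (Pc ρ)).2 G) = true then (D (Pc ρ)).1 else y0 := ⟨_, rfl⟩
  have hPXpoly : IsPolyTimeOracle (join A G) PX := by
    have h2 := hnew.isPolyTimeOracle (join A G)
    rw [hPXdef, ← hFAP]
    exact h2
  have hsound : ∀ ρ, Λ (join A G) (PX ρ) = true := by
    intro ρ
    rw [hPXdef]
    beta_reduce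
    split_ifs with h2
    · exact cnd_iff.1 ((hPc.2 _).2 ⟨ρ, rfl⟩) G (of_decide_eq_true h2)
    · exact hy0
  refine hasPOptimal_of_sound hPXpoly hsound fun S hS hSs => ?_
  obtain ⟨Q, hQ, hQS⟩ := IsPolyTimeOracle.exists_UT hS
  obtain ⟨m, hm⟩ : ∃ m, ∀ Y, Agr m G Y → ∀ π, Λ (join A Y) (Q (join A Y) π) = true := by
    rcases hG1 Q hQ with h2 | ⟨π, hπ⟩
    · exact h2
    · exact absurd (by rw [hQS]; exact hSs π) hπ
  obtain ⟨s, hs, _, hsY⟩ := exists_tb G m
  obtain ⟨T, hT, hTag, hTeq⟩ := exists_rtrace hQ
  have ht : PolyTime (fun z : List (List Bool × Bool) × List Bool => lk (z.1 ++ s) z.2) :=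
    lk_polyTime (PolyTime.append PolyTime.fst' (PolyTime.const s)) PolyTime.snd'
  have hDp : PolyTime (fun u : List Bool => ((D u).2, (D u).1)) :=
    PolyTime.pair (PolyTime.snd hD) (PolyTime.fst hD)
  have hRU : UT (fun (B : List Bool → Bool) (u : List Bool) =>
      (bitEncode (Q (join B (fun w => lk ((D u).2 ++ s) w)) (D u).1,
        T (join B (fun w => lk ((D u).2 ++ s) w)) (D u).1 ++ s) : List Bool)) := by
    refine UT.post henc (UT.pair
      ((UT_sub hQ ht).pre (g := fun u : List Bool => ((D u).2, (D u).1)) hDp) ?_)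
    exact UT.post (g := fun l : List (List Bool × Bool) => l ++ s)
      (PolyTime.append PolyTime.id (PolyTime.const s))
      ((UT_sub hT ht).pre (g := fun u : List Bool => ((D u).2, (D u).1)) hDp)
  obtain ⟨R, hRdef⟩ : ∃ R : List Bool → List Bool, R = fun u =>
      (bitEncode (Q (join A (fun w => lk ((D u).2 ++ s) w)) (D u).1,
        T (join A (fun w => lk ((D u).2 ++ s) w)) (D u).1 ++ s) : List Bool) := ⟨_, rfl⟩
  have hR : IsPolyTimeOracle A R := by
    rw [hRdef]
    exact hRU.isPolyTimeOracle A
  have hRs : ∀ u, cnd Λ A D (R u) = true := by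
    intro u
    rw [cnd_iff, hRdef]
    beta_reduce
    rw [hD']
    intro Y hY
    rw [ag_append] at hY
    have h2 := hTeq A (fun w => lk ((D u).2 ++ s) w) Y (D u).1 hY.1
    have h3 := hm Y (hsY Y hY.2) (D u).1
    rw [h2.1] at h3
    exact h3
  obtain ⟨h', hh', hsim⟩ := sim_all hPc hPopt hR hRs
  obtain ⟨FH, hFH, hFHh⟩ := IsPolyTimeOracle.exists_UT (IsPolyTimeOracle.join_left hh' G)
  have hh : UT (fun (X : List Bool → Bool) (π : List Bool) =>
      FH X (bitEncode (π, T X π) : List Bool)) :=
    hFH.comp (UT.post henc (UT.pair (UT.of PolyTime.id) hT))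
  have hh2 := hh.isPolyTimeOracle (join A G)
  rw [hFHh] at hh2
  refine ⟨_, hh2, fun π => ?_⟩
  have hσG : Ag (T (join A G) π) G := hTag A G π
  have hall : Ag (T (join A G) π ++ s) G := ag_append.2 ⟨hσG, hs⟩
  have hσY : Ag (T (join A G) π) (fun w => lk (T (join A G) π ++ s) w) := by
    intro e he
    have h2 : lk (T (join A G) π ++ s) e.1 = G e.1 := by
      refine lk_of_ag hall ?_
      rw [List.map_append]
      exact List.mem_append_left _ (List.mem_map_of_mem he)
    change lk (T (join A G) π ++ s) e.1 = e.2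
    rw [h2]
    exact hσG e he
  have h3 := hTeq A G _ π hσY
  have h4 : Pc (h' (bitEncode (π, T (join A G) π))) =
      (bitEncode (S π, T (join A G) π ++ s) : List Bool) := by
    rw [hsim, hRdef]
    beta_reduce
    rw [hD']
    simp only
    rw [h3.1, h3.2, hQS]
  rw [hPXdef]
  beta_reduce
  rw [h4, hD']
  simp only
  rw [if_pos (decide_eq_true hall)]

end Pool.Agent.GEN42
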